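import Pool.Agent.Lib.MP_7903c7_al.PT.SysS

set_option autoImplicit false

/-!
Operations on systems.
-/

namespace Pool.Agent.Lib.MP_7903c7_al.PT

open Finset Pool.Agent.Lib.MP_7903c7_al.RF
open scoped Classical Pointwise

variable {G : Type} [Group G]

theorem Sys.of_fejer {p : ℕ} (hp : p.Prime) {g : G} {S : Finset G} {N L n1 : ℕ}
    (F : ℤ → (ℤ → G) → ℂ) (hF : ∀ j, Equi g (Subgroup.centralizer {g}) N (fun _ => j) (F j)) :
    Sys p g S N L (2 * n1) (2 * n1)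
      {γ | ∃ j ∈ Icc (1 : ℤ) (2 * n1 - 1), Fine g S N L L (fun _ => j) (F j) γ} := by
  have := Fact.mk hp
  refine ⟨ℤ, Icc (1 : ℤ) (2 * n1 - 1), fun j => padicValNat p j.natAbs, fun j _ => j, F, ?_, ?_,
    fun j hj _ => SysS.not_dvd (by have := (mem_Icc.1 hj).1; omega), fun j _ => hF j,
    fun γ _ h => h⟩
  · rw [Int.card_Icc]; omega
  · exact (sum_le_sum_of_subset (Icc_subset_Icc le_rfl (by push_cast; omega))).trans
      (SysS.sum_val (p := p) (2 * n1))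

theorem Sys.mono {p : ℕ} {g : G} {S : Finset G} {N L k k' α α' : ℕ} {U U' : Set (ℤ → G)}
    (h : Sys p g S N L k α U) (hk : k ≤ k') (hα : α ≤ α')
    (hU : ∀ γ, Good g S N L γ → γ ∈ U' → γ ∈ U) : Sys p g S N L k' α' U' :=
  let ⟨ι, s, a, w, F, h1, h2, h3, h4, h5⟩ := h
  ⟨ι, s, a, w, F, h1.trans hk, h2.trans hα, h3, h4, fun γ hγ h => h5 γ hγ (hU γ hγ h)⟩

theorem Sys.union {p : ℕ} {g : G} {S : Finset G} {N L k k' α α' : ℕ} {U U' : Set (ℤ → G)}
    (h : Sys p g S N L k α U) (h' : Sys p g S N L k' α' U') :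
    Sys p g S N L (k + k') (α + α') (U ∪ U') := by
  obtain ⟨ι, s, a, w, F, h1, h2, h3, h4, h5⟩ := h
  obtain ⟨ι', s', a', w', F', h1', h2', h3', h4', h5'⟩ := h'
  refine ⟨ι ⊕ ι', s.disjSum s', Sum.elim a a', Sum.elim w w', Sum.elim F F', ?_, ?_, ?_, ?_, ?_⟩
  · rw [card_disjSum]; omega
  · rw [sum_disjSum]; exact add_le_add h2 h2'
  · rintro (i | i) hi
    · exact h3 i (inl_mem_disjSum.1 hi)
    · exact h3' i (inr_mem_disjSum.1 hi)
  · rintro (i | i) hi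
    · exact h4 i (inl_mem_disjSum.1 hi)
    · exact h4' i (inr_mem_disjSum.1 hi)
  · rintro γ hγ (h | h)
    · obtain ⟨i, hi, hf⟩ := h5 γ hγ h
      exact ⟨.inl i, inl_mem_disjSum.2 hi, hf⟩
    · obtain ⟨i, hi, hf⟩ := h5' γ hγ h
      exact ⟨.inr i, inr_mem_disjSum.2 hi, hf⟩

theorem Sys.biUnion {p : ℕ} {g : G} {S : Finset G} {N L : ℕ} (m : ℕ) (k α : ℕ → ℕ)
    (U : ℕ → Set (ℤ → G)) (h : ∀ i < m, Sys p g S N L (k i) (α i) (U i)) :
    Sys p g S N L (∑ i ∈ range m, k i) (∑ i ∈ range m, α i) {γ | ∃ i < m, γ ∈ U i} := by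
  induction m with
  | zero =>
    exact ⟨Unit, ∅, fun _ => 0, fun _ _ => 0, fun _ _ => 0, by simp, by simp, by simp, by simp,
      by simp⟩
  | succ m ih =>
    rw [sum_range_succ, sum_range_succ]
    refine ((ih fun i hi => h i (by omega)).union (h m (by omega))).mono le_rfl le_rfl ?_
    rintro γ - ⟨i, hi, hγ⟩
    rcases (Nat.lt_succ_iff.1 hi).lt_or_eq with h' | rfl
    · exact Or.inl ⟨i, h', hγ⟩
    · exact Or.inr hγ

end Pool.Agent.Lib.MP_7903c7_al.PT
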