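import Pool.Agent.Lib.MP_7903c7_al.PT.Fit
import Pool.Agent.Lib.MP_7903c7_al.PT.Sys
import Pool.Agent.Lib.MP_7903c7_al.RF.Main
import Pool.Agent.Lib.MP_7903c7_al.F.SysZ
import Pool.Agent.Lib.MP_7903c7_al.F.SysM

set_option autoImplicit false

/-!
The systems for the loops that are wrapped by a pattern of the last level.
-/

namespace Pool.Agent.Lib.MP_7903c7_al.PT

open Finset Pool.Agent.Lib.MP_7903c7_al.RF
open scoped Classical Pointwise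

variable {G : Type} [Group G]

namespace MZ

theorem mem_pow {S : Finset G} (hS : ∀ s ∈ S, s⁻¹ ∈ S) {x : G}
    (h : x ∈ Subgroup.closure (S : Set G)) : ∃ n : ℕ, x ∈ (S : Set G) ^ n := by
  induction h using Subgroup.closure_induction with
  | mem x hx => exact ⟨1, by rwa [pow_one]⟩
  | one => exact ⟨0, by simp⟩
  | mul x y _ _ h h' =>
    obtain ⟨m, h⟩ := h
    obtain ⟨n, h'⟩ := h'
    exact ⟨_, GeoAux.mul_mem_pow h h'⟩
  | inv x _ h => exact h.imp fun n => GeoAux.inv_mem_pow hS n x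

/-- The count behind a fit. -/
theorem fit_count {S : Finset G} (h1 : (1 : G) ∈ S) {R n0 : ℕ} (hn0 : 0 < n0) (Sg : ℕ)
    (π : ℕ → Option G) (γ : ℤ → G) (c : G) (s : ℤ) : fit S R n0 Sg π γ c s * n0 ≤
      ((range Sg ×ˢ range n0).filter fun q => (γ (s + q.1 * n0 + q.2))⁻¹ * c *
        (if q.1 < Sg then (π q.1).getD 1 else 1) ∈ (S : Set G) ^ R).card * R := by
  rw [fit, div_mul_cancel₀ _ (by positivity), ← sum_product', ← sum_boole, sum_mul]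
  refine sum_le_sum fun q hq => ?_
  rw [if_pos (mem_range.1 (mem_product.1 hq).1)]
  rcases π q.1 with _ | v
  · simp only [Option.elim_none]
    positivity
  · simp only [Option.elim_some, Option.getD_some]
    split_ifs with h
    · rw [one_mul]
      exact ph_le _ _ _
    · rw [zero_mul]
      exact (not_not.1 (mt (ph_mem h1) h)).le

theorem of_band {p : ℕ} (hp : p.Prime) {g : G} {S : Finset G} {N L : ℕ} (K M I : ℕ)
    (i : ℕ → (ℤ → G) → ℕ) (F : ℕ × ℤ → (ℤ → G) → ℂ) (hi : ∀ b γ, 1 ≤ i b γ ∧ i b γ ≤ I)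
    (hF : ∀ b j, Equi g (Subgroup.centralizer {g}) N (fun γ => i b γ * (p : ℤ) ^ M - j)
      (F (b, j))) :
    Sys p g S N L ((K + 1) * (3 * M + I + 1)) ((K + 1) * (3 * M + I + 1))
      {γ | ∃ b ≤ K, ∃ j : ℤ, |j| ≤ M ∧
        Fine g S N L L (fun γ => i b γ * (p : ℤ) ^ M - j) (F (b, j)) γ} := by
  have := Fact.mk hp
  refine ⟨ℕ × ℤ, range (K + 1) ×ˢ Icc (-(M : ℤ)) M,
    fun q => padicValNat p q.2.natAbs + if q.2 = 0 then M + I else 0,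
    fun q γ => i q.1 γ * (p : ℤ) ^ M - q.2, F, ?_, ?_,
    fun q hq γ => Main.not_dvd3 (hi _ γ).1 (hi _ γ).2 (mem_product.1 hq).2, fun q _ => hF q.1 q.2,
    fun γ _ ⟨b, hb, j, hj, h⟩ =>
      ⟨(b, j), mem_product.2 ⟨mem_range.2 (by omega), mem_Icc.2 (abs_le.1 hj)⟩, h⟩⟩
  · rw [card_product, card_range, Int.card_Icc]
    exact Nat.mul_le_mul_left _ (by omega)
  · rw [sum_product]
    simp only [sum_add_distrib, sum_ite_eq', sum_const, card_range, smul_eq_mul, mem_Icc,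
      Left.neg_nonpos_iff, Nat.cast_nonneg, and_self, if_true, ← mul_add]
    exact Nat.mul_le_mul_left _ (by have := Main.sum_val (p := p) M; omega)

end MZ

open MZ in
theorem sysMZ {p : ℕ} (hp : p.Prime) {g : G} (hg : orderOf g = 0) {S : Finset G}
    (h1 : (1 : G) ∈ S) (hS : ∀ s ∈ S, s⁻¹ ∈ S) {k0 : ℕ} (hK : S.card ≤ 2 ^ k0)
    (R Sg T b gg : ℕ) (hR : 0 < R) (hgg : 0 < gg) (hT : 9 * Sg ≤ 10 * T) (hg' : 30 * gg ≤ Sg)
    (θ : ℝ) (hθ : 0 < θ) (hb : (2496 * (6 * gg + 3) * 2 ^ (k0 * (2 * R)) : ℝ) ≤ θ * Sg)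
    (Q : Finset (ℕ → Option G)) (hP : ∀ π ∈ Q, Pat Sg T b π)
    (hV : ∀ π ∈ Q, ∀ x, (π x).getD 1 ∈ Subgroup.closure (S : Set G)) :
    ∃ c0 L0 : ℕ, ∀ L ≥ L0, ∃ n00 : ℕ, ∀ n0 ≥ n00, ∃ k : ℕ, (k : ℝ) ≤ 3 * θ * L + c0 ∧
      Sys p g S (L * n0) L k k {γ | ∃ π ∈ Q, Wrap S R n0 Sg gg π γ (19 * R * T / 20)} := by
  obtain ⟨D, hD⟩ : ∃ D : ℕ, ∀ q ∈ Q ×ˢ range Sg, (q.1 q.2).getD 1 ∈ (S : Set G) ^ D :=
    ((Filter.eventually_all_finset _).2 fun q hq => by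
      obtain ⟨n, hn⟩ := mem_pow hS (hV q.1 (mem_product.1 hq).1 q.2)
      exact (Filter.eventually_ge_atTop n).mono fun _ h => GeoAux.mem_pow_mono h1 h hn).exists
  obtain ⟨K1, hK1⟩ : ∃ K1, K1 = 192 * (6 * gg + 3) * 2 ^ (k0 * (2 * R)) := ⟨_, rfl⟩
  obtain ⟨r3, hr3⟩ : ∃ r3, r3 = 2 * R + D + 40 * (Sg + 3 * gg + 1) := ⟨_, rfl⟩
  obtain ⟨K, hK3⟩ : ∃ K, K = (K1 + 1) * (4 * S.card ^ r3 + 1) := ⟨_, rfl⟩
  obtain ⟨T2, h2⟩ := exists_nat_gt (48 * K / θ)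
  have T0 : 0 < T2 := Nat.cast_pos.1 (lt_of_le_of_lt (by positivity) h2)
  have S0 : 0 < Sg := by omega
  obtain ⟨I, HZ⟩ := F.sysZ g hg S h1 hS r3 T2 T0
  refine ⟨2 + K * (I + 1), T2 + 2 * (Sg + 3 * gg + 1), fun L hL => ?_⟩
  have m1 := Nat.lt_mul_div_succ (8 * L) T0
  have m2 := Nat.mul_div_le (8 * L) T2
  have m3 := Nat.lt_mul_div_succ (13 * L * K1) S0
  have m4 := Nat.mul_div_le (13 * L * K1) Sg
  generalize 8 * L / T2 = M at m1 m2
  generalize 13 * L * K1 / Sg = n at m3 m4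
  obtain ⟨a1, H1⟩ := F.sysM g S h1 hS R Sg gg D K1 r3 (by omega) hgg (by
    rw [hK1, pow_mul 2]
    exact Nat.mul_le_mul_left _ (Nat.pow_le_pow_left hK _)) hr3.ge L (n + 1) L (by omega) m3.le
  obtain ⟨a2, H2⟩ := HZ L M L ((p : ℤ) ^ M) (by omega) m1.le (by rw [mul_add_one]; omega)
  refine ⟨a1 + a2 + 1, fun n0 hn0 => ⟨2 * (n + 1) + K * (3 * M + I + 1), ?_, ?_⟩⟩
  · have e1 : (n : ℝ) ≤ θ * L := by
      have : (Sg * n : ℝ) ≤ 13 * L * (192 * (6 * gg + 3) * 2 ^ (k0 * (2 * R))) := by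
        rw [hK1] at m4
        exact_mod_cast m4
      refine le_of_mul_le_mul_left (this.trans ?_) (show (0 : ℝ) < Sg by positivity)
      nlinarith [mul_le_mul_of_nonneg_left hb (Nat.cast_nonneg L)]
    have e2 : (K * (3 * M) : ℝ) ≤ θ * L := by
      have : (T2 * M : ℝ) ≤ 8 * L := by exact_mod_cast m2
      rw [div_lt_iff₀ hθ] at h2
      nlinarith [mul_le_mul_of_nonneg_left this hθ.le, (Nat.cast_nonneg L : (0 : ℝ) ≤ L),
        mul_le_mul_of_nonneg_right h2.le (Nat.cast_nonneg M : (0 : ℝ) ≤ M)]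
    push_cast
    linarith
  obtain ⟨F1, A, hF1, hA, hc⟩ := H1 n0 (by omega)
  choose i F3 hi hF3 hc3 using fun b =>
    H2 n0 (by omega) (A b) fun γ _ => ⟨fun c _ => (hA b γ).1 c, (hA b γ).2⟩
  have n1 : 0 < n0 := by omega
  have e : ∑ _b ∈ range (K1 + 1), (4 * S.card ^ r3 + 1) * (3 * M + I + 1) = K * (3 * M + I + 1) := by
    rw [sum_const, card_range, smul_eq_mul, hK3, mul_assoc]
  refine ((Sys.of_fejer hp F1 hF1).union (Sys.biUnion (K1 + 1) _ _ _ fun b _ =>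
    of_band hp (4 * S.card ^ r3) M I (i b) (F3 b) (hi b) (hF3 b))).mono (by rw [e]) (by rw [e]) ?_
  rintro γ hγ ⟨π, hπ, hw⟩
  refine (hc γ hγ (fun x => if x < Sg then (π x).getD 1 else 1) (fun x => ?_) fun t => ?_).imp id
    fun ⟨b, hb, u1, u2, u3⟩ => ⟨b, Nat.lt_succ_of_le hb, hc3 b γ hγ u1 u2 u3⟩
  · split_ifs with h
    · exact hD (π, x) (mem_product.2 ⟨hπ, mem_range.2 h⟩)
    · exact GeoAux.mem_pow_mono h1 (Nat.zero_le D) (by simp)
  · obtain ⟨s, c, u1, u2⟩ := hw t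
    refine ⟨c, s, u1, ?_⟩
    have k := (mul_le_mul_of_nonneg_right u2 (Nat.cast_nonneg n0)).trans
      (fit_count h1 n1 Sg π γ c s)
    generalize card _ = a at k ⊢
    have k2 : 19 * (T * n0) * R ≤ 20 * a * R := by
      have : (19 * (T * n0) * R : ℝ) ≤ 20 * a * R := by linarith
      exact_mod_cast this
    have := Nat.le_of_mul_le_mul_right k2 hR
    nlinarith [Nat.mul_le_mul_right n0 hT]

end Pool.Agent.Lib.MP_7903c7_al.PT
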