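import Pool.Agent.Lib.MP_7903c7_al.PT.Tower
import Pool.Agent.Lib.MP_7903c7_al.PT.SysMZ
import Pool.Agent.Lib.MP_7903c7_al.RF.Lift
import Pool.Agent.Lib.MP_7903c7_al.RF.Abc2

set_option autoImplicit false

/-!
The trace of an idempotent vanishes on every class of infinite order in prime characteristic.
-/

namespace Pool.Agent.Lib.MP_7903c7_al.PT

open Finset Pool.Agent.Lib.MP_7903c7_al.RF
open scoped Classical Pointwise

/-- A cheap family of functions that covers all good loops. -/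
theorem cover {G : Type} [Group G] {p : ℕ} (hp : p.Prime) {g : G} (hg : orderOf g = 0)
    {S : Finset G} (h1 : (1 : G) ∈ S) (hS : ∀ s ∈ S, s⁻¹ ∈ S) :
    ∃ x : ℕ, 0 < x ∧ ∀ c : ℕ, 0 < c → ∃ n0 : ℕ, 0 < n0 ∧ c ∣ n0 ∧
      Sys p g S (40 * x * n0) (40 * x) (3 * x) (3 * x) Set.univ := by
  have hK : S.card ≤ 2 ^ S.card := Nat.lt_two_pow_self.le
  obtain ⟨R, Sg, T, b, gg, F, c0, L0, hR, hgg, hF, hT, hg', hb, H⟩ :=
    tower hp S.card (1 / 100) (by norm_num)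
  obtain ⟨Q, hP, hV, H1⟩ := H G g S h1 hS hK
  obtain ⟨c1, L1, H2⟩ :=
    sysMZ hp hg h1 hS hK R Sg T b gg hR hgg hT hg' (1 / 100) (by norm_num) hb Q hP hV
  obtain ⟨x, hx⟩ : ∃ x, x = c0 + c1 + L0 + L1 + 1 := ⟨_, rfl⟩
  obtain ⟨a1, H1⟩ := H1 (40 * x) (by omega)
  obtain ⟨a2, H2⟩ := H2 (40 * x) (by omega)
  refine ⟨x, by omega, fun c hc => ?_⟩
  have hn : a1 + a2 + 1 ≤ c * F * (a1 + a2 + 1) := Nat.le_mul_of_pos_left _ (Nat.mul_pos hc hF)
  obtain ⟨k1, e1, s1⟩ := H1 (c * F * (a1 + a2 + 1)) (by omega)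
    ((dvd_mul_left F c).mul_right _)
  obtain ⟨k2, e2, s2⟩ := H2 (c * F * (a1 + a2 + 1)) (by omega)
  have hk : k1 + k2 ≤ 2 * x + (c0 + c1) := by
    have : (k1 : ℝ) + k2 ≤ 2 * x + (c0 + c1) := by
      push_cast at e1 e2
      linarith
    exact_mod_cast this
  exact ⟨_, by omega, (dvd_mul_right c F).mul_right _,
    (s1.union s2).mono (by omega) (by omega) fun γ _ _ => (em _).symm⟩

theorem core {G I k : Type} [Group G] [Fintype I] [DecidableEq I] [Field k] [IsAlgClosed k]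
    {p : ℕ} (hp : p.Prime) [CharP k p] {A : Matrix I I (MonoidAlgebra k G)} (hA : A * A = A)
    {g : G} (hg : orderOf g = 0) : tau (fun h => IsConj h g) A = 0 := by
  obtain ⟨S, h1, hS, hl⟩ := lift hp hA g
  obtain ⟨x, hx, H⟩ := cover hp hg h1 hS
  obtain ⟨Λ, _, E, U, hJ, hU, hE, hfil, hfin⟩ := hl (10 * x) (by omega)
  obtain ⟨n0, hn0, ⟨c, hc⟩, ι, s, a, w, F, hs, ha, hw, hF, hcov⟩ := H _ (pow_pos hp.pos (10 * x))
  have key := abc_cover (⟨g, Subgroup.centralizer {g}, E, U,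
      Subgroup.mem_centralizer_singleton_iff.2 rfl,
      fun c hc => Subgroup.mem_centralizer_singleton_iff.1 hc, by simp, hU, hE⟩ : Dat G I Λ)
    S h1 hp hJ hfil (40 * x * n0) (40 * x) (by positivity)
    (by rw [hc]; push_cast; rw [hJ]; ring) s a w F (by omega) hw hF fun γ hγ =>
      (hcov γ hγ trivial).imp fun i hi => ⟨hi.1, fun γ' γ'' k1 k2 k3 k4 =>
        hi.2 γ' γ'' k1 k2 (k3.trans (by omega)) (k4.trans (by omega))⟩
  refine hfin (∑ i ∈ s, a i) 1 (by omega) hp.not_dvd_one ?_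
  rw [← key]
  simp [Dat.tr]

end Pool.Agent.Lib.MP_7903c7_al.PT
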