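import Pool.Agent.Lib.MP_7903c7_al.PT.Defs
import Pool.Agent.Lib.MP_7903c7_al.F.Lab
import Pool.Agent.Lib.MP_7903c7_al.F.Round

set_option autoImplicit false

/-!
The abstract count: labels chosen by a union bound leave few names near the top.
-/

namespace Pool.Agent.Lib.MP_7903c7_al.PT

open Finset Pool.Agent.Lib.MP_7903c7_al.RF
open scoped Classical Pointwise

namespace Cnt

open F

/-- Random rounding, with a level that depends on the outcome. -/
theorem round {Q I C V : Type} [Fintype Q] [Fintype I] (W : I → Type) [∀ i, Fintype (W i)]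
    [∀ i, Nonempty (W i)] (net : Finset V) (hne : net.Nonempty) (A : Q → Finset C) (f : Q → ℝ)
    (hf : ∀ q, 0 < f q) (fit : Q → V → C → ℝ) (ft : (∀ i, W i) → Q → V → C → ℝ)
    (X : Q → V → C → ∀ i, W i → ℝ) (r : I → ℝ) (b u a s : ℝ) (a' : (∀ i, W i) → ℝ)
    (h : ℕ) (Y : Q → ℝ)
    (hb : 0 < b) (hu : 0 < u) (hs : 0 < s) (hQ : Fintype.card Q ≤ 2 ^ h)
    (h0 : ∀ q, ∀ v ∈ net, ∀ c ∈ A q, ∀ i, ∑ x, X q v c i x = 0)
    (hX : ∀ q, ∀ v ∈ net, ∀ c ∈ A q, ∀ i x, |X q v c i x| ≤ r i)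
    (hr : b ^ 2 * ∑ i, r i ^ 2 ≤ 1)
    (he : ∀ w q, ∀ v ∈ net, ∀ c ∈ A q,
      |ft w q v c - fit q v c - ∑ i, X q v c i (w i)| ≤ 1 / b)
    (hbu : 16 * Real.exp (3 / 2) * net.card ≤ Real.exp (b * u)) (ha : ∀ w, a - u ≤ a' w)
    (ha' : ∀ w, a' w ≤ a)
    (htop : ∀ q, ∀ v ∈ net, sm b (f q) (A q) (fit q v) + u * Y q ≤ a)
    (hmany : s ≤ (univ.filter fun q =>
      ∃ v ∈ net, a - u ≤ sm b (f q) (A q) (fit q v) + u * Y q).card) :
    ∃ w, ∃ j ∈ Icc 1 (h + 1), ∃ n : ℝ, s * 4 ^ (j - 1) ≤ n ∧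
      n / 2 ≤ (univ.filter fun q =>
        (a' w - net.sup' hne fun v => sm b (f q) (A q) (ft w q v)) / u - (j + 1) ≤ Y q).card ∧
      ((univ.filter fun q =>
        (a' w - net.sup' hne fun v => sm b (f q) (A q) (ft w q v)) / u + 3 < Y q).card : ℝ) ≤
        n / 4 ^ (j + 1) := by
  set N : ℝ := (Fintype.card (∀ i, W i) : ℝ)
  have mom : ∀ t : ℝ, |t| = b → ∀ q, ∀ v ∈ net, ∀ c ∈ A q,
      ∑ w, Real.exp (t * (ft w q v c - fit q v c)) ≤ N * Real.exp (3 / 2) := by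
    intro t ht q v hv c hc
    have p := Round.prod_le W (X q v c) r t (h0 q v hv c hc) (hX q v hv c hc)
      (by rwa [← sq_abs t, ht])
    calc _ ≤ ∑ w : ∀ i, W i, Real.exp (t * ∑ i, X q v c i (w i)) * Real.exp 1 := by
          refine sum_le_sum fun w _ => ?_
          rw [← Real.exp_add, Real.exp_le_exp]
          have e := mul_le_mul_of_nonneg_left (he w q v hv c hc) hb.le
          rw [mul_one_div_cancel hb.ne', ← ht, ← abs_mul] at e
          linarith [le_abs_self (t * (ft w q v c - fit q v c - ∑ i, X q v c i (w i)))]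
      _ ≤ N * Real.exp (1 / 2) * Real.exp 1 := by rw [← sum_mul]; gcongr
      _ = _ := by rw [mul_assoc, ← Real.exp_add]; norm_num
  have E1 : 1 ≤ Real.exp (3 / 2) := Real.one_le_exp (by norm_num)
  have tl := fun q v hv => Round.tails (A q) (f q) b _ (hf q) hb E1 (fit q v) (fun w => ft w q v)
    (mom b (abs_of_pos hb) q v hv) (mom (-b) (by rw [abs_neg, abs_of_pos hb]) q v hv)
  have c1 : (1 : ℝ) ≤ net.card := by exact_mod_cast hne.card_pos
  have N0 : 0 ≤ N := Nat.cast_nonneg _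
  set M : Q → ℝ := fun q => net.sup' hne fun v => sm b (f q) (A q) (fit q v) with hM
  set Mt : (∀ i, W i) → Q → ℝ := fun w q => net.sup' hne fun v => sm b (f q) (A q) (ft w q v)
    with hMt
  refine (Round.select (fun q => (M q + u * Y q - a) / u)
    (fun w q => (Mt w q + u * Y q - a) / u) s h hs hQ (fun q => ?_) (hmany.trans ?_) (fun q => ?_)
    fun q i => ?_).imp fun w ⟨j, hj, n, n1, n2, n3⟩ => ?_
  rotate_right
  · refine ⟨j, hj, n, n1, n2.trans ?_, le_trans ?_ n3⟩ <;>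
      refine Nat.cast_le.2 (card_le_card fun q hq => ?_) <;>
      simp only [mem_filter, mem_univ, true_and] at hq ⊢
    · rw [le_div_iff₀ hu] at hq
      rw [sub_le_iff_le_add, div_le_iff₀ hu]
      change a' w - Mt w q ≤ _
      linarith [ha' w]
    · rw [lt_div_iff₀ hu]
      rw [← lt_sub_iff_add_lt, div_lt_iff₀ hu] at hq
      change a' w - Mt w q < _ at hq
      linarith [ha w]
  · obtain ⟨v, hv, e⟩ := exists_mem_eq_sup' hne fun v => sm b (f q) (A q) (fit q v)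
    refine div_nonpos_of_nonpos_of_nonneg ?_ hu.le
    simp only [hM, e]
    linarith [htop q v hv]
  · refine Nat.cast_le.2 (card_le_card fun q hq => ?_)
    simp only [mem_filter, mem_univ, true_and] at hq ⊢
    obtain ⟨v, hv, e⟩ := hq
    rw [le_div_iff₀ hu]
    linarith [le_sup' (fun v => sm b (f q) (A q) (fit q v)) hv]
  · obtain ⟨v, hv, e⟩ := exists_mem_eq_sup' hne fun v => sm b (f q) (A q) (fit q v)
    refine le_trans (Nat.cast_le.2 (card_le_card fun w hw => ?_)) ((tl q v hv u).2.trans ?_)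
    · simp only [mem_filter, mem_univ, true_and] at hw ⊢
      rw [div_sub' hu.ne', div_lt_div_iff_of_pos_right hu] at hw
      simp only [hM, e] at hw
      linarith [le_sup' (fun v => sm b (f q) (A q) (ft w q v)) hv]
    · rw [div_le_div_iff₀ (by positivity) (by positivity)]
      have : Real.exp (3 / 2) * 16 ≤ Real.exp (b * u) := by nlinarith
      change N * _ * 16 ≤ N * _
      rw [mul_assoc]
      gcongr
  · have sub : (univ.filter fun w => (M q + u * Y q - a) / u + (i + 2) <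
        (Mt w q + u * Y q - a) / u) ⊆ net.biUnion fun v => univ.filter fun w =>
          sm b (f q) (A q) (fit q v) + (i + 2) * u < sm b (f q) (A q) (ft w q v) := by
      intro w hw
      obtain ⟨v, hv, e⟩ := exists_mem_eq_sup' hne fun v => sm b (f q) (A q) (ft w q v)
      simp only [mem_filter, mem_univ, true_and, mem_biUnion] at hw ⊢
      rw [div_add' _ _ _ hu.ne', div_lt_div_iff_of_pos_right hu] at hw
      simp only [hMt, e] at hw
      exact ⟨v, hv, by linarith [le_sup' (fun v => sm b (f q) (A q) (fit q v)) hv]⟩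
    refine (Nat.cast_le.2 ((card_le_card sub).trans card_biUnion_le)).trans ?_
    rw [Nat.cast_sum]
    refine (sum_le_sum fun v hv => (tl q v hv _).1).trans ?_
    rw [sum_const, nsmul_eq_mul, ← mul_div_assoc, div_le_div_iff₀ (by positivity) (by positivity)]
    have e : Real.exp (b * ((i + 2) * u)) = Real.exp (b * u) ^ (i + 2) := by
      rw [← Real.exp_nat_mul]
      congr 1
      push_cast
      ring
    have k1 : 1 ≤ Real.exp (3 / 2) * net.card := one_le_mul_of_one_le_of_one_le E1 c1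
    have k2 : 16 ^ (i + 2) * (Real.exp (3 / 2) * net.card) ≤ Real.exp (b * u) ^ (i + 2) := by
      calc _ ≤ 16 ^ (i + 2) * (Real.exp (3 / 2) * net.card) ^ (i + 2) := by
            gcongr
            exact le_self_pow₀ k1 (by omega)
        _ = (16 * Real.exp (3 / 2) * net.card) ^ (i + 2) := by rw [← mul_pow, mul_assoc]
        _ ≤ _ := by gcongr
    rw [e]
    change _ * (N * _) * _ ≤ N * _
    nlinarith [mul_le_mul_of_nonneg_left k2 N0]

end Cnt

theorem count_abs {V C D : Type} (l : Lev) (hC : NumC l) (hβ : 0 < l.β) (Q : Finset V)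
    (hQ : Q.card ≤ 2 ^ l.h) (𝒟 : Finset D) (s : D → ℝ) (A : D → V → Finset C)
    (fe : D → V → C → ℕ → ℝ) (lv : D → ℝ) (f0 : ℝ) (hf0 : 0 < f0) (nt : ℕ) (hnt : nt ≤ l.nt)
    (hs : ∑ d ∈ 𝒟, 3 * (l.h + 1 : ℝ) / (1 + l.z / 128 : ℝ) ^ (s d / 4) < 1) :
    ∃ δ : V → ℝ, (∀ v, 0 ≤ δ v ∧ δ v ≤ l.u * l.Y) ∧
      ∀ (ι : Type) [Fintype ι] (W : ι → Type) [∀ i, Fintype (W i)] [∀ i, Nonempty (W i)]
        (A0 : V → Finset C) (f : V → C → ℕ → ℝ) (X : V → C → ℕ → ∀ i, W i → ℝ) (r : ι → ℝ)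
        (Dm : (∀ i, W i) → D) (a s0 : ℝ), 0 < s0 →
        (∀ q ∈ Q, ∀ c ∈ A0 q, ∀ σ < nt, ∀ i, ∑ y, X q c σ i y = 0 ∧ ∀ y, |X q c σ i y| ≤ r i) →
        l.β ^ 2 * ∑ i, r i ^ 2 ≤ 1 →
        (∀ ω, Dm ω ∈ 𝒟 ∧ s (Dm ω) = s0 ∧ a - l.u ≤ lv (Dm ω) ∧ lv (Dm ω) ≤ a ∧
          ∀ q ∈ Q, A (Dm ω) q = A0 q ∧ ∀ c ∈ A0 q, ∀ σ < nt,
            |fe (Dm ω) q c σ - f q c σ - ∑ i, X q c σ i (ω i)| ≤ 1 / l.β) →
        (∀ q ∈ Q, ∀ σ < nt, lse l.β f0 (A0 q) (fun c => f q c σ) + δ q ≤ a) →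
        ((Q.filter fun q => ∃ σ < nt,
          a - l.u ≤ lse l.β f0 (A0 q) (fun c => f q c σ) + δ q).card : ℝ) < s0 := by
  have hu := hC.hu
  rcases Nat.eq_zero_or_pos nt with rfl | hn0
  · refine ⟨fun _ => 0, fun v => ⟨le_rfl, by positivity⟩, ?_⟩
    intro ι _ W _ _ A0 f X r Dm a s0 hs0 _ _ _ _
    simpa using hs0
  have hne : (range nt).Nonempty := nonempty_range_iff.2 hn0.ne'
  have hQ' : Fintype.card Q ≤ 2 ^ l.h := by rwa [Fintype.card_coe]
  obtain ⟨Y, hY, hlab⟩ := F.labels Q D l.h l.z (le_trans (by norm_num) hC.hz) hC.hz' hQ' 𝒟 s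
    (fun d q => (lv d - (range nt).sup' hne fun σ =>
      F.sm l.β f0 (A d q.1) fun c => fe d q.1 c σ) / l.u) hs
  refine ⟨fun v => if h : v ∈ Q then l.u * Y ⟨v, h⟩ else 0, fun v => ?_, ?_⟩
  · dsimp only
    split_ifs with h
    · exact ⟨by positivity,
        mul_le_mul_of_nonneg_left (Nat.cast_le.2 ((hY _).trans hC.hY)) hu.le⟩
    · exact ⟨le_rfl, by positivity⟩
  intro ι _ W _ _ A0 f X r Dm a s0 hs0 hX hr hD htop
  by_contra con
  rw [not_lt] at con
  have hbu : 16 * Real.exp (3 / 2) * (range nt).card ≤ Real.exp (l.β * l.u) := by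
    have n1 : (nt : ℝ) ≤ l.nt := Nat.cast_le.2 hnt
    have n0 : (0 : ℝ) < l.nt := Nat.cast_pos.2 hC.hnt
    have e1 : 80 * (l.nt : ℝ) ≤ Real.exp (l.β * l.u) :=
      (Real.log_le_iff_le_exp (by positivity)).1 hC.hβu
    have e2 : Real.exp (3 / 2) ≤ 5 := by
      have e3 : Real.exp (3 / 2) * Real.exp (3 / 2) = Real.exp 1 * Real.exp 1 * Real.exp 1 := by
        rw [← Real.exp_add, ← Real.exp_add, ← Real.exp_add]
        norm_num
      have e4 := Real.exp_one_lt_d9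
      have e5 := Real.exp_pos 1
      have e6 : Real.exp 1 * Real.exp 1 * Real.exp 1 ≤ 2.72 * 2.72 * 2.72 := by
        gcongr <;> linarith
      by_contra e7
      rw [not_le] at e7
      nlinarith
    rw [card_range]
    have e8 : (0 : ℝ) ≤ nt := Nat.cast_nonneg _
    nlinarith
  obtain ⟨w, j, hj, n, n1, n2, n3⟩ := Cnt.round (Q := Q) W (range nt) hne (fun q => A0 q.1)
    (fun _ => f0) (fun _ => hf0) (fun q σ c => f q.1 c σ) (fun w q σ c => fe (Dm w) q.1 c σ)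
    (fun q σ c => X q.1 c σ) r l.β l.u a s0 (fun w => lv (Dm w)) l.h (fun q => (Y q : ℝ)) hβ hu hs0
    hQ' (fun q σ hσ c hc i => (hX q.1 q.2 c hc σ (mem_range.1 hσ) i).1)
    (fun q σ hσ c hc i => (hX q.1 q.2 c hc σ (mem_range.1 hσ) i).2) hr
    (fun w q σ hσ c hc => ((hD w).2.2.2.2 q.1 q.2).2 c hc σ (mem_range.1 hσ)) hbu
    (fun w => (hD w).2.2.1) (fun w => (hD w).2.2.2.1)
    (fun q σ hσ => by
      have := htop q.1 q.2 σ (mem_range.1 hσ)
      simp only [dif_pos q.2] at this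
      exact this)
    (con.trans (Nat.cast_le.2 (by
      refine card_le_card_of_surjOn (fun q : Q => q.1) fun q hq => ?_
      obtain ⟨h1, σ, hσ, h2⟩ := mem_filter.1 (mem_coe.1 hq)
      simp only [dif_pos h1] at h2
      exact ⟨⟨q, h1⟩, mem_coe.2 (mem_filter.2 ⟨mem_univ _, σ, mem_range.2 hσ, h2⟩), rfl⟩)))
  obtain ⟨d1, d2, -, -, d3⟩ := hD w
  have key := hlab (Dm w) d1 j hj n (by rwa [d2])
  have eA : ∀ q : Q, A (Dm w) q.1 = A0 q.1 := fun q => (d3 q.1 q.2).1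
  simp only [eA] at key
  exact (key n2).not_ge n3

theorem lse_lip {C : Type} {β f0 e : ℝ} (hβ : 0 < β) (hf0 : 0 < f0) (he : 0 ≤ e) (A : Finset C)
    {f f' : C → ℝ} (h : ∀ c ∈ A, f c ≤ f' c + e) : lse β f0 A f ≤ lse β f0 A f' + e := by
  have p : ∀ x : C → ℝ, 0 < f0 + ∑ c ∈ A, Real.exp (β * x c) := fun x =>
    add_pos_of_pos_of_nonneg hf0 (sum_nonneg fun c _ => (Real.exp_pos _).le)
  have e1 : 1 ≤ Real.exp (β * e) := Real.one_le_exp (by positivity)
  unfold lse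
  rw [div_add' _ _ _ hβ.ne', div_le_div_iff_of_pos_right hβ, mul_comm e,
    Real.log_le_iff_le_exp (p f), Real.exp_add, Real.exp_log (p f'), add_mul, sum_mul]
  refine add_le_add (le_mul_of_one_le_right hf0.le e1) (sum_le_sum fun c hc => ?_)
  rw [← Real.exp_add, Real.exp_le_exp, ← mul_add]
  exact mul_le_mul_of_nonneg_left (h c hc) hβ.le

end Pool.Agent.Lib.MP_7903c7_al.PT
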