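import Pool.Agent.Lib.MP_7903c7_al.RF.Defs

set_option autoImplicit false

/-!
Definitions for the pattern tower: covers of the loop space for an arbitrary group.
-/

namespace Pool.Agent.Lib.MP_7903c7_al.PT

open Finset Pool.Agent.Lib.MP_7903c7_al.RF
open scoped Classical Pointwise

section group

variable {G : Type} [Group G]

/-- Truncated closeness to the identity: `R` minus the word length, cut at zero. -/
noncomputable def ph (S : Finset G) (R : ℕ) (y : G) : ℝ :=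
  (((range R).filter fun r => y ∈ (S : Set G) ^ r).card : ℝ)

/-- The fit of the translate by `c` of a pattern with a path, started at time `σ`. -/
noncomputable def fit (S : Finset G) (R n0 Sg : ℕ) (π : ℕ → Option G) (γ : ℤ → G) (c : G)
    (σ : ℤ) : ℝ :=
  (∑ x ∈ range Sg, ∑ u ∈ range n0,
    (π x).elim 0 fun v => ph S R ((γ (σ + x * n0 + u))⁻¹ * c * v)) / n0

/-- A pattern of span `Sg` with `T` defined cells and at most `b` breaks. -/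
structure Pat (Sg T b : ℕ) (π : ℕ → Option G) : Prop where
  cnt : ((range Sg).filter fun x => π x ≠ none).card = T
  brk : ∀ (f : ℕ → G → ℝ) (R : ℝ), (∀ x v, 0 ≤ f x v ∧ f x v ≤ R) →
    |∑ x ∈ range Sg, ((π x).elim 0 (f (x + 1)) - (π x).elim 0 (f x))| ≤ b * R

/-- The possible relative positions of two patterns that see a common point. -/
noncomputable def junc (S : Finset G) (R Sg : ℕ) (π π' : ℕ → Option G) : Finset G :=
  ((range Sg ×ˢ range Sg) ×ˢ (S ^ (2 * R))).image fun p =>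
    (π p.1.1).getD 1 * p.2 * ((π' p.1.2).getD 1)⁻¹

/-- The sum over all translates. -/
noncomputable def zz (S : Finset G) (R n0 Sg : ℕ) (β : ℝ) (π : ℕ → Option G) (γ : ℤ → G)
    (σ : ℤ) : ℝ :=
  1 + ∑ᶠ c : G, (Real.exp (β * fit S R n0 Sg π γ c σ) - 1)

/-- The score of a pattern: the soft maximum of the fits of its translates. -/
noncomputable def sc (S : Finset G) (R n0 Sg : ℕ) (β : ℝ) (π : ℕ → Option G) (γ : ℤ → G)
    (σ : ℤ) : ℝ :=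
  Real.log (zz S R n0 Sg β π γ σ) / β

/-- The top labelled score of a finite family of patterns. -/
noncomputable def tp (S : Finset G) (R n0 Sg : ℕ) (β : ℝ) (Q : Finset (ℕ → Option G))
    (δ : (ℕ → Option G) → ℝ) (γ : ℤ → G) : ℝ :=
  top (fun q : Q => sc S R n0 Sg β q.1 γ) fun q => δ q.1

/-- The number of patterns that come within `ρ` of the level `a` in a block of `gg` steps. -/
noncomputable def cnt (S : Finset G) (R n0 Sg : ℕ) (β : ℝ) (Q : Finset (ℕ → Option G))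
    (δ : (ℕ → Option G) → ℝ) (γ : ℤ → G) (gg : ℕ) (ρ a : ℝ) (t0 : ℤ) : ℕ :=
  (Q.filter fun π => ∃ σ ∈ Ico t0 (t0 + gg * n0), a - ρ < sc S R n0 Sg β π γ σ + δ π).card

/-- A pattern fits with value at least `x` within `gg` steps of every time. -/
def Wrap (S : Finset G) (R n0 Sg gg : ℕ) (π : ℕ → Option G) (γ : ℤ → G) (x : ℝ) : Prop :=
  ∀ σ : ℤ, ∃ (σ' : ℤ) (c : G), |σ' - σ| ≤ gg * n0 ∧ x ≤ fit S R n0 Sg π γ c σ'

/-- The element `b` moves the point at time `t` close to the path at a nearby time. -/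
noncomputable def psi (S : Finset G) (R2 n0 D0 : ℕ) (γ : ℤ → G) (b : G) (t : ℤ) : ℝ :=
  min 1 ((∑ d ∈ Icc (-(D0 * n0 : ℤ)) (D0 * n0), ph S R2 ((γ (t + d))⁻¹ * b * γ t)) / n0)

/-- The average of `psi` over a window of `Sg` steps. -/
noncomputable def gb (S : Finset G) (R2 n0 D0 Sg : ℕ) (γ : ℤ → G) (b : G) (σ : ℤ) : ℝ :=
  (∑ t ∈ Ico σ (σ + Sg * n0), psi S R2 n0 D0 γ b t) / n0

/-- The time `t` is slow. -/
def Slow (n0 Sg lam : ℕ) (ℓ : ℤ → ℕ) (t : ℤ) : Prop :=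
  ∑ u ∈ Ico (t - 2 * (Sg * n0)) (t + 2 * (Sg * n0)), ℓ u ≤ lam

/-- A finite set normalised by `g` that generates a group containing `g`, and a finite union
of orbits of that group. -/
structure Adm (g : G) (K3 : ℕ) (A : Finset G) (X : Set G) : Prop where
  conj : ∀ a ∈ A, g * a * g⁻¹ ∈ A
  mem : g ∈ Subgroup.closure (A : Set G)
  ne : X.Nonempty
  inv : ∀ h ∈ Subgroup.closure (A : Set G), ∀ x ∈ X, h * x ∈ X
  fin : ∃ Z : Finset G, Z.card ≤ K3 ∧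
    ∀ x ∈ X, ∃ h ∈ Subgroup.closure (A : Set G), ∃ z ∈ Z, x = h * z

/-- The points that are moved little by `A` and lie close to `X`. -/
def dom (S : Finset G) (r3 R3 : ℕ) (A : Finset G) (X : Set G) : Set G :=
  {y | (∀ a ∈ A, y⁻¹ * a * y ∈ (S : Set G) ^ r3) ∧ ∃ s ∈ (S : Set G) ^ R3, y * s ∈ X}

/-- A family of at most `k` equivariant functions, with total exponent at most `α`, one of
which is fine at each good loop of the set `U`. -/
def Sys (p : ℕ) (g : G) (S : Finset G) (N L k α : ℕ) (U : Set (ℤ → G)) : Prop :=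
  ∃ (ι : Type) (s : Finset ι) (a : ι → ℕ) (w : ι → (ℤ → G) → ℤ) (F : ι → (ℤ → G) → ℂ),
    s.card ≤ k ∧ ∑ i ∈ s, a i ≤ α ∧ (∀ i ∈ s, ∀ γ, ¬ (p : ℤ) ^ (a i + 1) ∣ w i γ) ∧
      (∀ i ∈ s, Equi g (Subgroup.centralizer {g}) N (w i) (F i)) ∧
      ∀ γ, Good g S N L γ → γ ∈ U → ∃ i ∈ s, Fine g S N L L (w i) (F i) γ

end group

/-- Fourier coefficients of weights placed at exit times. -/
noncomputable def nuE {K : Type} (N N' : ℕ) (a0 : ℝ) (u E : K → ℤ → ℝ) (m : ℤ) : ℂ :=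
  ∑ᶠ κ, ∑ σ ∈ range N, (u κ σ : ℂ) * ee (m * tauf N' a0 (E κ) σ / N)

/-- A soft maximum over a finite family, with a floor. -/
noncomputable def lse {C : Type} (β f0 : ℝ) (A : Finset C) (f : C → ℝ) : ℝ :=
  Real.log (f0 + ∑ c ∈ A, Real.exp (β * f c)) / β

/-- The numbers attached to a level. -/
structure Lev where
  Sg : ℕ
  T : ℕ
  b : ℕ
  h : ℕ
  gg : ℕ
  q : ℕ
  F : ℕ
  nt : ℕ
  z : ℕ
  Y : ℕ
  β : ℝ
  u : ℝ
  ρ : ℝ
  θ : ℝ
  Φ : ℝ

/-- The loss of fit of a wrapping pattern. -/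
noncomputable def Lev.loss (l : Lev) (k0 R : ℕ) : ℝ :=
  l.u * l.Y + 3 * l.ρ + Real.log (6 * 2 ^ (k0 * R)) / l.β

/-- Inequalities that hold at every level. -/
structure NumW (k0 R : ℕ) (l : Lev) : Prop where
  hR : 0 < R
  hβ : 0 < l.β
  hu : 0 ≤ l.u
  hρ : 0 < l.ρ
  hg : 0 < l.gg
  hT : 9 * l.Sg ≤ 10 * l.T
  hT' : l.T ≤ l.Sg
  hg' : 30 * l.gg ≤ l.Sg
  hΦ : l.Φ ≤ R / 30
  hl : l.loss k0 R ≤ R * l.T / 100

/-- Inequalities between consecutive levels. -/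
structure NumS (k0 R n : ℕ) (l l' : Lev) : Prop where
  hn : 0 < n
  hSg : l'.Sg = n * (l.Sg + 2 * l.gg)
  hT : l'.T = n * l.T
  hb : l'.b = n * l.b
  hh : 2 ^ l.h * (l.Sg ^ 4 * 2 ^ (4 * k0 * R) * (2 * l.gg + 1)) ^ n ≤ 2 ^ l'.h
  hΦ : l.Φ * l.T + l.loss k0 R + l.b * R ≤ l'.Φ * l.T

/-- Inequalities for the labels. -/
structure NumC (l : Lev) : Prop where
  hu : 0 < l.u
  hz : 128 ≤ l.z
  hz' : l.z ≤ 2 ^ l.h
  hY : 4 * l.z * l.h ≤ l.Y
  hnt : 0 < l.nt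
  hβu : Real.log (80 * l.nt) ≤ l.β * l.u
  hρu : l.ρ + 2 / l.β ≤ l.u
  hq : 0 < l.q
  hF : 0 < l.F

/-- Inequalities for the count with full entropy. -/
structure NumF (k0 R : ℕ) (l : Lev) : Prop where
  hθ : 1 ≤ l.θ * (l.Sg + l.gg)
  hV : l.β ^ 2 * (16 * l.q * (l.Sg + l.gg)) ≤ 1
  hF : l.β * ((l.Sg + l.gg) / l.F + 1) ≤ 1
  hq : l.q * (l.F + 1) ≤ 2 ^ l.q
  hq' : l.q ≤ l.Sg
  hnt : 2 * l.β * l.Sg * R * l.gg ≤ l.nt
  hfl : Real.log (2 * (2 * 2 ^ (k0 * R) + 1 + 2 * l.Sg * (2 ^ l.h / l.θ + 1) * 2 ^ (k0 * R))) /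
    l.β + l.u * l.Y ≤ 2 * R * l.T / 5
  hgr : 3 * R * l.T / l.u + 2 ≤ 2 ^ l.Sg
  hh : 3 * (l.h + 1) ≤ 2 ^ l.Sg
  hgain : (2 : ℝ) ^ (k0 + 10) ≤ (1 + l.z / 128 : ℝ) ^ (l.θ / 4)

/-- Inequalities for the count with low entropy: `ns` strata of `q` steps, `nr` references,
bound `s`. -/
structure NumL (k0 R ns nr s : ℕ) (l : Lev) : Prop where
  hns : l.Sg + l.gg ≤ ns * l.q
  hV : l.β ^ 2 * (ns * (l.q * R) ^ 2) ≤ 1
  hF : l.β * l.Sg * R ≤ l.F
  hnt : l.gg * l.F + 1 ≤ l.nt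
  hnr : l.β * l.q * R * ns ≤ nr
  hfl : Real.log (2 * (2 * 2 ^ (k0 * R) + 1 + 2 * l.Sg ^ 2 * 2 ^ (2 * k0 * R))) / l.β +
    l.u * l.Y ≤ 2 * R * l.T / 5
  hz : 1920 ≤ l.z
  hs : (2 ^ l.h * (2 ^ l.h * l.Sg ^ 2 * 2 ^ (2 * k0 * R)) ^ nr *
    (l.q * l.F * (nr * l.Sg * 2 ^ (k0 * R) + 1)) ^ ns * (3 * (l.h + 1)) : ℝ) *
      (3 * R * l.T / l.u + 2) < 2 ^ s

end Pool.Agent.Lib.MP_7903c7_al.PT
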