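import Pool.Agent.Lib.MP_7903c7_al.PT.Defs
import Pool.Agent.Lib.MP_7903c7_al.RF.Win

set_option autoImplicit false

/-!
Basic properties of the truncated closeness and of the fit of a pattern.
-/

namespace Pool.Agent.Lib.MP_7903c7_al.PT

open Finset Pool.Agent.Lib.MP_7903c7_al.RF
open scoped Classical Pointwise

variable {G : Type} [Group G]

theorem ph_nonneg (S : Finset G) (R : ℕ) (y : G) : 0 ≤ ph S R y := Nat.cast_nonneg _

theorem ph_le (S : Finset G) (R : ℕ) (y : G) : ph S R y ≤ R := by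
  have := card_filter_le (range R) fun r => y ∈ (S : Set G) ^ r
  rw [card_range] at this
  unfold ph
  exact_mod_cast this

theorem ph_mem {S : Finset G} (h1 : (1 : G) ∈ S) {R : ℕ} {y : G} (h : ph S R y ≠ 0) :
    y ∈ (S : Set G) ^ R := by
  unfold ph at h
  obtain ⟨r, hr⟩ := card_ne_zero.1 (Nat.cast_ne_zero.1 h)
  rw [mem_filter, mem_range] at hr
  exact Set.pow_subset_pow_right (by exact_mod_cast h1) hr.1.le hr.2

theorem le_ph {S : Finset G} (h1 : (1 : G) ∈ S) (R : ℕ) {r : ℕ} {y : G}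
    (h : y ∈ (S : Set G) ^ r) : (R : ℝ) - r ≤ ph S R y := by
  have h2 : Ico r R ⊆ (range R).filter fun r => y ∈ (S : Set G) ^ r := fun k hk => by
    rw [mem_Ico] at hk
    exact mem_filter.2 ⟨mem_range.2 hk.2, Set.pow_subset_pow_right (by exact_mod_cast h1) hk.1 h⟩
  have h3 := card_le_card h2
  rw [Nat.card_Ico] at h3
  have h4 : R ≤ ((range R).filter fun r => y ∈ (S : Set G) ^ r).card + r := by omega
  unfold ph
  have h5 : (R : ℝ) ≤ (((range R).filter fun r => y ∈ (S : Set G) ^ r).card : ℝ) + r := by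
    exact_mod_cast h4
  linarith

namespace Fit

theorem ph_step {S : Finset G} (R : ℕ) (y : G) {s : G} (hs : s ∈ S) :
    ph S R y ≤ ph S R (s * y) + 1 := by
  have h2 : ((range R).filter fun r => y ∈ (S : Set G) ^ r).image (· + 1) ⊆
      insert R ((range R).filter fun r => s * y ∈ (S : Set G) ^ r) := fun k hk => by
    obtain ⟨r, hr, rfl⟩ := mem_image.1 hk
    rw [mem_filter, mem_range] at hr
    rcases (Nat.succ_le_of_lt hr.1).eq_or_lt with e | e
    · exact mem_insert.2 (Or.inl e)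
    · refine mem_insert_of_mem (mem_filter.2 ⟨mem_range.2 e, ?_⟩)
      rw [pow_succ']
      exact Set.mul_mem_mul (by exact_mod_cast hs) hr.2
  have h3 := (card_le_card h2).trans (card_insert_le _ _)
  rw [card_image_of_injective _ (add_left_injective 1)] at h3
  unfold ph
  exact_mod_cast h3

theorem inv_mem {S : Finset G} (hS : ∀ s ∈ S, s⁻¹ ∈ S) {k : ℕ} {y : G}
    (h : y ∈ (S : Set G) ^ k) : y⁻¹ ∈ (S : Set G) ^ k := by
  have e : (S : Set G)⁻¹ = S := by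
    ext s
    rw [Set.mem_inv]
    exact ⟨fun h => by simpa using hS _ h, fun h => hS _ h⟩
  rw [← e, inv_pow, Set.mem_inv, inv_inv]
  exact h

omit [Group G] in
theorem el_nonneg (o : Option G) {f : G → ℝ} (h : ∀ v, 0 ≤ f v) : 0 ≤ o.elim 0 f := by
  cases o
  · exact le_rfl
  · exact h _

omit [Group G] in
theorem el_le (o : Option G) {f : G → ℝ} {R : ℝ} (h : ∀ v, f v ≤ R) :
    o.elim 0 f ≤ if o ≠ none then R else 0 := by
  cases o
  · simp
  · simpa using h _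

theorem lip {F : ℤ → ℝ} {a : ℝ} (h : ∀ t, |F (t + 1) - F t| ≤ a) (σ σ' : ℤ) :
    |F σ' - F σ| ≤ a * |((σ' - σ : ℤ) : ℝ)| := by
  have k : ∀ (t : ℤ) (n : ℕ), |F (t + n) - F t| ≤ a * n := fun t n => by
    induction n with
    | zero => simp
    | succ n ih =>
      have h1 := h (t + n)
      have h2 := abs_sub_le (F (t + n + 1)) (F (t + n)) (F t)
      push_cast
      rw [← add_assoc]
      linarith
  rcases le_total σ σ' with e | e
  · obtain ⟨n, rfl⟩ := Int.le.dest e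
    simpa using k σ n
  · obtain ⟨n, rfl⟩ := Int.le.dest e
    rw [abs_sub_comm]
    simpa using k σ' n

theorem fit_lip0 (S : Finset G) (R n0 : ℕ) {Sg b : ℕ} {π : ℕ → Option G}
    (hb : ∀ (f : ℕ → G → ℝ) (R : ℝ), (∀ x v, 0 ≤ f x v ∧ f x v ≤ R) →
      |∑ x ∈ range Sg, ((π x).elim 0 (f (x + 1)) - (π x).elim 0 (f x))| ≤ b * R)
    (γ : ℤ → G) (c : G) (σ σ' : ℤ) :
    |fit S R n0 Sg π γ c σ' - fit S R n0 Sg π γ c σ| ≤ b * R * |((σ' - σ : ℤ) : ℝ)| / n0 := by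
  rw [mul_div_right_comm]
  refine lip (F := fit S R n0 Sg π γ c) (fun t => ?_) σ σ'
  unfold fit
  rw [← sub_div, abs_div, Nat.abs_cast, ← sum_sub_distrib]
  refine div_le_div_of_nonneg_right ?_ (Nat.cast_nonneg _)
  refine le_trans (le_of_eq ?_) (hb (fun x v => ph S R ((γ (t + x * n0))⁻¹ * c * v)) R
    fun x v => ⟨ph_nonneg _ _ _, ph_le _ _ _⟩)
  congr 1
  refine sum_congr rfl fun x _ => ?_
  have := sum_range_sub
    (fun u : ℕ => (π x).elim 0 fun v => ph S R ((γ (t + x * n0 + u))⁻¹ * c * v)) n0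
  rw [sum_sub_distrib] at this
  have e1 : ∀ u : ℕ, t + 1 + x * n0 + u = t + x * n0 + (u + 1 : ℕ) := fun u => by
    push_cast; ring
  have e2 : t + (x + 1 : ℕ) * (n0 : ℤ) = t + x * n0 + n0 := by push_cast; ring
  simp only [e1, e2]
  rw [this]
  simp

omit [Group G] in
theorem sum_le {Sg T b n0 : ℕ} {π : ℕ → Option G} (hP : Pat Sg T b π) {a : ℕ → ℕ → ℝ} {B : ℝ}
    (hB : 0 ≤ B) (h : ∀ x u, a x u ≤ if π x ≠ none then B else 0) :
    (∑ x ∈ range Sg, ∑ u ∈ range n0, a x u) / n0 ≤ T * B := by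
  rcases Nat.eq_zero_or_pos n0 with rfl | hn
  · simp only [Nat.cast_zero, div_zero]
    positivity
  rw [div_le_iff₀ (by exact_mod_cast hn)]
  refine (sum_le_sum fun x _ => sum_le_sum fun u _ => h x u).trans (le_of_eq ?_)
  simp only [sum_const, card_range, nsmul_eq_mul]
  rw [← mul_sum, ← sum_filter, sum_const, hP.cnt, nsmul_eq_mul]
  ring

end Fit

open Fit

theorem ph_lip {S : Finset G} (h1 : (1 : G) ∈ S) (hS : ∀ s ∈ S, s⁻¹ ∈ S) (R : ℕ) (y : G) {s : G}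
    (hs : s ∈ S) : |ph S R (s * y) - ph S R y| ≤ 1 := by
  have _ := h1
  have h2 := ph_step R y hs
  have h3 := ph_step R (s * y) (hS s hs)
  rw [inv_mul_cancel_left] at h3
  exact abs_le.2 ⟨by linarith, by linarith⟩

theorem sum_ph {S : Finset G} (h1 : (1 : G) ∈ S) (R : ℕ) (A : Finset G) (e : G → G)
    (he : Function.Injective e) : ∑ c ∈ A, ph S R (e c) ≤ R * (S.card : ℝ) ^ R := by
  rw [← sum_filter_ne_zero]
  refine (sum_le_card_nsmul _ _ (R : ℝ) fun c _ => ph_le _ _ _).trans ?_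
  have h2 : (A.filter fun c => ph S R (e c) ≠ 0).card ≤ S.card ^ R := by
    refine le_trans (card_le_card_of_injOn e (fun c hc => ?_) he.injOn) (card_pow_le (s := S))
    have := ph_mem h1 (mem_filter.1 (mem_coe.1 hc)).2
    rwa [← coe_pow] at this
  rw [nsmul_eq_mul, mul_comm]
  exact mul_le_mul_of_nonneg_left (by exact_mod_cast h2) (Nat.cast_nonneg _)

theorem fit_nonneg (S : Finset G) (R n0 Sg : ℕ) (π : ℕ → Option G) (γ : ℤ → G) (c : G) (σ : ℤ) :
    0 ≤ fit S R n0 Sg π γ c σ :=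
  div_nonneg (sum_nonneg fun _ _ => sum_nonneg fun _ _ => el_nonneg _ fun _ => ph_nonneg _ _ _)
    (Nat.cast_nonneg _)

theorem fit_le (S : Finset G) (R n0 : ℕ) {Sg T b : ℕ} {π : ℕ → Option G} (hP : Pat Sg T b π)
    (γ : ℤ → G) (c : G) (σ : ℤ) : fit S R n0 Sg π γ c σ ≤ R * T := by
  rw [mul_comm]
  exact sum_le hP (Nat.cast_nonneg _) fun x u => el_le _ fun _ => ph_le _ _ _

theorem fit_le' (S : Finset G) (R n0 Sg : ℕ) (π : ℕ → Option G) (γ : ℤ → G) (c : G) (σ : ℤ) :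
    fit S R n0 Sg π γ c σ ≤ R * Sg := by
  unfold fit
  rcases Nat.eq_zero_or_pos n0 with rfl | hn
  · simp only [Nat.cast_zero, div_zero]
    positivity
  rw [div_le_iff₀ (by exact_mod_cast hn)]
  refine (sum_le_sum fun x _ => sum_le_sum fun u _ => (el_le _ fun _ => ph_le S R _).trans
    (show _ ≤ (R : ℝ) by split_ifs <;> simp)).trans (le_of_eq ?_)
  simp only [sum_const, card_range, nsmul_eq_mul]
  ring

theorem fit_mul (S : Finset G) (R n0 Sg : ℕ) (π : ℕ → Option G) (γ : ℤ → G) (a c : G) (σ : ℤ) :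
    fit S R n0 Sg π (fun t => a * γ t) (a * c) σ = fit S R n0 Sg π γ c σ := by
  simp only [fit, mul_inv_rev, mul_assoc, inv_mul_cancel_left]

theorem fit_shift (S : Finset G) (R n0 Sg : ℕ) (π : ℕ → Option G) (γ : ℤ → G) (c : G)
    (σ k : ℤ) : fit S R n0 Sg π (fun t => γ (t + k)) c σ = fit S R n0 Sg π γ c (σ + k) := by
  have e : ∀ x u : ℕ, σ + x * n0 + u + k = σ + k + x * n0 + u := fun x u => by ring
  simp only [fit, e]

theorem fit_lip (S : Finset G) (R n0 : ℕ) {Sg T b : ℕ} {π : ℕ → Option G} (hP : Pat Sg T b π)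
    (γ : ℤ → G) (c : G) (σ σ' : ℤ) :
    |fit S R n0 Sg π γ c σ' - fit S R n0 Sg π γ c σ| ≤ b * R * |((σ' - σ : ℤ) : ℝ)| / n0 :=
  fit_lip0 S R n0 hP.brk γ c σ σ'

theorem fit_lip' (S : Finset G) (R n0 Sg : ℕ) (π : ℕ → Option G) (γ : ℤ → G) (c : G)
    (σ σ' : ℤ) :
    |fit S R n0 Sg π γ c σ' - fit S R n0 Sg π γ c σ| ≤ Sg * R * |((σ' - σ : ℤ) : ℝ)| / n0 := by
  refine fit_lip0 S R n0 (fun f B hf => ?_) γ c σ σ'
  refine (abs_sum_le_sum_abs _ _).trans ((sum_le_card_nsmul _ _ B fun x _ => ?_).trans ?_)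
  · cases π x with
    | none => simpa using (hf 0 1).1.trans (hf 0 1).2
    | some v =>
      have h2 := hf (x + 1) v
      have h3 := hf x v
      exact abs_le.2 ⟨by simp only [Option.elim]; linarith, by simp only [Option.elim]; linarith⟩
  · rw [card_range, nsmul_eq_mul]

theorem fit_mem {S : Finset G} (h1 : (1 : G) ∈ S) {R n0 Sg : ℕ} {π : ℕ → Option G} {γ : ℤ → G}
    {c : G} {σ : ℤ} (h : fit S R n0 Sg π γ c σ ≠ 0) :
    ∃ x < Sg, ∃ t ∈ Ico σ (σ + Sg * n0), ∃ s ∈ (S : Set G) ^ R,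
      c = γ t * s * ((π x).getD 1)⁻¹ := by
  obtain ⟨x, hx, h2⟩ := exists_ne_zero_of_sum_ne_zero (div_ne_zero_iff.1 h).1
  obtain ⟨u, hu, h3⟩ := exists_ne_zero_of_sum_ne_zero h2
  rw [mem_range] at hx hu
  cases e : π x with
  | none => simp [e] at h3
  | some v =>
    rw [e] at h3
    refine ⟨x, hx, σ + x * n0 + u, mem_Ico.2 ⟨by nlinarith, ?_⟩, _, ph_mem h1 h3, ?_⟩
    · have h4 : (x : ℤ) + 1 ≤ Sg := by exact_mod_cast hx
      have h5 : (u : ℤ) < n0 := by exact_mod_cast hu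
      nlinarith
    · rw [e]
      simp [mul_assoc]

theorem fit_finite {S : Finset G} (h1 : (1 : G) ∈ S) (R n0 Sg : ℕ) (π : ℕ → Option G)
    (γ : ℤ → G) (σ : ℤ) : {c | fit S R n0 Sg π γ c σ ≠ 0}.Finite := by
  refine (((range Sg ×ˢ Ico σ (σ + Sg * n0)) ×ˢ (S ^ R)).image fun p =>
    γ p.1.2 * p.2 * ((π p.1.1).getD 1)⁻¹).finite_toSet.subset fun c hc => ?_
  obtain ⟨x, hx, t, ht, s, hs, rfl⟩ := fit_mem h1 hc
  rw [← coe_pow, mem_coe] at hs
  exact mem_coe.2 (mem_image.2 ⟨((x, t), s),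
    mem_product.2 ⟨mem_product.2 ⟨mem_range.2 hx, ht⟩, hs⟩, rfl⟩)

theorem sum_fit {S : Finset G} (h1 : (1 : G) ∈ S) (R n0 : ℕ) {Sg T b : ℕ} {π : ℕ → Option G}
    (hP : Pat Sg T b π) (γ : ℤ → G) (σ : ℤ) (A : Finset G) :
    ∑ c ∈ A, fit S R n0 Sg π γ c σ ≤ T * R * (S.card : ℝ) ^ R := by
  unfold fit
  rw [← sum_div, sum_comm, sum_congr rfl fun x _ => sum_comm, mul_assoc]
  refine sum_le hP (by positivity) fun x u => ?_
  cases π x with
  | none => simp
  | some v =>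
    rw [if_pos (Option.some_ne_none v)]
    exact sum_ph h1 R A (fun c => (γ (σ + x * n0 + u))⁻¹ * c * v) fun a b h =>
      mul_left_cancel (mul_right_cancel h)

theorem pat_const (T : ℕ) : Pat T T 1 (fun _ => some (1 : G)) := by
  refine ⟨by simp, fun f R hf => ?_⟩
  have h2 := hf T 1
  have h3 := hf 0 1
  simp only [Option.elim]
  rw [sum_range_sub (fun x => f x 1) T]
  exact abs_le.2 ⟨by push_cast; linarith, by push_cast; linarith⟩

theorem start {g : G} {S : Finset G} (h1 : (1 : G) ∈ S) (hS : ∀ s ∈ S, s⁻¹ ∈ S) (R T : ℕ)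
    {L n0 : ℕ} (hL : 0 < L) (hn0 : 0 < n0) {γ : ℤ → G} (h : Good g S (L * n0) L γ) :
    ∃ c σ, ((R : ℝ) - T) * T ≤ fit S R n0 T (fun _ => some 1) γ c σ := by
  obtain ⟨-, ℓ, hp, hs, hl⟩ := h
  have hw := sum_window (L * n0) (T * n0) ℓ hp 0
  obtain ⟨t, -, ht⟩ : ∃ t ∈ range (L * n0),
      ∑ u ∈ Ico ((t : ℤ) + 0) (t + 0 + (T * n0 : ℕ)), ℓ u ≤ T := by
    refine exists_le_of_sum_le (nonempty_range_iff.2 (Nat.mul_pos hL hn0).ne') ?_
    rw [hw, sum_const, card_range, smul_eq_mul]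
    calc T * n0 * ∑ t ∈ range (L * n0), ℓ t ≤ T * n0 * L := Nat.mul_le_mul_left _ hl
      _ = L * n0 * T := by ring
  refine ⟨γ t, t, ?_⟩
  unfold fit
  rw [le_div_iff₀ (by exact_mod_cast hn0)]
  refine le_trans (le_of_eq ?_) (sum_le_sum (f := fun _ => ∑ _u ∈ range n0, ((R : ℝ) - T))
    fun x hx => sum_le_sum fun u hu => ?_)
  · simp only [sum_const, card_range, nsmul_eq_mul]
    ring
  rw [mem_range] at hx hu
  have h4 : (x : ℤ) + 1 ≤ T := by exact_mod_cast hx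
  have h5 : (u : ℤ) < n0 := by exact_mod_cast hu
  have h6 := inv_mem hS (len_path hs (show (t : ℤ) ≤ t + x * n0 + u by nlinarith))
  have h7 : ∑ v ∈ Ico (t : ℤ) (t + x * n0 + u), ℓ v ≤ T :=
    (sum_le_sum_of_subset (Ico_subset_Ico (by simp) (by push_cast; nlinarith))).trans ht
  refine le_ph h1 R (Set.pow_subset_pow_right (by exact_mod_cast h1) h7 ?_)
  simpa using h6

end Pool.Agent.Lib.MP_7903c7_al.PT
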