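import Pool.Agent.Lib.MP_7903c7_al.PT.Score
import Pool.Agent.Lib.MP_7903c7_al.PT.Cnt
import Pool.Agent.Lib.MP_7903c7_al.F.Cnt3

set_option autoImplicit false

/-!
The count of patterns near the top, with the full entropy of a window.
-/

namespace Pool.Agent.Lib.MP_7903c7_al.PT

open Finset Pool.Agent.Lib.MP_7903c7_al.RF
open scoped Classical Pointwise

variable {G : Type} [Group G]

namespace Full

/-- The kernel of the fit of a pattern that starts `o` places after the start of the window. -/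
noncomputable def ker (S : Finset G) (R n0 Sg : ℕ) (π : ℕ → Option G) (o τ : ℕ) (y : G) : ℝ :=
  if τ ∈ Ico o (o + Sg * n0) then (π ((τ - o) / n0)).elim 0 fun v => ph S R (y⁻¹ * v) else 0

theorem ker_lip {S : Finset G} (h1 : (1 : G) ∈ S) (hS : ∀ s ∈ S, s⁻¹ ∈ S) (R n0 Sg : ℕ)
    (π : ℕ → Option G) (o τ : ℕ) (y : G) {s : G} (hs : s ∈ S) :
    |ker S R n0 Sg π o τ (y * s) - ker S R n0 Sg π o τ y| ≤ 1 := by
  unfold ker
  split_ifs
  · cases π ((τ - o) / n0) with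
    | none => simp
    | some v =>
      simp only [Option.elim, mul_inv_rev, mul_assoc]
      exact ph_lip h1 hS R _ (hS s hs)
  · simp

theorem ker_sum (S : Finset G) (R Sg : ℕ) {n0 : ℕ} (hn : 0 < n0) (π : ℕ → Option G) {o U : ℕ}
    (h : o + Sg * n0 ≤ U) (γ : ℤ → G) (c : G) (t0 : ℤ) :
    (∑ τ ∈ range U, ker S R n0 Sg π o τ (c⁻¹ * γ (t0 + τ))) / n0 =
      fit S R n0 Sg π γ c (t0 + o) := by
  unfold ker fit
  congr 1
  rw [← sum_filter, show (range U).filter (fun τ => τ ∈ Ico o (o + Sg * n0)) =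
    Ico o (o + Sg * n0) by ext τ; simp only [mem_filter, mem_range, mem_Ico]; omega,
    sum_Ico_eq_sum_range, Nat.add_sub_cancel_left, ← F.Cnt3.sum_groups,
    ← Fin.sum_univ_eq_sum_range]
  refine sum_congr rfl fun x _ => ?_
  rw [← Fin.sum_univ_eq_sum_range]
  refine sum_congr rfl fun u _ => ?_
  rw [Nat.add_sub_cancel_left, add_comm (x.1 * n0), Nat.add_mul_div_right _ _ hn,
    Nat.div_eq_of_lt u.2, zero_add]
  simp only [mul_inv_rev, inv_inv]
  push_cast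
  ring_nf

end Full

theorem count_full {S : Finset G} (h1 : (1 : G) ∈ S) (hS : ∀ s ∈ S, s⁻¹ ∈ S) {k0 R : ℕ}
    (hK : S.card ≤ 2 ^ k0) (l : Lev) (hW : NumW k0 R l) (hC : NumC l) (hF : NumF k0 R l)
    (Q : Finset (ℕ → Option G)) (hQ : Q.card ≤ 2 ^ l.h) (hP : ∀ π ∈ Q, Pat l.Sg l.T l.b π)
    (L : ℕ) : ∃ n00 : ℕ, ∀ n0 ≥ n00, ∃ δ : (ℕ → Option G) → ℝ,
      (∀ π, 0 ≤ δ π ∧ δ π ≤ l.u * l.Y) ∧ ∀ (γ : ℤ → G) (ℓ : ℤ → ℕ),
        (∀ t, (γ t)⁻¹ * γ (t + 1) ∈ (S : Set G) ^ ℓ t) → ∀ (t0 : ℤ) (a : ℝ),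
        ∑ t ∈ Ico t0 (t0 + (l.Sg + l.gg) * n0), ℓ t ≤ L → 29 * R * l.T / 30 ≤ a →
        (∀ π ∈ Q, ∀ σ, sc S R n0 l.Sg l.β π γ σ + δ π ≤ a) →
        (cnt S R n0 l.Sg l.β Q δ γ l.gg l.ρ a t0 : ℝ) ≤
          l.θ * ((∑ t ∈ Ico t0 (t0 + (l.Sg + l.gg) * n0), ℓ t : ℕ) + (l.Sg + l.gg)) := by
  have β0 := hW.hβ
  have u0 := hC.hu
  have g0 := hW.hg
  have W0 : (0 : ℝ) < l.Sg + l.gg := by positivity
  have θ0 : 0 < l.θ := (pos_iff_pos_of_mul_pos (one_pos.trans_le hF.hθ)).2 W0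
  have RT : (0 : ℝ) ≤ R * l.T := by positivity
  have βu : 1 / l.β ≤ l.u / 2 := by
    have := hC.hρu
    have := hW.hρ
    rw [show 2 / l.β = 2 * (1 / l.β) by ring] at *
    linarith
  refine ⟨l.F * (L + (l.Sg + l.gg)) + L + ⌈2 * l.β * l.Sg * R⌉₊ + 1, fun n0 hn => ?_⟩
  have n0' : 0 < n0 := by omega
  have N0 : (0 : ℝ) < n0 := by exact_mod_cast n0'
  set st := l.gg * n0 / l.nt + 1 with hst
  have st0 : 0 < st := Nat.succ_pos _
  have st1 : l.gg * n0 < l.nt * st := Nat.lt_mul_div_succ _ hC.hnt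
  have st2 : (l.Sg : ℝ) * R * st / n0 ≤ 1 / l.β := by
    have a : (2 * l.β * l.Sg * R : ℝ) ≤ n0 :=
      (Nat.le_ceil _).trans (Nat.cast_le.2 (by omega))
    have b : (l.nt : ℝ) * (l.gg * n0 / l.nt : ℕ) ≤ l.gg * n0 := by
      exact_mod_cast Nat.mul_div_le (l.gg * n0) l.nt
    have c := mul_le_mul_of_nonneg_right hF.hnt (Nat.cast_nonneg (l.gg * n0 / l.nt))
    have d : (0 : ℝ) < l.gg := by exact_mod_cast g0
    have e : 2 * l.β * l.Sg * R * (l.gg * n0 / l.nt : ℕ) ≤ n0 :=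
      le_of_mul_le_mul_left (a := (l.gg : ℝ)) (by linarith) d
    rw [div_le_div_iff₀ N0 β0, hst, Nat.cast_succ]
    linarith
  set net := (range l.nt).filter fun v => v * st ≤ l.gg * n0 with hnet
  have hne : net.Nonempty := ⟨0, by simp [hnet, hC.hnt]⟩
  set J : Q → Finset G := fun π => (range l.Sg ×ˢ (S ^ R)).image fun x =>
    x.2 * ((π.1 x.1).getD 1)⁻¹ with hJ
  set f0 : ℝ := (2 * 2 ^ (k0 * R) + 1) * Real.exp (l.β * (R * l.T / 2)) with hf0
  have fl := Nat.floor_le (show 0 ≤ 3 * R * l.T / l.u by positivity)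
  obtain ⟨Y, Y1, Y2⟩ := F.count3 S k0 hK net hne J
    (fun π v => Full.ker S R n0 l.Sg π.1 (v * st))
    (fun π v τ y s hs => Full.ker_lip h1 hS R n0 l.Sg π.1 _ τ y hs) (l.Sg + l.gg) n0 l.F l.q l.h l.z
    (⌊3 * R * l.T / l.u⌋₊ + 2) L l.β l.u f0 l.θ (by have := hC.hz; omega) hC.hz'
    (by rwa [Fintype.card_coe]) hC.hq (by have := hF.hq'; omega)
    ((Nat.mul_le_mul_left _ (Nat.le_succ _)).trans hF.hq) β0 u0 (by positivity) hC.hF
    (by exact_mod_cast hF.hF) (by exact_mod_cast hF.hV) (by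
      have a : (net.card : ℝ) ≤ l.nt :=
        Nat.cast_le.2 ((card_filter_le _ _).trans (card_range _).le)
      have b : Real.exp (3 / 2) ≤ 5 := by
        have : Real.exp (3 / 2) ^ 2 = Real.exp 1 ^ 3 := by
          rw [← Real.exp_nat_mul, ← Real.exp_nat_mul]; norm_num
        have c : Real.exp 1 ^ 3 ≤ 2.72 ^ 3 :=
          pow_le_pow_left₀ (Real.exp_pos _).le (by linarith [Real.exp_one_lt_d9]) 3
        nlinarith [Real.exp_pos (3 / 2)]
      have c : (0 : ℝ) < l.nt := by exact_mod_cast hC.hnt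
      refine le_trans ?_ ((Real.log_le_iff_le_exp (by positivity)).1 hC.hβu)
      calc _ ≤ 16 * 5 * (l.nt : ℝ) := by gcongr
        _ = _ := by ring) θ0
    ((pow_le_pow_right₀ one_le_two (by omega)).trans hF.hgain) (by
      have a : ⌊3 * R * l.T / l.u⌋₊ + 2 ≤ 2 ^ l.Sg := by
        have : ((⌊3 * R * l.T / l.u⌋₊ + 2 : ℕ) : ℝ) ≤ (2 ^ l.Sg : ℕ) := by
          push_cast
          linarith [hF.hgr]
        exact_mod_cast this
      calc _ = 2 * (3 * (l.h + 1) * (⌊3 * R * l.T / l.u⌋₊ + 2)) := by ring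
        _ ≤ 2 * (2 ^ l.Sg * 2 ^ l.Sg) := Nat.mul_le_mul_left _ (Nat.mul_le_mul hF.hh a)
        _ = 2 ^ (2 * l.Sg + 1) := by ring
        _ < _ := Nat.pow_lt_pow_right one_lt_two (by omega))
    (le_trans (by omega) (Nat.le_mul_of_pos_left n0 (by omega))) (by omega)
  refine ⟨fun π => if h : π ∈ Q then l.u * Y ⟨π, h⟩ else 0, fun π => ?_,
    fun γ ℓ hγ t0 a hL ha top => ?_⟩
  · dsimp only
    split_ifs with h
    · exact ⟨by positivity, mul_le_mul_of_nonneg_left (Nat.cast_le.2 ((Y1 _).trans hC.hY)) u0.le⟩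
    · exact ⟨le_rfl, by positivity⟩
  have cst : (((l.Sg + l.gg) * n0 : ℕ) : ℤ) = (l.Sg + l.gg) * n0 := by push_cast; ring
  set M := ∑ t ∈ Ico t0 (t0 + (l.Sg + l.gg) * n0), ℓ t with hM
  by_cases big : (2 : ℝ) ^ l.h / l.θ ≤ M
  · rw [div_le_iff₀ θ0] at big
    have : (cnt S R n0 l.Sg l.β Q (fun π => if h : π ∈ Q then l.u * Y ⟨π, h⟩ else 0) γ l.gg l.ρ a
      t0 : ℝ) ≤ 2 ^ l.h := by exact_mod_cast (card_filter_le _ _).trans hQ
    nlinarith
  rcases (Q.filter fun π => ∃ σ ∈ Ico t0 (t0 + l.gg * n0), a - l.ρ < sc S R n0 l.Sg l.β π γ σ +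
    if h : π ∈ Q then l.u * Y ⟨π, h⟩ else 0).eq_empty_or_nonempty with e | ⟨π0, e⟩
  · simp only [cnt, e, card_empty, Nat.cast_zero]
    positivity
  have Yb : ∀ π, l.u * Y π ≤ l.u * l.Y := fun π =>
    mul_le_mul_of_nonneg_left (Nat.cast_le.2 ((Y1 _).trans hC.hY)) u0.le
  have up : a + 1 / l.β < (⌊3 * R * l.T / l.u⌋₊ + 2 : ℕ) * l.u := by
    obtain ⟨e1, σ, -, e2⟩ := mem_filter.1 e
    rw [dif_pos e1] at e2
    have a1 := sc_le h1 (R := R) n0 hK β0 (hP π0 e1) γ σ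
    have a2 := hW.hl
    have a3 := Nat.lt_floor_add_one (3 * R * l.T / l.u)
    rw [div_lt_iff₀ u0] at a3
    unfold Lev.loss at a2
    push_cast
    linarith [Yb ⟨π0, e1⟩, hW.hρ]
  obtain ⟨A, A1, A2, A3⟩ := Y2 γ ℓ t0 hγ M hL (by rw [cst])
  have cmp : ∀ (π : Q) (σ : ℤ), t0 ≤ σ → σ ≤ t0 + l.gg * n0 → _ := fun π σ s1 s2 =>
    sc_lse h1 (R := R) n0 hK β0 (hP π.1 π.2) γ σ (A π) (fun c hc => by
      obtain ⟨x, x1, t, t1, s, hs, rfl⟩ := fit_mem h1 (lt_of_le_of_lt (by positivity) hc).ne'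
      rw [mem_Ico] at t1
      rw [mul_assoc]
      exact A2 π t (by linarith) (by rw [cst]; linarith) _ (mem_image.2 ⟨(x, s), mem_product.2
        ⟨mem_range.2 x1, by rwa [← mem_coe, coe_pow]⟩, rfl⟩))
      (nA := l.Sg * (2 ^ l.h / l.θ + 1) * 2 ^ (k0 * R)) (by
        have a : (J π).card ≤ l.Sg * 2 ^ (k0 * R) := by
          refine card_image_le.trans ?_
          rw [card_product, card_range, pow_mul]
          exact Nat.mul_le_mul_left _ (card_pow_le.trans (Nat.pow_le_pow_left hK R))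
        have b : ((A π).card : ℝ) ≤ (M + 1) * (l.Sg * 2 ^ (k0 * R)) := by
          exact_mod_cast (A1 π).trans (Nat.mul_le_mul_left _ a)
        refine b.trans ?_
        rw [mul_left_comm, ← mul_assoc]
        gcongr
        exact (not_le.1 big).le)
  have ev : ∀ (π : Q), ∀ v ∈ net, F.sm l.β f0 (A π) (fun c => (∑ τ ∈ range ((l.Sg + l.gg) * n0),
      Full.ker S R n0 l.Sg π.1 (v * st) τ (c⁻¹ * γ (t0 + τ))) / n0) =
      lse l.β f0 (A π) fun c => fit S R n0 l.Sg π.1 γ c (t0 + (v * st : ℕ)) := by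
    intro π v hv
    have := (mem_filter.1 hv).2
    simp only [Full.ker_sum S R l.Sg n0' π.1 (show v * st + l.Sg * n0 ≤ (l.Sg + l.gg) * n0 by
      rw [add_mul]; omega)]
    rfl
  refine le_trans (Nat.cast_le.2 ?_) ((A3 (a + 1 / l.β) (by
    have : 0 < 1 / l.β := by positivity
    linarith) up fun π v hv => ?_).le.trans_eq (by push_cast; ring))
  · refine card_le_card_of_surjOn (fun π : Q => π.1) fun π hπ => ?_
    obtain ⟨e1, σ, s1, e2⟩ := mem_filter.1 hπ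
    simp only [dif_pos e1] at e2
    rw [mem_Ico] at s1
    obtain ⟨d, rfl⟩ := Int.le.dest s1.1
    have d1 : d < l.gg * n0 := by
      have := s1.2
      exact_mod_cast (by linarith : (d : ℤ) < l.gg * n0)
    have d2 := Nat.div_mul_le_self d st
    have d3 := Nat.lt_div_mul_add (a := d) st0
    have hv : d / st ∈ net := mem_filter.2 ⟨mem_range.2 (Nat.div_lt_of_lt_mul (by
      rw [mul_comm st]; omega)), by omega⟩
    refine ⟨⟨π, e1⟩, mem_filter.2 ⟨mem_univ _, d / st, hv, ?_⟩, rfl⟩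
    rw [ev _ _ hv]
    have a1 := (cmp ⟨π, e1⟩ _ s1.1 s1.2.le).1
    have a2 := lse_lip β0 (f0 := f0) (by positivity) (e := 1 / l.β) (by positivity) (A ⟨π, e1⟩)
      (f := fun c => fit S R n0 l.Sg π γ c (t0 + d))
      (f' := fun c => fit S R n0 l.Sg π γ c (t0 + (d / st * st : ℕ))) fun c _ => by
        have b := fit_lip' S R n0 l.Sg π γ c (t0 + (d / st * st : ℕ)) (t0 + d)
        have b' : |((t0 + d - (t0 + (d / st * st : ℕ)) : ℤ) : ℝ)| ≤ st := by
          have : |t0 + d - (t0 + (d / st * st : ℕ))| ≤ (st : ℤ) := by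
            rw [abs_le]; constructor <;> omega
          exact_mod_cast this
        have b2 : (l.Sg : ℝ) * R * |((t0 + d - (t0 + (d / st * st : ℕ)) : ℤ) : ℝ)| / n0 ≤
            l.Sg * R * st / n0 := by gcongr
        linarith [(abs_le.1 b).2]
    have a3 := hC.hρu
    rw [show 2 / l.β = 2 * (1 / l.β) by ring] at a3
    linarith
  · rw [ev _ _ hv]
    have a0 := (mem_filter.1 hv).2
    have a1 := (cmp π (t0 + (v * st : ℕ)) (by omega) (by
      have : ((v * st : ℕ) : ℤ) ≤ (l.gg * n0 : ℕ) := Nat.cast_le.2 a0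
      push_cast at this ⊢
      linarith)).2
    have a2 := top π.1 π.2 (t0 + (v * st : ℕ))
    simp only [dif_pos π.2, Subtype.coe_eta] at a2
    have a3 := hF.hfl
    rw [show 2 * l.Sg * (2 ^ l.h / l.θ + 1) * 2 ^ (k0 * R) =
      2 * (l.Sg * (2 ^ l.h / l.θ + 1) * 2 ^ (k0 * R) : ℝ) by ring] at a3
    have a4 : 0 < 1 / l.β := by positivity
    rcases le_max_iff.1 a1 with b | b <;> linarith [Yb π]

end Pool.Agent.Lib.MP_7903c7_al.PT
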