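import Pool.Agent.Lib.MP_7903c7_al.PT.Fit
import Pool.Agent.Lib.MP_7903c7_al.RF.Win

set_option autoImplicit false

/-! The score of a pattern. -/

namespace Pool.Agent.Lib.MP_7903c7_al.PT

open Finset Pool.Agent.Lib.MP_7903c7_al.RF
open scoped Classical Pointwise

section
variable {G : Type} [Group G]

namespace Score

theorem ex_sup {S : Finset G} (h1 : (1 : G) ∈ S) (R n0 Sg : ℕ) (π : ℕ → Option G) (γ : ℤ → G)
    (σ : ℤ) (A : Finset G) : ∃ B : Finset G, A ⊆ B ∧ ∀ c, fit S R n0 Sg π γ c σ ≠ 0 → c ∈ B :=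
  ⟨A ∪ (fit_finite h1 R n0 Sg π γ σ).toFinset, subset_union_left, fun _ hc =>
    mem_union_right _ ((Set.Finite.mem_toFinset _).2 hc)⟩

theorem zz_eq {S : Finset G} {R n0 Sg : ℕ} (β : ℝ) {π : ℕ → Option G} {γ : ℤ → G} {σ : ℤ}
    {B : Finset G} (h : ∀ c, fit S R n0 Sg π γ c σ ≠ 0 → c ∈ B) :
    zz S R n0 Sg β π γ σ = 1 + ∑ c ∈ B, (Real.exp (β * fit S R n0 Sg π γ c σ) - 1) := by
  unfold zz
  rw [finsum_eq_sum_of_support_subset]
  intro c hc
  refine h c fun e => hc ?_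
  simp only [e, mul_zero, Real.exp_zero, sub_self]

theorem term_nonneg (S : Finset G) (R n0 Sg : ℕ) {β : ℝ} (hβ : 0 < β) (π : ℕ → Option G)
    (γ : ℤ → G) (c : G) (σ : ℤ) : 0 ≤ Real.exp (β * fit S R n0 Sg π γ c σ) - 1 :=
  sub_nonneg.2 (Real.one_le_exp (mul_nonneg hβ.le (fit_nonneg S R n0 Sg π γ c σ)))

theorem cvx {β m x : ℝ} (hm : 0 < m) (h0 : 0 ≤ x) (h1 : x ≤ m) :
    Real.exp (β * x) - 1 ≤ x / m * Real.exp (β * m) := by
  have a : 0 ≤ x / m := by positivity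
  have b : x / m ≤ 1 := (div_le_one hm).2 h1
  have h := convexOn_exp.2 (Set.mem_univ (β * m)) (Set.mem_univ 0) a (sub_nonneg.2 b)
    (by ring)
  simp only [smul_eq_mul, mul_zero, add_zero, Real.exp_zero, mul_one] at h
  rw [show x / m * (β * m) = β * x by field_simp] at h
  linarith

theorem pw {S : Finset G} {k0 : ℕ} (hK : S.card ≤ 2 ^ k0) (R : ℕ) :
    (S.card : ℝ) ^ R ≤ 2 ^ (k0 * R) := by
  rw [pow_mul]
  exact pow_le_pow_left₀ (Nat.cast_nonneg _) (by exact_mod_cast hK) R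

/-- few translates have a large fit -/
theorem big {S : Finset G} (h1 : (1 : G) ∈ S) (R n0 : ℕ) {Sg T b k0 : ℕ}
    (hK : S.card ≤ 2 ^ k0) {π : ℕ → Option G} (hP : Pat Sg T b π) (γ : ℤ → G) (σ : ℤ) :
    ∃ A : Finset G, (A.card : ℝ) ≤ 2 * 2 ^ (k0 * R) ∧
      ∀ c, (R : ℝ) * T / 2 < fit S R n0 Sg π γ c σ → c ∈ A := by
  obtain ⟨B, -, hB⟩ := ex_sup h1 R n0 Sg π γ σ ∅
  have h0 : (0 : ℝ) ≤ R * T := by positivity
  refine ⟨B.filter fun c => (R : ℝ) * T / 2 < fit S R n0 Sg π γ c σ, ?_, fun c hc =>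
    mem_filter.2 ⟨hB c (by linarith : (0 : ℝ) < _).ne', hc⟩⟩
  rcases h0.eq_or_lt with e | e
  · rw [filter_false_of_mem fun c _ => by linarith [fit_le S R n0 hP γ c σ]]
    simp
  · have a := sum_fit h1 R n0 hP γ σ (B.filter fun c => (R : ℝ) * T / 2 < fit S R n0 Sg π γ c σ)
    have d := card_nsmul_le_sum (B.filter fun c => (R : ℝ) * T / 2 < fit S R n0 Sg π γ c σ)
      (fun c => fit S R n0 Sg π γ c σ) ((R : ℝ) * T / 2) fun c hc => (mem_filter.1 hc).2.le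
    rw [nsmul_eq_mul] at d
    have f := mul_le_mul_of_nonneg_left (pw hK R) h0
    refine le_of_mul_le_mul_right ?_ e
    linarith

end Score

theorem one_le_zz {S : Finset G} (h1 : (1 : G) ∈ S) (R n0 Sg : ℕ) {β : ℝ} (hβ : 0 < β)
    (π : ℕ → Option G) (γ : ℤ → G) (σ : ℤ) : 1 ≤ zz S R n0 Sg β π γ σ := by
  obtain ⟨B, -, hB⟩ := Score.ex_sup h1 R n0 Sg π γ σ ∅
  rw [Score.zz_eq β hB]
  exact le_add_of_nonneg_right (sum_nonneg fun c _ => Score.term_nonneg S R n0 Sg hβ π γ c σ)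

theorem sum_le_zz {S : Finset G} (h1 : (1 : G) ∈ S) (R n0 Sg : ℕ) {β : ℝ} (hβ : 0 < β)
    (π : ℕ → Option G) (γ : ℤ → G) (σ : ℤ) (A : Finset G) :
    ∑ c ∈ A, Real.exp (β * fit S R n0 Sg π γ c σ) ≤ zz S R n0 Sg β π γ σ + A.card := by
  obtain ⟨B, hA, hB⟩ := Score.ex_sup h1 R n0 Sg π γ σ A
  have h := sum_le_sum_of_subset_of_nonneg hA
    fun c _ _ => Score.term_nonneg S R n0 Sg hβ π γ c σ
  rw [Score.zz_eq β hB]
  rw [sum_sub_distrib, sum_const, nsmul_eq_mul] at h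
  linarith

theorem zz_le {S : Finset G} (h1 : (1 : G) ∈ S) {R : ℕ} (n0 : ℕ) {Sg T b k0 : ℕ}
    (hK : S.card ≤ 2 ^ k0) {β : ℝ} (hβ : 0 < β) {π : ℕ → Option G} (hP : Pat Sg T b π)
    (γ : ℤ → G) (σ : ℤ) (A : Finset G)
    (hA : ∀ c, (R : ℝ) * T / 2 < fit S R n0 Sg π γ c σ → c ∈ A) :
    zz S R n0 Sg β π γ σ ≤ (2 * 2 ^ (k0 * R) + 1) * Real.exp (β * (R * T / 2)) +
      ∑ c ∈ A, Real.exp (β * fit S R n0 Sg π γ c σ) := by
  obtain ⟨B, hAB, hB⟩ := Score.ex_sup h1 R n0 Sg π γ σ A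
  have h0 : (0 : ℝ) ≤ R * T / 2 := by positivity
  have e1 : 1 ≤ Real.exp (β * (R * T / 2)) := Real.one_le_exp (mul_nonneg hβ.le h0)
  have a : ∑ c ∈ A, (Real.exp (β * fit S R n0 Sg π γ c σ) - 1) ≤
      ∑ c ∈ A, Real.exp (β * fit S R n0 Sg π γ c σ) := sum_le_sum fun c _ => by linarith
  have l : ∀ c ∈ B \ A, fit S R n0 Sg π γ c σ ≤ R * T / 2 := fun c hc =>
    not_lt.1 fun h => (mem_sdiff.1 hc).2 (hA c h)
  have d : ∑ c ∈ B \ A, (Real.exp (β * fit S R n0 Sg π γ c σ) - 1) ≤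
      2 * 2 ^ (k0 * R) * Real.exp (β * (R * T / 2)) := by
    rcases h0.eq_or_lt with e | e
    · rw [sum_eq_zero fun c hc => by
        rw [le_antisymm ((l c hc).trans e.ge) (fit_nonneg S R n0 Sg π γ c σ)]; simp]
      positivity
    · refine (sum_le_sum fun c hc =>
        Score.cvx e (fit_nonneg S R n0 Sg π γ c σ) (l c hc)).trans ?_
      rw [← sum_mul, ← sum_div]
      refine mul_le_mul_of_nonneg_right ((div_le_iff₀ e).2 ?_) (Real.exp_pos _).le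
      have f := mul_le_mul_of_nonneg_left (Score.pw hK R) h0
      linarith [sum_fit h1 R n0 hP γ σ (B \ A)]
  rw [Score.zz_eq β hB, ← sum_sdiff hAB]
  linarith

theorem fit_le_sc {S : Finset G} (h1 : (1 : G) ∈ S) (R n0 Sg : ℕ) {β : ℝ} (hβ : 0 < β)
    (π : ℕ → Option G) (γ : ℤ → G) (c : G) (σ : ℤ) :
    fit S R n0 Sg π γ c σ ≤ sc S R n0 Sg β π γ σ := by
  obtain ⟨B, hA, hB⟩ := Score.ex_sup h1 R n0 Sg π γ σ {c}
  have h := single_le_sum (fun c _ => Score.term_nonneg S R n0 Sg hβ π γ c σ)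
    (hA (mem_singleton_self c))
  unfold sc
  rw [le_div_iff₀ hβ, mul_comm,
    Real.le_log_iff_exp_le (by linarith [one_le_zz h1 R n0 Sg hβ π γ σ]), Score.zz_eq β hB]
  linarith

namespace Score

theorem sc_lt {S : Finset G} (h1 : (1 : G) ∈ S) {R : ℕ} (n0 : ℕ) {Sg T b k0 : ℕ}
    (hK : S.card ≤ 2 ^ k0) {β : ℝ} (hβ : 0 < β) {π : ℕ → Option G} (hP : Pat Sg T b π)
    (γ : ℤ → G) (σ : ℤ) {y : ℝ} (hy : (R : ℝ) * T / 2 ≤ y)
    (h : ∀ c, fit S R n0 Sg π γ c σ ≤ y) :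
    sc S R n0 Sg β π γ σ < y + Real.log (6 * 2 ^ (k0 * R)) / β := by
  obtain ⟨A, a1, a2⟩ := big h1 R n0 hK hP γ σ
  have z := zz_le h1 n0 hK hβ hP γ σ A a2
  have k1 : (1 : ℝ) ≤ 2 ^ (k0 * R) := one_le_pow₀ one_le_two
  have e0 := Real.exp_pos (β * y)
  have e1 : Real.exp (β * (R * T / 2)) ≤ Real.exp (β * y) := by gcongr
  have e2 := sum_le_card_nsmul A (fun c => Real.exp (β * fit S R n0 Sg π γ c σ))
    (Real.exp (β * y)) fun c _ => by have := h c; gcongr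
  rw [nsmul_eq_mul] at e2
  have e3 := mul_le_mul_of_nonneg_right a1 e0.le
  have e4 := mul_le_mul_of_nonneg_left e1 (show (0 : ℝ) ≤ 2 * 2 ^ (k0 * R) + 1 by positivity)
  have e5 := mul_le_mul_of_nonneg_right k1 e0.le
  unfold sc
  rw [div_lt_iff₀ hβ, add_mul, div_mul_cancel₀ _ hβ.ne', mul_comm y,
    Real.log_lt_iff_lt_exp (by linarith [one_le_zz h1 R n0 Sg hβ π γ σ]), Real.exp_add,
    Real.exp_log (by positivity)]
  linarith

end Score

theorem sc_le {S : Finset G} (h1 : (1 : G) ∈ S) {R : ℕ} (n0 : ℕ) {Sg T b k0 : ℕ}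
    (hK : S.card ≤ 2 ^ k0) {β : ℝ} (hβ : 0 < β) {π : ℕ → Option G} (hP : Pat Sg T b π)
    (γ : ℤ → G) (σ : ℤ) :
    sc S R n0 Sg β π γ σ ≤ R * T + Real.log (6 * 2 ^ (k0 * R)) / β :=
  (Score.sc_lt h1 n0 hK hβ hP γ σ (half_le_self (by positivity))
    fun c => fit_le S R n0 hP γ c σ).le

theorem exists_fit {S : Finset G} (h1 : (1 : G) ∈ S) {R : ℕ} (n0 : ℕ) {Sg T b k0 : ℕ}
    (hK : S.card ≤ 2 ^ k0) {β : ℝ} (hβ : 0 < β) {π : ℕ → Option G} (hP : Pat Sg T b π)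
    (γ : ℤ → G) (σ : ℤ) {x : ℝ} (hx : x ≤ sc S R n0 Sg β π γ σ)
    (hx' : R * T / 2 + Real.log (6 * 2 ^ (k0 * R)) / β ≤ x) :
    ∃ c, x - Real.log (6 * 2 ^ (k0 * R)) / β ≤ fit S R n0 Sg π γ c σ := by
  by_contra h
  push Not at h
  linarith [Score.sc_lt h1 n0 hK hβ hP γ σ (le_sub_iff_add_le.2 hx') fun c => (h c).le]

/-- both sides of the comparison of the score with a finite soft maximum -/
theorem sc_lse {S : Finset G} (h1 : (1 : G) ∈ S) {R : ℕ} (n0 : ℕ) {Sg T b k0 : ℕ}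
    (hK : S.card ≤ 2 ^ k0) {β : ℝ} (hβ : 0 < β) {π : ℕ → Option G} (hP : Pat Sg T b π)
    (γ : ℤ → G) (σ : ℤ) (A : Finset G)
    (hA : ∀ c, (R : ℝ) * T / 2 < fit S R n0 Sg π γ c σ → c ∈ A) {nA : ℝ} (hn : (A.card : ℝ) ≤ nA) :
    sc S R n0 Sg β π γ σ ≤ lse β ((2 * 2 ^ (k0 * R) + 1) * Real.exp (β * (R * T / 2))) A
        (fun c => fit S R n0 Sg π γ c σ) ∧
      lse β ((2 * 2 ^ (k0 * R) + 1) * Real.exp (β * (R * T / 2))) A
          (fun c => fit S R n0 Sg π γ c σ) ≤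
        max (sc S R n0 Sg β π γ σ + 1 / β)
          (R * T / 2 + Real.log (2 * (2 * 2 ^ (k0 * R) + 1 + 2 * nA)) / β) := by
  have z0 := one_le_zz h1 R n0 Sg hβ π γ σ
  have z1 := zz_le h1 n0 hK hβ hP γ σ A hA
  have z2 := sum_le_zz h1 R n0 Sg hβ π γ σ A
  have n1 : 0 ≤ nA := (Nat.cast_nonneg _).trans hn
  have e1 : 1 ≤ Real.exp (β * (R * T / 2)) := Real.one_le_exp (by positivity)
  unfold sc lse
  refine ⟨div_le_div_of_nonneg_right (Real.log_le_log (by linarith) z1) hβ.le, ?_⟩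
  by_cases h : (2 * 2 ^ (k0 * R) + 1) * Real.exp (β * (R * T / 2)) + nA ≤ zz S R n0 Sg β π γ σ
  · refine le_max_of_le_left ?_
    rw [← add_div]
    refine div_le_div_of_nonneg_right ?_ hβ.le
    rw [Real.log_le_iff_le_exp (by linarith), Real.exp_add, Real.exp_log (by linarith)]
    have := mul_le_mul_of_nonneg_left (Real.add_one_le_exp 1) (zero_le_one.trans z0)
    linarith
  · refine le_max_of_le_right ?_
    rw [div_le_iff₀ hβ, add_mul _ _ β, div_mul_cancel₀ _ hβ.ne', mul_comm _ β,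
      Real.log_le_iff_le_exp (by linarith), Real.exp_add, Real.exp_log (by positivity)]
    have := mul_le_mul_of_nonneg_left e1 n1
    linarith [not_le.1 h]

theorem sc_mul (S : Finset G) (R n0 Sg : ℕ) (β : ℝ) (π : ℕ → Option G) (γ : ℤ → G) (a : G)
    (σ : ℤ) : sc S R n0 Sg β π (fun t => a * γ t) σ = sc S R n0 Sg β π γ σ := by
  unfold sc zz
  rw [← finsum_comp_equiv (Equiv.mulLeft a)]
  simp only [Equiv.coe_mulLeft, fit_mul]

theorem sc_shift (S : Finset G) (R n0 Sg : ℕ) (β : ℝ) (π : ℕ → Option G) (γ : ℤ → G)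
    (σ k : ℤ) : sc S R n0 Sg β π (fun t => γ (t + k)) σ = sc S R n0 Sg β π γ (σ + k) := by
  unfold sc zz
  simp only [fit_shift]

namespace Score

theorem pat_any (Sg : ℕ) (π : ℕ → Option G) : ∃ T ≤ Sg, Pat Sg T Sg π := by
  refine ⟨_, (card_filter_le _ _).trans (card_range Sg).le, rfl, fun f R h => ?_⟩
  refine (abs_sum_le_sum_abs _ _).trans ((sum_le_card_nsmul _ _ R fun x _ => ?_).trans ?_)
  · rcases π x with _ | v
    · simpa using (h 0 1).1.trans (h 0 1).2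
    · exact abs_le.2 ⟨by simp only [Option.elim]; linarith [h (x + 1) v, h x v],
        by simp only [Option.elim]; linarith [h (x + 1) v, h x v]⟩
  · rw [card_range, nsmul_eq_mul]

theorem exp_lip {x y M : ℝ} (hx : x ≤ M) (hy : y ≤ M) :
    Real.exp x - Real.exp y ≤ Real.exp M * |x - y| := by
  rcases le_total x y with h | h
  · have := Real.exp_le_exp.2 h
    have : 0 ≤ Real.exp M * |x - y| := by positivity
    linarith
  · have a := mul_le_mul_of_nonneg_left (Real.add_one_le_exp (y - x)) (Real.exp_pos x).le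
    rw [← Real.exp_add, add_sub_cancel] at a
    have b := mul_le_mul_of_nonneg_right (Real.exp_le_exp.2 hx) (sub_nonneg.2 h)
    rw [abs_of_nonneg (sub_nonneg.2 h)]
    linarith

theorem log_lip {x y e : ℝ} (hx : 1 ≤ x) (hy : 1 ≤ y) (he : 0 ≤ e) (h : x - y ≤ e) :
    Real.log x - Real.log y ≤ e := by
  rw [← Real.log_div (by linarith) (by linarith)]
  refine (Real.log_le_sub_one_of_pos (by positivity)).trans ?_
  rw [sub_le_iff_le_add, div_le_iff₀ (by linarith)]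
  nlinarith

theorem diff {S : Finset G} (h1 : (1 : G) ∈ S) (R n0 Sg : ℕ) {β : ℝ} (hβ : 0 < β)
    (π : ℕ → Option G) (γ γ' : ℤ → G) (σ σ' : ℤ) {e : ℝ}
    (h : ∀ A : Finset G, ∑ c ∈ A, |fit S R n0 Sg π γ c σ - fit S R n0 Sg π γ' c σ'| ≤ e) :
    sc S R n0 Sg β π γ σ - sc S R n0 Sg β π γ' σ' ≤ Real.exp (β * (R * Sg)) * e := by
  obtain ⟨A, -, hA⟩ := ex_sup h1 R n0 Sg π γ σ ∅
  obtain ⟨B, hAB, hB⟩ := ex_sup h1 R n0 Sg π γ' σ' A
  have he : 0 ≤ e := by simpa using h ∅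
  unfold sc
  rw [← sub_div, div_le_iff₀ hβ]
  refine log_lip (one_le_zz h1 R n0 Sg hβ π γ σ) (one_le_zz h1 R n0 Sg hβ π γ' σ')
    (by positivity) ?_
  rw [zz_eq β fun c hc => hAB (hA c hc), zz_eq β hB, add_sub_add_left_eq_sub, ← sum_sub_distrib]
  calc _ ≤ ∑ c ∈ B, Real.exp (β * (R * Sg)) *
        (|fit S R n0 Sg π γ c σ - fit S R n0 Sg π γ' c σ'| * β) := by
        refine sum_le_sum fun c _ => ?_
        have a := exp_lip (mul_le_mul_of_nonneg_left (fit_le' S R n0 Sg π γ c σ) hβ.le)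
          (mul_le_mul_of_nonneg_left (fit_le' S R n0 Sg π γ' c σ') hβ.le)
        rw [← mul_sub, abs_mul, abs_of_pos hβ, mul_comm β |_|] at a
        linarith
    _ ≤ _ := by
        rw [← mul_sum, ← sum_mul, mul_assoc]
        have := h B
        gcongr

theorem adiff {S : Finset G} (h1 : (1 : G) ∈ S) (R n0 Sg : ℕ) {β : ℝ} (hβ : 0 < β)
    (π : ℕ → Option G) (γ γ' : ℤ → G) (σ σ' : ℤ) {e : ℝ}
    (h : ∀ A : Finset G, ∑ c ∈ A, |fit S R n0 Sg π γ c σ - fit S R n0 Sg π γ' c σ'| ≤ e) :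
    |sc S R n0 Sg β π γ σ - sc S R n0 Sg β π γ' σ'| ≤ Real.exp (β * (R * Sg)) * e :=
  abs_sub_le_iff.2 ⟨diff h1 R n0 Sg hβ π γ γ' σ σ' h, diff h1 R n0 Sg hβ π γ' γ σ' σ fun A => by
    simpa only [abs_sub_comm] using h A⟩

/-- one term of the fit -/
noncomputable def tr (S : Finset G) (R : ℕ) (o : Option G) (y c : G) : ℝ :=
  o.elim 0 fun v => ph S R (y⁻¹ * c * v)

theorem tr_sum {S : Finset G} (h1 : (1 : G) ∈ S) (R : ℕ) (o : Option G) (y y' : G)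
    (A : Finset G) : ∑ c ∈ A, |tr S R o y c - tr S R o y' c| ≤ 2 * (R * (S.card : ℝ) ^ R) := by
  rcases o with _ | v
  · simp only [tr, Option.elim, sub_self, abs_zero, sum_const_zero]
    positivity
  · have a := fun y : G => sum_ph h1 R A (fun c => y⁻¹ * c * v)
      fun c c' h => mul_left_cancel (mul_right_cancel h)
    have b : ∑ c ∈ A, |tr S R (some v) y c - tr S R (some v) y' c| ≤
        ∑ c ∈ A, (ph S R (y⁻¹ * c * v) + ph S R (y'⁻¹ * c * v)) := sum_le_sum fun c _ =>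
      abs_le.2 ⟨by simp only [tr, Option.elim]; linarith [ph_nonneg S R (y⁻¹ * c * v)],
        by simp only [tr, Option.elim]; linarith [ph_nonneg S R (y'⁻¹ * c * v)]⟩
    rw [sum_add_distrib] at b
    linarith [a y, a y']

theorem fit_tr (S : Finset G) (R n0 Sg : ℕ) (π : ℕ → Option G) (γ : ℤ → G) (c : G) (σ : ℤ) :
    fit S R n0 Sg π γ c σ =
      (∑ x ∈ range Sg, ∑ u ∈ range n0, tr S R (π x) (γ (σ + x * n0 + u)) c) / n0 := rfl

theorem tele (f : ℤ → ℝ) (a : ℤ) (n : ℕ) :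
    ∑ u ∈ range n, f (a + 1 + u) - ∑ u ∈ range n, f (a + u) = f (a + n) - f a := by
  induction n with
  | zero => simp
  | succ n ih =>
    rw [sum_range_succ, sum_range_succ, show a + 1 + n = a + (n + 1 : ℕ) by push_cast; ring]
    linarith

theorem lip {S : Finset G} (h1 : (1 : G) ∈ S) (R n0 Sg : ℕ) (π : ℕ → Option G) (γ : ℤ → G)
    (σ : ℤ) (A : Finset G) :
    ∑ c ∈ A, |fit S R n0 Sg π γ c (σ + 1) - fit S R n0 Sg π γ c σ| ≤
      Sg * (2 * (R * (S.card : ℝ) ^ R)) / n0 := by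
  calc _ ≤ ∑ c ∈ A, (∑ x ∈ range Sg,
        |tr S R (π x) (γ (σ + x * n0 + n0)) c - tr S R (π x) (γ (σ + x * n0)) c|) / n0 := by
        refine sum_le_sum fun c _ => ?_
        rw [fit_tr, fit_tr, ← sub_div, abs_div, Nat.abs_cast, ← sum_sub_distrib]
        refine div_le_div_of_nonneg_right ((abs_sum_le_sum_abs _ _).trans
          (sum_le_sum fun x _ => le_of_eq ?_)) (Nat.cast_nonneg _)
        rw [← tele (fun t => tr S R (π x) (γ t) c), add_right_comm σ 1]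
    _ ≤ _ := by
        rw [← sum_div, sum_comm]
        refine div_le_div_of_nonneg_right ((sum_le_card_nsmul _ _ _ fun x _ =>
          tr_sum h1 R (π x) _ _ A).trans ?_) (Nat.cast_nonneg _)
        rw [card_range, nsmul_eq_mul]

theorem dbl (f : ℤ → ℕ) (σ : ℤ) (n0 Sg : ℕ) :
    ∑ x ∈ range Sg, ∑ u ∈ range n0, f (σ + x * n0 + u) = ∑ i ∈ range (Sg * n0), f (σ + i) := by
  induction Sg with
  | zero => simp
  | succ k ih =>
    rw [sum_range_succ, ih, Nat.succ_mul, sum_range_add]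
    simp only [Nat.cast_add, Nat.cast_mul, add_assoc]

theorem near {S : Finset G} (h1 : (1 : G) ∈ S) (R n0 Sg : ℕ) (π : ℕ → Option G) {g : G}
    {N m : ℕ} {γ γ' : ℤ → G} (h : IsLoop g N γ) (h' : IsLoop g N γ') (hn : Near N m γ γ')
    (hN : Sg * n0 ≤ N) (σ : ℤ) (A : Finset G) :
    ∑ c ∈ A, |fit S R n0 Sg π γ c σ - fit S R n0 Sg π γ' c σ| ≤
      m * (2 * (R * (S.card : ℝ) ^ R)) / n0 := by
  let ℓ : ℤ → ℕ := fun t => if γ t ≠ γ' t then 1 else 0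
  have l1 : ∀ t, ℓ (t + N) = ℓ t := fun t => by simp only [ℓ, h t, h' t, ne_eq, mul_right_inj]
  have l2 := sum_window_le N (Sg * n0) hN ℓ l1 σ
  have l3 : ∑ t ∈ range N, ℓ t ≤ m := by
    simp only [ℓ]
    rw [← card_filter]
    exact hn
  rw [Win.sum_Ico, ← dbl] at l2
  have l4 : ∑ x ∈ range Sg, ∑ u ∈ range n0, (ℓ (σ + x * n0 + u) : ℝ) ≤ m := by
    exact_mod_cast l2.trans l3
  calc _ ≤ ∑ c ∈ A, (∑ x ∈ range Sg, ∑ u ∈ range n0, |tr S R (π x) (γ (σ + x * n0 + u)) c -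
        tr S R (π x) (γ' (σ + x * n0 + u)) c|) / n0 := by
        refine sum_le_sum fun c _ => ?_
        rw [fit_tr, fit_tr, ← sub_div, abs_div, Nat.abs_cast, ← sum_sub_distrib]
        refine div_le_div_of_nonneg_right ((abs_sum_le_sum_abs _ _).trans
          (sum_le_sum fun x _ => ?_)) (Nat.cast_nonneg _)
        rw [← sum_sub_distrib]
        exact abs_sum_le_sum_abs _ _
    _ ≤ (∑ x ∈ range Sg, ∑ u ∈ range n0,
        (ℓ (σ + x * n0 + u) : ℝ) * (2 * (R * (S.card : ℝ) ^ R))) / n0 := by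
        rw [← sum_div, sum_comm]
        refine div_le_div_of_nonneg_right (sum_le_sum fun x _ => ?_) (Nat.cast_nonneg _)
        rw [sum_comm]
        refine sum_le_sum fun u _ => ?_
        by_cases e : γ (σ + x * n0 + u) = γ' (σ + x * n0 + u)
        · simp [ℓ, e]
        · simpa [ℓ, e] using tr_sum h1 R (π x) _ _ A
    _ ≤ _ := by
        simp only [← sum_mul]
        gcongr

end Score

theorem sc_const {S : Finset G} (h1 : (1 : G) ∈ S) (R Sg : ℕ) {β : ℝ} (hβ : 0 < β) :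
    ∃ c : ℝ, 0 < c ∧ ∀ (n0 : ℕ) (π : ℕ → Option G) (γ : ℤ → G) (σ : ℤ),
      0 ≤ sc S R n0 Sg β π γ σ ∧ sc S R n0 Sg β π γ σ ≤ c ∧
      |sc S R n0 Sg β π γ (σ + 1) - sc S R n0 Sg β π γ σ| ≤ c / n0 ∧
      ∀ (g : G) (N m : ℕ) (γ' : ℤ → G), IsLoop g N γ → IsLoop g N γ' → Near N m γ γ' →
        Sg * n0 ≤ N → |sc S R n0 Sg β π γ σ - sc S R n0 Sg β π γ' σ| ≤ c * m / n0 := by
  have k1 : (1 : ℝ) ≤ 2 ^ (S.card * R) := one_le_pow₀ one_le_two
  have p1 : 0 < Real.log (6 * 2 ^ (S.card * R)) / β := div_pos (Real.log_pos (by linarith)) hβ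
  set E := Real.exp (β * (R * Sg)) * (2 * (R * (S.card : ℝ) ^ R)) with hE
  have p2 : 0 ≤ E := by positivity
  have p3 : (0 : ℝ) ≤ R * Sg := by positivity
  have p4 : 0 ≤ Sg * E := by positivity
  refine ⟨R * Sg + Real.log (6 * 2 ^ (S.card * R)) / β + Sg * E + E, by positivity,
    fun n0 π γ σ => ⟨(fit_nonneg S R n0 Sg π γ 1 σ).trans (fit_le_sc h1 R n0 Sg hβ π γ 1 σ),
      ?_, ?_, fun g N m γ' h h' hn hN => ?_⟩⟩
  · obtain ⟨T, t1, t2⟩ := Score.pat_any Sg π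
    have a := sc_le (R := R) h1 n0 (Nat.lt_two_pow_self (n := S.card)).le hβ t2 γ σ
    have b : (R : ℝ) * T ≤ R * Sg := by gcongr
    linarith
  · refine (Score.adiff h1 R n0 Sg hβ π γ γ _ _ (Score.lip h1 R n0 Sg π γ σ)).trans ?_
    rw [← mul_div_assoc, mul_left_comm, ← hE]
    exact div_le_div_of_nonneg_right (by linarith) (Nat.cast_nonneg _)
  · refine (Score.adiff h1 R n0 Sg hβ π γ γ' _ _ (Score.near h1 R n0 Sg π h h' hn hN σ)).trans ?_
    rw [← mul_div_assoc, mul_left_comm, ← hE, mul_comm]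
    exact div_le_div_of_nonneg_right (mul_le_mul_of_nonneg_right (by linarith) (Nat.cast_nonneg _))
      (Nat.cast_nonneg _)

end

end Pool.Agent.Lib.MP_7903c7_al.PT
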