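import Pool.Agent.Lib.MP_7903c7_al.PT.Fit

set_option autoImplicit false

/-!
Junctions of patterns and the passage to the next level.
-/

namespace Pool.Agent.Lib.MP_7903c7_al.PT

open Finset Pool.Agent.Lib.MP_7903c7_al.RF
open scoped Classical Pointwise

variable {G : Type} [Group G]

theorem card_junc (S : Finset G) (R Sg : ℕ) (π π' : ℕ → Option G) :
    (junc S R Sg π π').card ≤ Sg ^ 2 * S.card ^ (2 * R) := by
  refine card_image_le.trans ?_
  rw [card_product, card_product, card_range, ← sq]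
  exact Nat.mul_le_mul_left _ card_pow_le

namespace Step

lemma sum_mul_range {M : Type} [AddCommMonoid M] (n P : ℕ) (F : ℕ → M) :
    ∑ y ∈ range (n * P), F y = ∑ k ∈ range n, ∑ r ∈ range P, F (k * P + r) := by
  induction n with
  | zero => simp
  | succ n ih => rw [Nat.succ_mul, sum_range_add, ih, sum_range_succ]

/-- The contribution of the time `σ + y` to the fit. -/
noncomputable def aa (S : Finset G) (R n0 : ℕ) (π : ℕ → Option G) (γ : ℤ → G) (c : G) (σ t : ℤ) :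
    ℝ := (π ((t - σ).toNat / n0)).elim 0 fun v => ph S R ((γ t)⁻¹ * c * v)

lemma aa_le (S : Finset G) (R n0 : ℕ) (π : ℕ → Option G) (γ : ℤ → G) (c : G) (σ t : ℤ) :
    aa S R n0 π γ c σ t ≤ R := by
  unfold aa
  cases π ((t - σ).toNat / n0) with
  | none => simp
  | some v => exact ph_le _ _ _

lemma fit_eq (S : Finset G) (R : ℕ) {n0 : ℕ} (Sg : ℕ) (hn0 : 0 < n0) (π : ℕ → Option G)
    (γ : ℤ → G) (c : G) (σ : ℤ) :
    fit S R n0 Sg π γ c σ * n0 = ∑ t ∈ Ico σ (σ + Sg * n0), aa S R n0 π γ c σ t := by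
  have h0 : (n0 : ℝ) ≠ 0 := by positivity
  rw [fit, div_mul_cancel₀ _ h0]
  have e : ∑ t ∈ Ico σ (σ + Sg * n0), aa S R n0 π γ c σ t =
      ∑ y ∈ range (Sg * n0), aa S R n0 π γ c σ (σ + y) := by
    symm
    refine sum_bij (fun y _ => σ + y) ?_ ?_ ?_ (fun _ _ => rfl)
    · intro y hy
      rw [mem_range] at hy
      rw [mem_Ico]
      constructor
      · omega
      · have : (y : ℤ) < (Sg * n0 : ℕ) := by exact_mod_cast hy
        push_cast at this
        omega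
    · intro y _ y' _ h
      simpa using h
    · intro t ht
      rw [mem_Ico] at ht
      refine ⟨(t - σ).toNat, mem_range.2 ?_, by omega⟩
      have : ((t - σ).toNat : ℤ) < (Sg * n0 : ℕ) := by push_cast; omega
      exact_mod_cast this
  rw [e, sum_mul_range]
  refine sum_congr rfl fun x _ => sum_congr rfl fun u hu => ?_
  rw [mem_range] at hu
  have e1 : (σ + ((x * n0 + u : ℕ) : ℤ) - σ).toNat / n0 = x := by
    rw [add_sub_cancel_left, Int.toNat_natCast, mul_comm, Nat.mul_add_div hn0,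
      Nat.div_eq_of_lt hu, add_zero]
  rw [aa, e1]
  push_cast
  rw [add_assoc]

lemma zero_count (S : Finset G) (R : ℕ) {n0 : ℕ} (Sg : ℕ) (hn0 : 0 < n0) (π : ℕ → Option G)
    (γ : ℤ → G) (c : G) (σ : ℤ) :
    (R : ℝ) * ((Ico σ (σ + Sg * n0)).filter fun t => aa S R n0 π γ c σ t = 0).card ≤
      (R * Sg - fit S R n0 Sg π γ c σ) * n0 := by
  rw [sub_mul, fit_eq S R Sg hn0]
  have e : (R : ℝ) * Sg * n0 = ∑ t ∈ Ico σ (σ + Sg * n0), (R : ℝ) := by
    rw [sum_const, Int.card_Ico, add_sub_cancel_left, nsmul_eq_mul]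
    have : ((Sg : ℤ) * n0).toNat = Sg * n0 := by
      rw [← Nat.cast_mul, Int.toNat_natCast]
    rw [this]; push_cast; ring
  rw [e, ← sum_sub_distrib, card_filter]
  push_cast
  rw [mul_sum]
  refine sum_le_sum fun t _ => ?_
  have := aa_le S R n0 π γ c σ t
  split_ifs with h
  · rw [h]; simp
  · linarith

lemma aa_mem {S : Finset G} (h1 : (1 : G) ∈ S) {R n0 Sg : ℕ} {π : ℕ → Option G}
    {γ : ℤ → G} {c : G} {σ t : ℤ} (ht : t ∈ Ico σ (σ + Sg * n0))
    (h : aa S R n0 π γ c σ t ≠ 0) :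
    ∃ x < Sg, (γ t)⁻¹ * c * (π x).getD 1 ∈ (S : Set G) ^ R := by
  rw [mem_Ico] at ht
  refine ⟨(t - σ).toNat / n0, ?_, ?_⟩
  · refine Nat.div_lt_of_lt_mul ?_
    have : ((t - σ).toNat : ℤ) < (n0 * Sg : ℕ) := by push_cast; rw [mul_comm]; omega
    exact_mod_cast this
  · unfold aa at h
    cases hv : π ((t - σ).toNat / n0) with
    | none => simp [hv] at h
    | some v => rw [hv] at h; exact ph_mem h1 h

lemma inv_mem_pow {S : Finset G} (hS : ∀ s ∈ S, s⁻¹ ∈ S) (r : ℕ) :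
    ∀ y ∈ (S : Set G) ^ r, y⁻¹ ∈ (S : Set G) ^ r := by
  induction r with
  | zero => intro y hy; simp at hy ⊢; exact hy
  | succ r ih =>
    intro y hy
    rw [pow_succ] at hy
    obtain ⟨a, ha, b, hb, rfl⟩ := hy
    rw [pow_succ', mul_inv_rev]
    exact Set.mul_mem_mul (hS b hb) (ih a ha)

lemma link' {S : Finset G} (h1 : (1 : G) ∈ S) (hS : ∀ s ∈ S, s⁻¹ ∈ S) {R n0 Sg : ℕ}
    (hn0 : 0 < n0) (π π' : ℕ → Option G) (γ : ℤ → G) (c c' : G) (σ σ' : ℤ)
    (h : R * Sg + R * |((σ' - σ : ℤ) : ℝ)| / n0 <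
      fit S R n0 Sg π γ c σ + fit S R n0 Sg π' γ c' σ') :
    c⁻¹ * c' ∈ junc S R Sg π π' := by
  have hn : (0 : ℝ) < n0 := by exact_mod_cast hn0
  have key : ∃ t, t ∈ Ico σ (σ + Sg * n0) ∧ t ∈ Ico σ' (σ' + Sg * n0) ∧
      aa S R n0 π γ c σ t ≠ 0 ∧ aa S R n0 π' γ c' σ' t ≠ 0 := by
    by_contra con
    push Not at con
    have z1 := zero_count S R Sg hn0 π γ c σ
    have z2 := zero_count S R Sg hn0 π' γ c' σ'
    set Z1 := (Ico σ (σ + Sg * n0)).filter fun t => aa S R n0 π γ c σ t = 0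
    set Z2 := (Ico σ' (σ' + Sg * n0)).filter fun t => aa S R n0 π' γ c' σ' t = 0
    have sub : Ico (max σ σ') (min σ σ' + Sg * n0) ⊆ Z1 ∪ Z2 := by
      intro t ht
      rw [mem_Ico] at ht
      have a1 : t ∈ Ico σ (σ + Sg * n0) := mem_Ico.2 ⟨by omega, by omega⟩
      have a2 : t ∈ Ico σ' (σ' + Sg * n0) := mem_Ico.2 ⟨by omega, by omega⟩
      by_cases a3 : aa S R n0 π γ c σ t = 0
      · exact mem_union_left _ (mem_filter.2 ⟨a1, a3⟩)
      · exact mem_union_right _ (mem_filter.2 ⟨a2, con t a1 a2 a3⟩)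
    have c1 := (card_le_card sub).trans (card_union_le _ _)
    rw [Int.card_Ico] at c1
    have c2 : (Sg : ℤ) * n0 - |σ' - σ| ≤ (Z1.card : ℤ) + Z2.card := by
      rcases abs_cases (σ' - σ) with h | h <;> omega
    have c3 : (Sg : ℝ) * n0 - |((σ' - σ : ℤ) : ℝ)| ≤ (Z1.card : ℝ) + Z2.card := by
      exact_mod_cast c2
    have hR : (0 : ℝ) ≤ R := Nat.cast_nonneg _
    have c4 := mul_le_mul_of_nonneg_left c3 hR
    have c5 := mul_lt_mul_of_pos_right h hn
    rw [add_mul, div_mul_cancel₀ _ hn.ne'] at c5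
    nlinarith
  obtain ⟨t, t1, t2, a1, a2⟩ := key
  obtain ⟨x, hx, m1⟩ := aa_mem h1 t1 a1
  obtain ⟨x', hx', m2⟩ := aa_mem h1 t2 a2
  refine mem_image.2 ⟨((x, x'), ((γ t)⁻¹ * c * (π x).getD 1)⁻¹ * ((γ t)⁻¹ * c' * (π' x').getD 1)),
    mem_product.2 ⟨mem_product.2 ⟨mem_range.2 hx, mem_range.2 hx'⟩, ?_⟩, by group⟩
  rw [← mem_coe, coe_pow, two_mul, pow_add]
  exact Set.mul_mem_mul (inv_mem_pow hS R _ m1) m2

/-- The concatenation of translated copies of a pattern. -/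
def cat (Sg P : ℕ) (π : ℕ → Option G) (B : ℕ → G) (d : ℕ → ℕ) (y : ℕ) : Option G :=
  if d (y / P) ≤ y % P ∧ y % P < d (y / P) + Sg then
    (π (y % P - d (y / P))).map (B (y / P) * ·) else none

lemma sum_cat {Sg P n : ℕ} (π : ℕ → Option G) (B : ℕ → G) {d : ℕ → ℕ}
    (hd : ∀ k < n, d k + Sg ≤ P) (F : ℕ → G → ℝ) :
    ∑ y ∈ range (n * P), (cat Sg P π B d y).elim 0 (F y) =
      ∑ k ∈ range n, ∑ x ∈ range Sg, (π x).elim 0 fun v => F (k * P + d k + x) (B k * v) := by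
  rw [sum_mul_range]
  refine sum_congr rfl fun k hk => ?_
  have hk' := hd k (mem_range.1 hk)
  have e : ∀ r < P, cat Sg P π B d (k * P + r) =
      if d k ≤ r ∧ r < d k + Sg then (π (r - d k)).map (B k * ·) else none := by
    intro r hr
    have e1 : (k * P + r) / P = k := by
      rw [mul_comm, Nat.mul_add_div (by omega), Nat.div_eq_of_lt hr, add_zero]
    have e2 : (k * P + r) % P = r := by
      rw [mul_comm, Nat.mul_add_mod, Nat.mod_eq_of_lt hr]
    rw [cat, e1, e2]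
  symm
  refine sum_bij_ne_zero (fun x _ _ => d k + x) ?_ ?_ ?_ ?_
  · intro x hx _
    rw [mem_range] at hx ⊢
    omega
  · intro x _ _ x' _ _ h
    simpa using h
  · intro r hr h
    rw [mem_range] at hr
    rw [e r hr] at h
    split_ifs at h with h'
    · refine ⟨r - d k, mem_range.2 (by omega), ?_, by omega⟩
      rw [show k * P + d k + (r - d k) = k * P + r by omega]
      cases hv : π (r - d k) with
      | none => simp [hv] at h
      | some v => simpa [hv] using h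
    · simp at h
  · intro x hx _
    rw [mem_range] at hx
    rw [e _ (by omega), if_pos (by omega), Nat.add_sub_cancel_left, add_assoc]
    cases π x <;> simp

omit [Group G] in
lemma cnt_eq (Sg : ℕ) (π : ℕ → Option G) :
    (((range Sg).filter fun x => π x ≠ none).card : ℝ) =
      ∑ x ∈ range Sg, (π x).elim 0 fun _ => (1 : ℝ) := by
  rw [card_filter]
  push_cast
  refine sum_congr rfl fun x _ => ?_
  cases π x <;> simp

omit [Group G] in
lemma elim_sub (o : Option G) (f f' : G → ℝ) :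
    o.elim 0 f - o.elim 0 f' = o.elim 0 fun v => f v - f' v := by
  cases o <;> simp

lemma pat_cat {Sg T b P n : ℕ} {π : ℕ → Option G} (hP : Pat Sg T b π) (B : ℕ → G) {d : ℕ → ℕ}
    (hd : ∀ k < n, d k + Sg ≤ P) : Pat (n * P) (n * T) (n * b) (cat Sg P π B d) := by
  constructor
  · have := cnt_eq (n * P) (cat Sg P π B d)
    rw [sum_cat π B hd fun _ _ => 1, ← cnt_eq, hP.cnt, sum_const, card_range,
      nsmul_eq_mul] at this
    exact_mod_cast this
  · intro f R hf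
    simp only [elim_sub]
    rw [sum_cat π B hd fun y v => f (y + 1) v - f y v]
    refine (abs_sum_le_sum_abs _ _).trans ?_
    refine (sum_le_card_nsmul _ _ (b * R) fun k _ => ?_).trans_eq (by
      rw [card_range, nsmul_eq_mul]; push_cast; ring)
    have := hP.brk (fun x v => f (k * P + d k + x) (B k * v)) R fun x v => hf _ _
    simp only [elim_sub] at this
    simpa only [add_assoc] using this

lemma fit_cat (S : Finset G) (R n0 : ℕ) {Sg P n : ℕ} (π : ℕ → Option G) (B : ℕ → G) {d : ℕ → ℕ}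
    (hd : ∀ k < n, d k + Sg ≤ P) (γ : ℤ → G) (c : G) :
    fit S R n0 (n * P) (cat Sg P π B d) γ c 0 =
      ∑ k ∈ range n, fit S R n0 Sg π γ (c * B k) ((k * P + d k : ℕ) * n0) := by
  have e : ∀ (o : Option G) (f : ℕ → G → ℝ),
      ∑ u ∈ range n0, o.elim 0 (f u) = o.elim 0 fun v => ∑ u ∈ range n0, f u v := by
    intro o f
    cases o <;> simp
  simp only [fit, e]
  rw [sum_cat π B hd fun y v => ∑ u ∈ range n0, ph S R ((γ (0 + y * n0 + u))⁻¹ * c * v), sum_div]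
  refine sum_congr rfl fun k _ => ?_
  congr 1
  refine sum_congr rfl fun x _ => ?_
  congr 1
  funext v
  refine sum_congr rfl fun u _ => ?_
  congr 1
  rw [mul_assoc, mul_assoc, mul_assoc]
  congr 3
  push_cast
  ring

/-- Products of the first factors. -/
def pr (j : ℕ → G) : ℕ → G
  | 0 => 1
  | k + 1 => pr j k * j k

lemma pr_mem {H : Subgroup G} {j : ℕ → G} (h : ∀ k, j k ∈ H) : ∀ k, pr j k ∈ H
  | 0 => one_mem _
  | k + 1 => mul_mem (pr_mem h k) (h k)

lemma pow_sub (S : Finset G) (r : ℕ) :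
    ∀ y ∈ (S : Set G) ^ r, y ∈ Subgroup.closure (S : Set G) := by
  induction r with
  | zero => intro y hy; simp at hy; exact hy ▸ one_mem _
  | succ r ih =>
    intro y hy
    rw [pow_succ] at hy
    obtain ⟨a, ha, b, hb, rfl⟩ := hy
    exact mul_mem (ih a ha) (Subgroup.subset_closure hb)

lemma cat_mem {H : Subgroup G} {Sg P : ℕ} {π : ℕ → Option G} (hπ : ∀ x, (π x).getD 1 ∈ H)
    {B : ℕ → G} (hB : ∀ k, B k ∈ H) (d : ℕ → ℕ) (y : ℕ) : (cat Sg P π B d y).getD 1 ∈ H := by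
  rw [cat]
  split_ifs
  · have := hπ (y % P - d (y / P))
    cases hv : π (y % P - d (y / P)) with
    | none => exact one_mem _
    | some v => rw [hv] at this; exact mul_mem (hB _) this
  · exact one_mem _

/-- Extension of a finite sequence. -/
def xt {A : Type} {n : ℕ} (a : A) (j : Fin n → A) (k : ℕ) : A :=
  if h : k < n then j ⟨k, h⟩ else a

end Step

open Step

theorem link {S : Finset G} (h1 : (1 : G) ∈ S) (hS : ∀ s ∈ S, s⁻¹ ∈ S) {R n0 Sg T b b' : ℕ}
    (hn0 : 0 < n0) {π π' : ℕ → Option G} (hP : Pat Sg T b π) (hP' : Pat Sg T b' π')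
    (γ : ℤ → G) (c c' : G) (σ σ' : ℤ)
    (h : (R * T - fit S R n0 Sg π γ c σ) + (R * T - fit S R n0 Sg π' γ c' σ') +
      2 * R * ((Sg : ℝ) - T) + R * |((σ' - σ : ℤ) : ℝ)| / n0 < R * Sg) :
    c⁻¹ * c' ∈ junc S R Sg π π' :=
  link' h1 hS hn0 π π' γ c c' σ σ' (by linarith)

theorem step {S : Finset G} (h1 : (1 : G) ∈ S) (hS : ∀ s ∈ S, s⁻¹ ∈ S) (R Sg T b gg n : ℕ)
    (hR : 0 < R) (hgg : 0 < gg) (hT : 9 * Sg ≤ 10 * T) (hg : 30 * gg ≤ Sg)
    (Q : Finset (ℕ → Option G)) (hQ : Q.Nonempty) (hP : ∀ π ∈ Q, Pat Sg T b π)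
    (hV : ∀ π ∈ Q, ∀ x, (π x).getD 1 ∈ Subgroup.closure (S : Set G)) :
    ∃ Q' : Finset (ℕ → Option G), Q'.Nonempty ∧
      (∀ π ∈ Q', Pat (n * (Sg + 2 * gg)) (n * T) (n * b) π) ∧
      (∀ π ∈ Q', ∀ x, (π x).getD 1 ∈ Subgroup.closure (S : Set G)) ∧
      Q'.card ≤ Q.card * (Sg ^ 4 * S.card ^ (4 * R) * (2 * gg + 1)) ^ n ∧
      ∀ n0 : ℕ, 0 < n0 → ∀ (γ : ℤ → G) (x : ℝ), 19 * R * T / 20 ≤ x → ∀ π ∈ Q,
        Wrap S R n0 Sg gg π γ x → ∃ π' ∈ Q', ∃ c σ,
          n * (x - b * R) ≤ fit S R n0 (n * (Sg + 2 * gg)) π' γ c σ := by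
  let D : (ℕ → Option G) → Finset (Fin n → G × ℕ) := fun π => Fintype.piFinset fun _ =>
    (junc S R Sg π π * junc S R Sg π π) ×ˢ range (2 * gg + 1)
  let mk : (ℕ → Option G) → (Fin n → G × ℕ) → ℕ → Option G := fun π j =>
    cat Sg (Sg + 2 * gg) π (pr fun k => (xt (1, 0) j k).1) fun k => (xt (1, 0) j k).2
  have hd : ∀ π, ∀ j ∈ D π, ∀ k < n, (xt (1, 0) j k).2 + Sg ≤ Sg + 2 * gg := by
    intro π j hj k hk
    have := (mem_product.1 (Fintype.mem_piFinset.1 hj ⟨k, hk⟩)).2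
    rw [mem_range] at this
    rw [xt, dif_pos hk]
    omega
  refine ⟨Q.biUnion fun π => (D π).image (mk π), ?_, ?_, ?_, ?_, ?_⟩
  · obtain ⟨π, hπ⟩ := hQ
    have hJ : (junc S R Sg π π).Nonempty :=
      (((nonempty_range_iff.2 (by omega)).product (nonempty_range_iff.2 (by omega))).product
        (Nonempty.pow ⟨1, h1⟩)).image _
    refine biUnion_nonempty.2 ⟨π, hπ, Nonempty.image ?_ _⟩
    exact Fintype.piFinset_nonempty.2 fun _ =>
      (hJ.mul hJ).product (nonempty_range_iff.2 (by omega))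
  · intro π' h
    obtain ⟨π, hπ, h⟩ := mem_biUnion.1 h
    obtain ⟨j, hj, rfl⟩ := mem_image.1 h
    exact pat_cat (hP π hπ) _ (hd π j hj)
  · intro π' h
    obtain ⟨π, hπ, h⟩ := mem_biUnion.1 h
    obtain ⟨j, hj, rfl⟩ := mem_image.1 h
    have hJ : ∀ y ∈ junc S R Sg π π, y ∈ Subgroup.closure (S : Set G) := by
      intro y hy
      obtain ⟨p, hp, rfl⟩ := mem_image.1 hy
      have := (mem_product.1 hp).2
      rw [← mem_coe, coe_pow] at this
      exact mul_mem (mul_mem (hV π hπ _) (pow_sub S _ _ this)) (inv_mem (hV π hπ _))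
    refine cat_mem (hV π hπ) (pr_mem fun k => ?_) _
    rw [xt]
    split_ifs with hk
    · obtain ⟨a, ha, b, hb, e⟩ := mem_mul.1 (mem_product.1 (Fintype.mem_piFinset.1 hj ⟨k, hk⟩)).1
      exact e ▸ mul_mem (hJ a ha) (hJ b hb)
    · exact one_mem _
  · refine card_biUnion_le_card_mul _ _ _ fun π _ => card_image_le.trans ?_
    rw [Fintype.card_piFinset, prod_const, card_univ, Fintype.card_fin, card_product, card_range]
    refine Nat.pow_le_pow_left (Nat.mul_le_mul_right _ (card_mul_le.trans ?_)) _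
    have := card_junc S R Sg π π
    calc _ ≤ (Sg ^ 2 * S.card ^ (2 * R)) * (Sg ^ 2 * S.card ^ (2 * R)) := Nat.mul_le_mul this this
      _ = _ := by ring
  · intro n0 hn0 γ x hx π hπ hw
    have hn : (0 : ℝ) < n0 := by exact_mod_cast hn0
    have hz : (0 : ℤ) < n0 := by exact_mod_cast hn0
    have hRr : (0 : ℝ) < R := by exact_mod_cast hR
    choose s c hs hc using hw
    obtain ⟨P, hPP⟩ : ∃ P, P = Sg + 2 * gg := ⟨_, rfl⟩
    let τ : ℕ → ℤ := fun k => ((k * P + gg : ℕ) : ℤ) * n0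
    let d : ℕ → ℕ := fun k => ((s (τ k) - (k * P : ℕ) * n0) / n0).toNat
    have lk : ∀ σ σ' : ℤ, |σ' - σ| ≤ (Sg / 2 + gg + 1 : ℕ) * n0 →
        (c σ)⁻¹ * c σ' ∈ junc S R Sg π π := by
      intro σ σ' h
      refine link' h1 hS hn0 π π γ _ _ (s σ) (s σ') ?_
      have a1 := abs_le.1 (hs σ)
      have a2 := abs_le.1 (hs σ')
      have a3 := abs_le.1 h
      have a4 : 10 * (Sg / 2 + gg + 1 + 2 * gg) ≤ 7 * Sg := by omega
      have a5 : (10 : ℤ) * ((Sg / 2 + gg + 1 : ℕ) + 2 * gg) ≤ 7 * Sg := by exact_mod_cast a4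
      have a6 : 10 * |s σ' - s σ| ≤ 7 * Sg * n0 := by
        have := mul_le_mul_of_nonneg_right a5 hz.le
        rcases abs_cases (s σ' - s σ) with h | h <;> nlinarith
      have a7 : 10 * |((s σ' - s σ : ℤ) : ℝ)| ≤ 7 * Sg * n0 := by exact_mod_cast a6
      have a8 : R * |((s σ' - s σ : ℤ) : ℝ)| / n0 ≤ R * (7 * Sg / 10) := by
        rw [div_le_iff₀ hn]; nlinarith
      have a9 : (9 : ℝ) * Sg ≤ 10 * T := by exact_mod_cast hT
      have a10 : (30 : ℝ) ≤ Sg := by exact_mod_cast (by omega : 30 ≤ Sg)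
      have b1 := hc σ
      have b2 := hc σ'
      nlinarith
    have hdk : ∀ k, d k ≤ 2 * gg ∧ |((k * P + d k : ℕ) : ℤ) * n0 - s (τ k)| ≤ n0 := by
      intro k
      have a1 := abs_le.1 (hs (τ k))
      have e : τ k = (k * P : ℕ) * n0 + gg * n0 := by simp only [τ]; push_cast; ring
      obtain ⟨y, hy⟩ : ∃ y, y = s (τ k) - (k * P : ℕ) * n0 := ⟨_, rfl⟩
      have y0 : 0 ≤ y := by omega
      have y1 : y ≤ 2 * gg * n0 := by nlinarith
      have q0 : 0 ≤ y / n0 := Int.ediv_nonneg y0 hz.le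
      have q1 : y / n0 ≤ 2 * gg := Int.ediv_le_of_le_mul hz y1
      have q2 := Int.emod_add_ediv_mul y n0
      have q3 := Int.emod_nonneg y hz.ne'
      have q4 := Int.emod_lt_of_pos y hz
      have e2 : (d k : ℤ) = y / n0 := by simp only [d]; rw [← hy, Int.toNat_of_nonneg q0]
      refine ⟨by omega, ?_⟩
      rw [Nat.cast_add, add_mul, e2, abs_le]
      constructor <;> omega
    let j : Fin n → G × ℕ := fun k => ((c (τ k))⁻¹ * c (τ (k + 1)), d k)
    have hj : j ∈ D π := by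
      refine Fintype.mem_piFinset.2 fun k => mem_product.2
        ⟨?_, mem_range.2 (Nat.lt_succ_of_le (hdk k).1)⟩
      have m1 := lk (τ k) (τ k + (Sg / 2 + gg + 1 : ℕ) * n0) (by
        rw [add_sub_cancel_left, abs_of_nonneg (by positivity)])
      have m2 := lk (τ k + (Sg / 2 + gg + 1 : ℕ) * n0) (τ (k + 1)) (by
        have e : τ (k + 1) - (τ k + (Sg / 2 + gg + 1 : ℕ) * n0) =
            ((P : ℤ) - (Sg / 2 + gg + 1 : ℕ)) * n0 := by simp only [τ]; push_cast; ring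
        rw [e, abs_mul, abs_of_pos hz]
        refine mul_le_mul_of_nonneg_right (abs_le.2 ⟨?_, ?_⟩) hz.le <;> omega)
      have := mul_mem_mul m1 m2
      rwa [mul_assoc, mul_inv_cancel_left] at this
    have hB : ∀ k ≤ n, c (τ 0) * pr (fun k => (xt (1, 0) j k).1) k = c (τ k) := by
      intro k
      induction k with
      | zero => intro _; simp [pr]
      | succ k ih =>
        intro hk
        rw [pr, ← mul_assoc, ih (by omega), xt, dif_pos (by omega : k < n)]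
        simp [j]
    refine ⟨mk π j, mem_biUnion.2 ⟨π, hπ, mem_image_of_mem _ hj⟩, c (τ 0), 0, ?_⟩
    rw [fit_cat S R n0 π _ (hd π j hj), ← hPP]
    refine le_trans (by rw [card_range, nsmul_eq_mul])
      (card_nsmul_le_sum _ _ (x - b * R) fun k hk => ?_)
    rw [mem_range] at hk
    rw [hB k hk.le, xt, dif_pos hk]
    have l1 := fit_lip S R n0 (hP π hπ) γ (c (τ k)) (s (τ k)) (((k * P + d k : ℕ) : ℤ) * n0)
    have l2 : |((((k * P + d k : ℕ) : ℤ) * n0 - s (τ k) : ℤ) : ℝ)| ≤ n0 := by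
      exact_mod_cast (hdk k).2
    have l3 : b * R * |((((k * P + d k : ℕ) : ℤ) * n0 - s (τ k) : ℤ) : ℝ)| / n0 ≤ b * R := by
      rw [div_le_iff₀ hn]
      exact mul_le_mul_of_nonneg_left l2 (by positivity)
    have l4 := hc (τ k)
    have l5 := (abs_le.1 (l1.trans l3)).1
    change x - b * R ≤ fit S R n0 Sg π γ (c (τ k)) (((k * P + d k : ℕ) : ℤ) * n0)
    linarith

end Pool.Agent.Lib.MP_7903c7_al.PT
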