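import Pool.Agent.Lib.MP_7903c7_al.PT.Cnt
import Pool.Agent.Lib.MP_7903c7_al.PT.Score
import Pool.Agent.Lib.MP_7903c7_al.PT.Step
import Pool.Agent.Lib.MP_7903c7_al.F.Low

set_option autoImplicit false

/-!
The count of near top patterns with data of low entropy.
-/

namespace Pool.Agent.Lib.MP_7903c7_al.PT

open Finset Pool.Agent.Lib.MP_7903c7_al.RF
open scoped Classical Pointwise

namespace Low

theorem greedy {P Y I : Type} [Fintype I] (PP : Finset P) (hne : PP.Nonempty)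
    (See : P → Finset Y) (y : I → Y) (m nr : ℕ)
    (hnr : ∀ b : ℕ, b * (m + 1) ≤ Fintype.card I → b ≤ nr) :
    ∃ r : Fin nr → P, (∀ k, r k ∈ PP) ∧ ∀ p ∈ PP,
      (univ.filter fun i => y i ∈ See p ∧ y i ∉ univ.biUnion fun k => See (r k)).card ≤ m := by
  obtain ⟨B, hB, hc, hm⟩ := F.Low.greedy PP See y m
  obtain ⟨p0, hp0⟩ := hne
  refine ⟨fun k => if h : (k : ℕ) < B.card then (B.equivFin.symm ⟨k, h⟩ : P) else p0,
    fun k => ?_, fun p hp => (card_le_card fun i hi => ?_).trans (hm p hp)⟩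
  · dsimp only
    split_ifs with h
    · exact hB (B.equivFin.symm ⟨k, h⟩).2
    · exact hp0
  · rw [mem_filter] at hi ⊢
    refine ⟨hi.1, hi.2.1, fun h => hi.2.2 ?_⟩
    obtain ⟨b, hb, h⟩ := mem_biUnion.1 h
    have k := (B.equivFin ⟨b, hb⟩).2
    refine mem_biUnion.2 ⟨⟨B.equivFin ⟨b, hb⟩, k.trans_le (hnr _ hc)⟩, mem_univ _, ?_⟩
    simpa [k] using h

theorem data {V C Y : Type} (Q : Finset V) (A : V → Finset C) (See : V → C → Finset Y)
    (val : V → C → ℕ → ℕ → Y → ℝ) (R : ℝ) (sg J nS nr qf F e m : ℕ) (hF : 0 < F) (he : 0 < e)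
    (hne : ∃ q ∈ Q, (A q).Nonempty) (hnr : ∀ b : ℕ, b * (m + 1) ≤ nS → b ≤ nr)
    (hA : ∀ q, (A q).card ≤ J) (hS : ∀ q c, (See q c).card ≤ sg)
    (h0 : ∀ q c v τ y, 0 ≤ val q c v τ y) (hR : ∀ q c v τ y, val q c v τ y ≤ R)
    (hv : ∀ q c v τ y, val q c v τ y ≠ 0 → y ∈ See q c) :
    ∃ DD : Finset (V → C → ℕ → ℝ),
      DD.card ≤ (Q.card * J) ^ nr * (qf * F * (nr * sg + 1)) ^ nS ∧
      ∀ y : ℕ → Y, ∃ (ft : (Fin nS → Fin (qf * (F * e))) → V → C → ℕ → ℝ)
        (X : V → C → ℕ → Fin nS → Fin (qf * (F * e)) → ℝ),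
        (∀ w, ft w ∈ DD) ∧ (∀ q c v i, ∑ x, X q c v i x = 0) ∧
        (∀ q c v i x, |X q c v i x| ≤ qf * R) ∧
        ∀ w, ∀ q ∈ Q, ∀ c ∈ A q, ∀ v, |ft w q c v -
          (∑ t ∈ range (nS * qf * (F * e)), val q c v (t / e) (y t)) / ((F * e : ℕ) : ℝ) -
          ∑ i, X q c v i (w i)| ≤ m * qf * R := by
  set PP : Finset (V × C) := Q.biUnion fun q => (A q).image fun c => (q, c) with hPP
  set Se : V × C → Finset Y := fun p => See p.1 p.2 with hSe
  have cP : PP.card ≤ Q.card * J := by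
    refine card_biUnion_le.trans ?_
    rw [← smul_eq_mul]
    exact sum_le_card_nsmul _ _ _ fun q _ => card_image_le.trans (hA q)
  have nP : PP.Nonempty := by
    obtain ⟨q, hq, c, hc⟩ := hne
    exact ⟨(q, c), mem_biUnion.2 ⟨q, hq, mem_image_of_mem _ hc⟩⟩
  set ev : (Fin nS → ℕ × Option Y) → V → C → ℕ → ℝ :=
    fun d q c v => ∑ i : Fin nS, (qf : ℝ) * (d i).2.elim 0 (val q c v (i * (qf * F) + (d i).1))
    with hev
  refine ⟨(Fintype.piFinset fun _ : Fin nr => PP).biUnion fun r =>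
    (Fintype.piFinset fun _ : Fin nS =>
      range (qf * F) ×ˢ insertNone (univ.biUnion fun k => Se (r k))).image ev, ?_, fun y => ?_⟩
  · refine card_biUnion_le.trans ((sum_le_card_nsmul _ _
      ((qf * F * (nr * sg + 1)) ^ nS) fun r _ => ?_).trans ?_)
    · refine card_image_le.trans ?_
      rw [Fintype.card_piFinset, prod_const, card_univ, Fintype.card_fin, card_product,
        card_insertNone, card_range]
      have c : (univ.biUnion fun k => Se (r k)).card ≤ nr * sg :=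
        card_biUnion_le.trans ((sum_le_card_nsmul _ _ sg fun p _ => hS _ _).trans (by simp))
      gcongr
    · rw [smul_eq_mul, Fintype.card_piFinset, prod_const, card_univ, Fintype.card_fin]
      gcongr
  have n0 : (0 : ℝ) < ((F * e : ℕ) : ℝ) := by positivity
  choose B hB hm using fun w : Fin nS → Fin (qf * (F * e)) =>
    greedy PP nP Se (fun i : Fin nS => y (i * (qf * (F * e)) + w i)) m nr
      (by rwa [Fintype.card_fin])
  set vl : V → C → ℕ → ℕ → ℝ := fun q c v t => val q c v (t / e) (y t) with hvl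
  have dv : ∀ i x : ℕ, i * (qf * F) + x / e = (i * (qf * (F * e)) + x) / e := fun i x => by
    rw [show i * (qf * (F * e)) + x = x + i * (qf * F) * e by ring, Nat.add_mul_div_right _ _ he,
      add_comm]
  refine ⟨fun w => ev fun i => (w i / e,
      if y (i * (qf * (F * e)) + w i) ∈ univ.biUnion fun k => Se (B w k) then
      some (y (i * (qf * (F * e)) + w i)) else none),
    fun q c v i x => qf * vl q c v (i * (qf * (F * e)) + x) -
      (∑ x' : Fin (qf * (F * e)), vl q c v (i * (qf * (F * e)) + x')) / ((F * e : ℕ) : ℝ),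
    fun w => ?_, fun q c v i => ?_, fun q c v i x => ?_, fun w q hq c hcA v => ?_⟩
  · refine mem_biUnion.2 ⟨B w, Fintype.mem_piFinset.2 (hB w),
      mem_image_of_mem _ (Fintype.mem_piFinset.2 fun i => mem_product.2 ⟨?_, ?_⟩)⟩
    · rw [mem_range]
      refine (Nat.div_lt_iff_lt_mul he).2 ?_
      rw [mul_assoc]
      exact (w i).2
    · rw [mem_insertNone]
      intro a ha
      dsimp only at ha
      split_ifs at ha with h
      · cases ha
        exact h
      · cases ha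
  · rw [sum_sub_distrib, sum_const, card_univ, Fintype.card_fin, ← mul_sum, nsmul_eq_mul,
      Nat.cast_mul qf]
    field_simp
    ring
  · have a1 : (0 : ℝ) ≤ qf * vl q c v (i * (qf * (F * e)) + x) :=
      mul_nonneg (Nat.cast_nonneg _) (h0 _ _ _ _ _)
    have a2 : (qf : ℝ) * vl q c v (i * (qf * (F * e)) + x) ≤ qf * R :=
      mul_le_mul_of_nonneg_left (hR _ _ _ _ _) (Nat.cast_nonneg _)
    have a3 : 0 ≤ (∑ x' : Fin (qf * (F * e)), vl q c v (i * (qf * (F * e)) + x')) /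
        ((F * e : ℕ) : ℝ) := div_nonneg (sum_nonneg fun _ _ => h0 _ _ _ _ _) n0.le
    have a4 : (∑ x' : Fin (qf * (F * e)), vl q c v (i * (qf * (F * e)) + x')) /
        ((F * e : ℕ) : ℝ) ≤ qf * R := by
      rw [div_le_iff₀ n0]
      refine (sum_le_card_nsmul _ _ R fun _ _ => hR _ _ _ _ _).trans (le_of_eq ?_)
      rw [card_univ, Fintype.card_fin, nsmul_eq_mul, Nat.cast_mul qf]
      ring
    rw [abs_le]
    constructor <;> linarith
  · have sb := MP_7903c7_al.F.Low.sum_blocks nS (qf * (F * e)) (vl q c v)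
    rw [← mul_assoc] at sb
    have R0 : 0 ≤ R := (h0 q c v 0 (y 0)).trans (hR _ _ _ _ _)
    have k := hm w (q, c) (mem_biUnion.2 ⟨q, hq, mem_image_of_mem _ hcA⟩)
    rw [show (∑ t ∈ range (nS * qf * (F * e)), val q c v (t / e) (y t)) = _ from sb,
      sum_sub_distrib, sum_div, sub_sub, add_sub_cancel, hev]
    dsimp only
    rw [← sum_sub_distrib]
    refine (abs_sum_le_sum_abs _ _).trans ?_
    calc _ ≤ ∑ i : Fin nS, if y (i * (qf * (F * e)) + w i) ∈ Se (q, c) ∧
            y (i * (qf * (F * e)) + w i) ∉ (univ.biUnion fun k => Se (B w k)) then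
            (qf : ℝ) * R else 0 := by
          refine sum_le_sum fun i _ => ?_
          by_cases h1 : y (i * (qf * (F * e)) + w i) ∈ univ.biUnion fun k => Se (B w k)
          · rw [if_pos h1, Option.elim_some, dv, if_neg fun h => h.2 h1]
            simp [hvl]
          · rw [if_neg h1, Option.elim_none, mul_zero, zero_sub, abs_neg,
              abs_of_nonneg (mul_nonneg (Nat.cast_nonneg _) (h0 _ _ _ _ _))]
            split_ifs with h2
            · exact mul_le_mul_of_nonneg_left (hR _ _ _ _ _) (Nat.cast_nonneg _)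
            · have z : vl q c v (i * (qf * (F * e)) + w i) = 0 := by
                by_contra z
                exact h2 ⟨hv _ _ _ _ _ z, h1⟩
              exact le_of_eq (mul_eq_zero_of_right _ z)
      _ ≤ _ := by
          rw [← sum_filter, sum_const, nsmul_eq_mul, mul_assoc]
          exact mul_le_mul_of_nonneg_right (by exact_mod_cast k)
            (mul_nonneg (Nat.cast_nonneg _) R0)

variable {G : Type} [Group G]

/-- The contribution of a point seen in the time cell `τ` to the fit started in cell `v`. -/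
noncomputable def val (S : Finset G) (R Sg F : ℕ) (π : ℕ → Option G) (c : G) (v τ : ℕ) (y : G) :
    ℝ :=
  if v ≤ τ ∧ (τ - v) / F < Sg then (π ((τ - v) / F)).elim 0 fun x => ph S R (y⁻¹ * c * x) else 0

theorem sum_val (S : Finset G) (R Sg F e W : ℕ) (hF : 0 < F) (he : 0 < e) (π : ℕ → Option G)
    (γ : ℤ → G) (c : G) (t0 : ℤ) (v : ℕ) (hW : v * e + Sg * (F * e) ≤ W) :
    (∑ t ∈ range W, val S R Sg F π c v (t / e) (γ (t0 + t))) / ((F * e : ℕ) : ℝ) =
      fit S R (F * e) Sg π γ c (t0 + v * e) := by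
  obtain ⟨W', rfl⟩ := Nat.exists_eq_add_of_le hW
  have dv : ∀ x, (v * e + x) / e - v = x / e := fun x => by
    rw [add_comm, Nat.add_mul_div_right _ _ he, Nat.add_sub_cancel]
  have le : ∀ x, v ≤ (v * e + x) / e := fun x => by
    rw [add_comm, Nat.add_mul_div_right _ _ he]
    exact Nat.le_add_left _ _
  rw [fit, add_assoc, sum_range_add, sum_range_add, sum_eq_zero, zero_add,
    sum_eq_zero (s := range W'), add_zero, MP_7903c7_al.F.Low.sum_blocks,
    Fin.sum_univ_eq_sum_range (fun i => ∑ x : Fin (F * e), val S R Sg F π c v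
      ((v * e + (i * (F * e) + x)) / e) (γ (t0 + (v * e + (i * (F * e) + x) : ℕ))))]
  · congr 1
    refine sum_congr rfl fun x hx => ?_
    rw [Fin.sum_univ_eq_sum_range (fun u => val S R Sg F π c v
      ((v * e + (x * (F * e) + u)) / e) (γ (t0 + (v * e + (x * (F * e) + u) : ℕ))))]
    refine sum_congr rfl fun u hu => ?_
    have d : (x * (F * e) + u) / e / F = x := by
      rw [Nat.div_div_eq_div_mul, mul_comm e F, add_comm,
        Nat.add_mul_div_right _ _ (Nat.mul_pos hF he), Nat.div_eq_of_lt (mem_range.1 hu), zero_add]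
    rw [val, dv, d, if_pos ⟨le _, mem_range.1 hx⟩]
    congr 4
    push_cast
    ring_nf
  · intro x _
    rw [val, dv, if_neg]
    rintro ⟨-, h⟩
    rw [Nat.div_div_eq_div_mul, mul_comm e F, add_comm,
      Nat.add_mul_div_right _ _ (Nat.mul_pos hF he)] at h
    exact absurd h (not_lt.2 (Nat.le_add_left _ _))
  · intro x hx
    rw [val, if_neg]
    rintro ⟨h, -⟩
    exact absurd ((Nat.div_lt_iff_lt_mul he).2 (mem_range.1 hx)) (not_lt.2 h)

end Low

variable {G : Type} [Group G]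

theorem count_low {S : Finset G} (h1 : (1 : G) ∈ S) (hS : ∀ s ∈ S, s⁻¹ ∈ S) {k0 R ns nr s : ℕ}
    (hK : S.card ≤ 2 ^ k0) (l : Lev) (hW : NumW k0 R l) (hC : NumC l)
    (hL : NumL k0 R ns nr s l) (Q : Finset (ℕ → Option G)) (hQ : Q.card ≤ 2 ^ l.h)
    (hP : ∀ π ∈ Q, Pat l.Sg l.T l.b π) (n0 : ℕ) (hn0 : 0 < n0) (hd : l.F ∣ n0) :
    ∃ δ : (ℕ → Option G) → ℝ, (∀ π, 0 ≤ δ π ∧ δ π ≤ l.u * l.Y) ∧
      ∀ (γ : ℤ → G) (t0 : ℤ) (a : ℝ), 29 * R * l.T / 30 ≤ a →
        (∀ π ∈ Q, ∀ σ, sc S R n0 l.Sg l.β π γ σ + δ π ≤ a) →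
        cnt S R n0 l.Sg l.β Q δ γ l.gg l.ρ a t0 ≤ s := by
  obtain ⟨e, rfl⟩ := hd
  have he : 0 < e := Nat.pos_of_mul_pos_left hn0
  have hF := hC.hF
  have hβ := hW.hβ
  have hu := hC.hu
  have hρ := hW.hρ
  have hSg : 0 < l.Sg := by have := hW.hg; have := hW.hg'; omega
  have hR : (0 : ℝ) < R := by exact_mod_cast hW.hR
  have hq : (0 : ℝ) < l.q := by exact_mod_cast hC.hq
  have hbq : 0 < l.β * l.q * R := by positivity
  have hKR : ∀ j, S.card ^ j ≤ 2 ^ (k0 * j) := fun j => by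
    rw [pow_mul]
    exact Nat.pow_le_pow_left hK _
  have hJ : ∀ π π' : ℕ → Option G,
      (junc S R l.Sg π π').card ≤ l.Sg ^ 2 * 2 ^ (2 * k0 * R) := fun π π' =>
    (card_junc S R l.Sg π π').trans (Nat.mul_le_mul_left _
      ((hKR _).trans (le_of_eq (by ring_nf))))
  rcases Q.eq_empty_or_nonempty with rfl | ⟨π0, hπ0⟩
  · exact ⟨fun _ => 0, fun _ => ⟨le_rfl, by positivity⟩, fun _ _ _ _ _ => by simp [cnt]⟩
  set m := ⌊1 / (l.β * l.q * R)⌋₊ with hm
  have key := fun π1 : ℕ → Option G => Low.data Q (junc S R l.Sg π1)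
    (fun π c => (range l.Sg ×ˢ (S ^ R)).image fun p => c * (π p.1).getD 1 * p.2⁻¹)
    (Low.val S R l.Sg l.F) R (l.Sg * 2 ^ (k0 * R)) (l.Sg ^ 2 * 2 ^ (2 * k0 * R)) ns nr l.q l.F e m
    hF he ⟨π0, hπ0, Nonempty.image ⟨((0, 0), 1), by
      simp only [mem_product, mem_range, hSg, true_and]
      exact one_mem_pow h1⟩ _⟩
    (fun b hb => by
      have a1 : 1 / (l.β * l.q * R) < m + 1 := Nat.lt_floor_add_one _
      have a2 : (b : ℝ) * (m + 1) ≤ ns := by exact_mod_cast hb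
      rw [div_lt_iff₀ hbq] at a1
      have a3 := hL.hnr
      have b0 : (0 : ℝ) ≤ b := Nat.cast_nonneg _
      have : (b : ℝ) ≤ nr := by nlinarith [mul_le_mul_of_nonneg_left a2 hbq.le]
      exact_mod_cast this)
    (hJ π1)
    (fun π c => card_image_le.trans (by
      rw [card_product, card_range]
      exact Nat.mul_le_mul_left _ (card_pow_le.trans (hKR _))))
    (fun π c v τ y => by
      unfold Low.val
      split_ifs
      · cases π ((τ - v) / l.F) <;> simp [ph_nonneg]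
      · exact le_rfl)
    (fun π c v τ y => by
      unfold Low.val
      split_ifs
      · cases π ((τ - v) / l.F) <;> simp [ph_le]
      · exact hR.le)
    (fun π c v τ y h => by
      unfold Low.val at h
      split_ifs at h with h'
      · cases hx : π ((τ - v) / l.F) with
        | none => simp [hx] at h
        | some x =>
          rw [hx, Option.elim_some] at h
          refine mem_image.2 ⟨((τ - v) / l.F, y⁻¹ * c * x), mem_product.2 ⟨mem_range.2 h'.2, ?_⟩, ?_⟩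
          · have := ph_mem h1 h
            rwa [← coe_pow, mem_coe] at this
          · simp only [hx, Option.getD_some]
            group
      · exact absurd rfl h)
  choose DD cD hD using key
  set ng := ⌊2 * R * l.T / l.u + 1⌋₊ + 1 with hng
  set 𝒟 : Finset ((ℕ → Option G) × ((ℕ → Option G) → G → ℕ → ℝ) × ℕ) :=
    Q.biUnion fun π1 => (DD π1 ×ˢ range ng).image fun p => (π1, p) with h𝒟
  have c𝒟 : (𝒟.card : ℝ) * (3 * (l.h + 1)) < 2 ^ s := by
    have c1 : 𝒟.card ≤ 2 ^ l.h * (((2 ^ l.h * l.Sg ^ 2 * 2 ^ (2 * k0 * R)) ^ nr *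
        (l.q * l.F * (nr * l.Sg * 2 ^ (k0 * R) + 1)) ^ ns) * ng) := by
      refine card_biUnion_le.trans ((sum_le_card_nsmul _ _ _ fun π1 _ => ?_).trans
        (Nat.mul_le_mul_right _ hQ))
      refine card_image_le.trans ?_
      rw [card_product, card_range]
      refine Nat.mul_le_mul_right _ ((cD π1).trans ?_)
      rw [mul_assoc (2 ^ l.h), mul_assoc nr]
      gcongr
    have c2 : (ng : ℝ) ≤ 3 * R * l.T / l.u + 2 := by
      have p : (0 : ℝ) ≤ R * l.T / l.u := by positivity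
      have := Nat.floor_le (a := 2 * R * l.T / l.u + 1) (by positivity)
      rw [hng]
      push_cast
      have e1 : 2 * (R : ℝ) * l.T / l.u = 2 * (R * l.T / l.u) := by ring
      have e2 : 3 * (R : ℝ) * l.T / l.u = 3 * (R * l.T / l.u) := by ring
      linarith
    refine lt_of_le_of_lt ?_ hL.hs
    have c3 : (𝒟.card : ℝ) ≤ _ := Nat.cast_le.2 c1
    push_cast at c3
    calc _ ≤ 2 ^ l.h * (((2 ^ l.h * l.Sg ^ 2 * 2 ^ (2 * k0 * R)) ^ nr *
        (l.q * l.F * (nr * l.Sg * 2 ^ (k0 * R) + 1)) ^ ns : ℝ) * (3 * R * l.T / l.u + 2)) *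
          (3 * (l.h + 1)) := by
          refine mul_le_mul_of_nonneg_right (c3.trans ?_) (by positivity)
          gcongr
      _ = _ := by ring
  set f0 : ℝ := (2 * 2 ^ (k0 * R) + 1) * Real.exp (l.β * (R * l.T / 2)) with hf0
  have f00 : 0 < f0 := by positivity
  obtain ⟨δ, hδ, H⟩ := count_abs l hC hβ Q hQ 𝒟 (fun _ => s) (fun d => junc S R l.Sg d.1)
    (fun d => d.2.1) (fun d => d.2.2 * l.u) f0 f00 (l.gg * l.F + 1) hL.hnt (by
      have z : (1920 : ℝ) ≤ l.z := by exact_mod_cast hL.hz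
      have p : (2 : ℝ) ^ s ≤ (1 + l.z / 128 : ℝ) ^ ((s : ℝ) / 4) := by
        calc (2 : ℝ) ^ s = ((2 : ℝ) ^ (4 : ℝ)) ^ ((s : ℝ) / 4) := by
              rw [← Real.rpow_mul (by norm_num), ← Real.rpow_natCast]
              congr 1
              ring
          _ ≤ _ := Real.rpow_le_rpow (by positivity) (by norm_num; linarith) (by positivity)
      rw [sum_const, nsmul_eq_mul, ← mul_div_assoc, div_lt_one (by positivity)]
      exact c𝒟.trans_le p)
  refine ⟨δ, hδ, fun γ0 t0 a ha htop0 => ?_⟩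
  rcases Nat.eq_zero_or_pos (cnt S R (l.F * e) l.Sg l.β Q δ γ0 l.gg l.ρ a t0) with h | h
  · omega
  obtain ⟨π1, h⟩ := card_pos.1 h
  obtain ⟨hπ1, σ1, hσ1, h⟩ := mem_filter.1 h
  have hl := hW.hl
  rw [Lev.loss] at hl
  have hY : 0 ≤ l.u * l.Y := by positivity
  have hRT : (0 : ℝ) ≤ R * l.T := by positivity
  obtain ⟨c1, hc1⟩ := exists_fit h1 (l.F * e) hK hβ (hP π1 hπ1) γ0 σ1 (x := a - l.ρ - l.u * l.Y)
    (by linarith [(hδ π1).2]) (by linarith)
  have haU := sc_le h1 (l.F * e) hK hβ (hP π1 hπ1) γ0 σ1 (R := R)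
  set γ : ℤ → G := fun t => c1⁻¹ * γ0 t with hγ
  have hsc : ∀ π σ, sc S R (l.F * e) l.Sg l.β π γ0 σ = sc S R (l.F * e) l.Sg l.β π γ σ :=
    fun π σ => (sc_mul S R _ _ _ π γ0 c1⁻¹ σ).symm
  have hc : fit S R (l.F * e) l.Sg π1 γ 1 σ1 = fit S R (l.F * e) l.Sg π1 γ0 c1 σ1 := by
    rw [← fit_mul S R _ _ π1 γ0 c1⁻¹ c1 σ1, inv_mul_cancel]
  have n0 : (0 : ℝ) < ((l.F * e : ℕ) : ℝ) := by positivity
  have hA : ∀ π ∈ Q, ∀ σ : ℤ, t0 ≤ σ → σ ≤ t0 + l.gg * (l.F * e : ℕ) → ∀ c,
      (R : ℝ) * l.T / 2 < fit S R (l.F * e) l.Sg π γ c σ → c ∈ junc S R l.Sg π1 π := by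
    intro π hπ σ s1 s2 c hc'
    have k := link h1 hS hn0 (hP π1 hπ1) (hP π hπ) γ 1 c σ1 σ (by
      rw [mem_Ico] at hσ1
      have d : |σ - σ1| ≤ l.gg * (l.F * e : ℕ) := abs_le.2 ⟨by linarith, by linarith⟩
      have d' : |((σ - σ1 : ℤ) : ℝ)| ≤ l.gg * ((l.F * e : ℕ) : ℝ) := by exact_mod_cast d
      have d'' : R * |((σ - σ1 : ℤ) : ℝ)| / ((l.F * e : ℕ) : ℝ) ≤ R * l.gg := by
        rw [div_le_iff₀ n0, mul_assoc]
        exact mul_le_mul_of_nonneg_left d' hR.le
      have t1 : (9 : ℝ) * l.Sg ≤ 10 * l.T := by exact_mod_cast hW.hT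
      have t2 : (30 : ℝ) * l.gg ≤ l.Sg := by exact_mod_cast hW.hg'
      rw [hc]
      nlinarith [mul_le_mul_of_nonneg_left t1 hR.le, mul_le_mul_of_nonneg_left t2 hR.le])
    rwa [inv_one, one_mul] at k
  have hnA : ∀ π, ((junc S R l.Sg π1 π).card : ℝ) ≤ l.Sg ^ 2 * 2 ^ (2 * k0 * R) := fun π => by
    exact_mod_cast hJ π1 π
  obtain ⟨ft, X, m1, m2, m3, m4⟩ := hD π1 fun t => γ (t0 + t)
  have ib : 0 < 1 / l.β := by positivity
  have i2 : 2 / l.β = 2 * (1 / l.β) := by ring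
  have hρu := hC.hρu
  have ha0 : 0 ≤ (a + 1 / l.β) / l.u := div_nonneg (by linarith) hu.le
  have mem : ∀ w, (π1, ft w, ⌊(a + 1 / l.β) / l.u⌋₊) ∈ 𝒟 := fun w => by
    refine mem_biUnion.2 ⟨π1, hπ1, mem_image_of_mem _ (mem_product.2 ⟨m1 w, mem_range.2 ?_⟩)⟩
    refine Nat.lt_succ_of_le (Nat.floor_le_floor ?_)
    rw [div_add_one hu.ne']
    refine div_le_div_of_nonneg_right ?_ hu.le
    linarith [(hδ π1).2]
  have : Nonempty (Fin (l.q * (l.F * e))) := ⟨⟨0, Nat.mul_pos hC.hq hn0⟩⟩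
  have s0 : (0 : ℝ) < s := by
    have c1 : (1 : ℝ) ≤ 𝒟.card := by
      exact_mod_cast card_pos.2 ⟨_, mem fun _ => Classical.arbitrary _⟩
    rcases Nat.eq_zero_or_pos s with rfl | h
    · have : (0 : ℝ) ≤ l.h := Nat.cast_nonneg _
      nlinarith
    · exact_mod_cast h
  have net : ∀ v < l.gg * l.F + 1, t0 ≤ t0 + (v : ℤ) * e ∧
      t0 + (v : ℤ) * e ≤ t0 + l.gg * (l.F * e : ℕ) := fun v hv => by
    have : v * e ≤ l.gg * (l.F * e) := by
      rw [← mul_assoc]
      exact Nat.mul_le_mul_right _ (Nat.lt_succ_iff.1 hv)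
    exact ⟨le_add_of_nonneg_right (by positivity), add_le_add_right (by exact_mod_cast this) _⟩
  have fin := H (Fin ns) (fun _ => Fin (l.q * (l.F * e))) (junc S R l.Sg π1)
    (fun π c v => fit S R (l.F * e) l.Sg π γ c (t0 + v * e)) X (fun _ => l.q * R)
    (fun w => (π1, ft w, ⌊(a + 1 / l.β) / l.u⌋₊)) (a + 1 / l.β) s s0
    (fun π _ c _ v _ i => ⟨m2 π c v i, m3 π c v i⟩)
    (by
      rw [sum_const, card_univ, Fintype.card_fin, nsmul_eq_mul]
      exact hL.hV)
    (fun w => by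
      refine ⟨mem w, rfl, ?_, ?_, fun π hπ => ⟨rfl, fun c hc v hv => ?_⟩⟩
      · have := Nat.lt_floor_add_one ((a + 1 / l.β) / l.u)
        rw [div_lt_iff₀ hu] at this
        dsimp only
        linarith
      · exact (le_div_iff₀ hu).1 (Nat.floor_le ha0)
      · have k := m4 w π hπ c hc v
        rw [Low.sum_val S R l.Sg l.F e _ hF he π γ c t0 v (by
          have a1 : v * e ≤ l.gg * l.F * e := Nat.mul_le_mul_right _ (Nat.lt_succ_iff.1 hv)
          have a2 := Nat.mul_le_mul_right (l.F * e) hL.hns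
          nlinarith)] at k
        refine k.trans ?_
        have := Nat.floor_le (a := 1 / (l.β * l.q * R)) (by positivity)
        rw [le_div_iff₀ hbq] at this
        rw [le_div_iff₀ hβ]
        linarith)
    (fun π hπ v hv => by
      have k := (sc_lse h1 (l.F * e) hK hβ (hP π hπ) γ (t0 + v * e) _
        (hA π hπ _ (net v hv).1 (net v hv).2) (hnA π)).2
      have k1 := htop0 π hπ (t0 + v * e)
      have k2 := hL.hfl
      rw [mul_assoc 2 ((l.Sg : ℝ) ^ 2)] at k2
      rw [hsc] at k1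
      rcases le_max_iff.1 k with k | k
      · linarith
      · linarith [(hδ π).2])
  refine Nat.cast_le.1 (le_of_lt (lt_of_le_of_lt (Nat.cast_le.2 (card_le_card fun π hπ => ?_)) fin))
  obtain ⟨hπ, σ, hσ, h⟩ := mem_filter.1 hπ
  rw [mem_Ico] at hσ
  obtain ⟨d, rfl⟩ := Int.le.dest hσ.1
  have hd : d < l.gg * (l.F * e) := by
    have := hσ.2
    exact_mod_cast lt_of_add_lt_add_left this
  refine mem_filter.2 ⟨hπ, d / e, ?_, ?_⟩
  · refine Nat.lt_succ_of_lt ((Nat.div_lt_iff_lt_mul he).2 ?_)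
    rwa [mul_assoc]
  · have k := (sc_lse h1 (l.F * e) hK hβ (hP π hπ) γ (t0 + d) _
      (hA π hπ _ hσ.1 hσ.2.le) (hnA π)).1
    have k' := lse_lip hβ f00 ib.le (junc S R l.Sg π1 π)
      (f := fun c => fit S R (l.F * e) l.Sg π γ c (t0 + d))
      (f' := fun c => fit S R (l.F * e) l.Sg π γ c (t0 + (d / e : ℕ) * e)) (fun c _ => by
        have j := fit_lip' S R (l.F * e) l.Sg π γ c (t0 + (d / e : ℕ) * e) (t0 + d)
        have j1 : |t0 + d - (t0 + (d / e : ℕ) * e)| ≤ (e : ℤ) := by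
          have b1 := Nat.div_add_mod d e
          have b2 := Nat.mod_lt d he
          have b3 : (d : ℤ) = (d / e : ℕ) * e + (d % e : ℕ) := by
            rw [mul_comm]
            exact_mod_cast b1.symm
          rw [abs_le]
          constructor <;> omega
        have j2 : |((t0 + d - (t0 + (d / e : ℕ) * e) : ℤ) : ℝ)| ≤ e := by exact_mod_cast j1
        have j3 : l.Sg * R * |((t0 + d - (t0 + (d / e : ℕ) * e) : ℤ) : ℝ)| /
            ((l.F * e : ℕ) : ℝ) ≤ 1 / l.β := by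
          rw [div_le_div_iff₀ n0 hβ]
          have j4 := mul_le_mul_of_nonneg_right hL.hF (Nat.cast_nonneg (α := ℝ) e)
          have j5 := mul_le_mul_of_nonneg_left j2 (by positivity : 0 ≤ l.β * l.Sg * R)
          push_cast at j4 j5 ⊢
          linarith
        linarith [le_abs_self (fit S R (l.F * e) l.Sg π γ c (t0 + d) -
          fit S R (l.F * e) l.Sg π γ c (t0 + (d / e : ℕ) * e))])
    rw [hsc] at h
    linarith

end Pool.Agent.Lib.MP_7903c7_al.PT
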