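import Pool.Agent.Lib.MP_7903c7_al.PT.Defs

set_option autoImplicit false

/-!
The schedule of the numbers of all levels.
-/

namespace Pool.Agent.Lib.MP_7903c7_al.PT

open Finset
open scoped Classical

namespace Sch

/-- The numbers of a level with `T = w ^ 30`. -/
noncomputable def lv (w d K Sg gg h b : ℕ) (Φ : ℝ) : Lev where
  Sg := Sg
  T := w ^ 30
  b := b
  h := h
  gg := gg
  q := w ^ 2
  F := w ^ 14
  nt := w ^ 75
  z := w
  Y := 4 * w * h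
  β := ((w : ℝ) ^ 17)⁻¹
  u := (w : ℝ) ^ 18
  ρ := 1
  θ := 8 * K / d
  Φ := Φ

/-- The standing inequalities. -/
structure Ok (k0 K R w d Sg gg : ℕ) : Prop where
  hK : K = k0 + 10
  hw : w = 2 ^ d
  hd : 10 ^ 8 * K ≤ d
  hR : 0 < R
  hR' : R ≤ w ^ 31
  hS : w ^ 30 ≤ Sg
  hS' : 9 * Sg ≤ 10 * w ^ 30
  hg : 0 < gg
  hg' : 128 * gg ≤ w ^ 30

theorem sq2 {d : ℕ} (hd : 4 ≤ d) : d * d ≤ 2 ^ d := by
  induction d, hd using Nat.le_induction with
  | base => norm_num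
  | succ d hd ih => rw [pow_succ]; nlinarith

theorem log_le {x : ℝ} {a : ℕ} (hx : 0 < x) (h : x ≤ 2 ^ a) : Real.log x ≤ a := by
  refine (Real.log_le_log hx h).trans ?_
  rw [Real.log_pow]
  have := Real.log_two_lt_d9
  have h0 : (0 : ℝ) ≤ a := Nat.cast_nonneg a
  nlinarith

variable {k0 K R w d Sg gg : ℕ}

theorem Ok.big (H : Ok k0 K R w d Sg gg) : 10 ^ 8 * K * d ≤ w := by
  have h1 := H.hK
  have h2 := H.hd
  rw [H.hw]
  exact (Nat.mul_le_mul_right d h2).trans (sq2 (by omega))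

theorem Ok.bd (H : Ok k0 K R w d Sg gg) : 10 ^ 9 * d ≤ w := by
  refine le_trans (Nat.mul_le_mul_right d ?_) H.big
  have := H.hK
  omega

theorem Ok.bK (H : Ok k0 K R w d Sg gg) : 10 ^ 8 * K ≤ w := by
  have h1 := H.bd
  have h2 := H.hd
  omega

theorem Ok.b9 (H : Ok k0 K R w d Sg gg) : 10 ^ 9 ≤ w := by
  have h1 := H.bK
  have h2 := H.hK
  omega

theorem Ok.pw (H : Ok k0 K R w d Sg gg) {a b : ℕ} (h : a ≤ b) : w ^ a ≤ w ^ b :=
  Nat.pow_le_pow_right (by have := H.b9; omega) h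

theorem Ok.up (H : Ok k0 K R w d Sg gg) (c a b : ℕ) (hc : c ≤ 10 ^ 9)
    (hab : a + 1 ≤ b) : c * w ^ a ≤ w ^ b := by
  refine le_trans ?_ (H.pw hab)
  rw [pow_succ']; exact Nat.mul_le_mul_right _ (hc.trans H.b9)

theorem Ok.p1 (H : Ok k0 K R w d Sg gg) (a : ℕ) : 1 ≤ w ^ a :=
  Nat.one_le_pow _ _ (by have := H.b9; omega)

theorem Ok.two (H : Ok k0 K R w d Sg gg) (a : ℕ) : w ^ a = 2 ^ (a * d) := by
  rw [H.hw, ← pow_mul, mul_comm]

theorem Ok.s31 (H : Ok k0 K R w d Sg gg) : Sg ≤ w ^ 31 := by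
  have h1 := H.hS'
  have h2 := H.up 2 30 31 (by norm_num) (by norm_num)
  omega

theorem Ok.w0 (H : Ok k0 K R w d Sg gg) : (0 : ℝ) < w := by
  have := H.b9
  exact_mod_cast (by omega : 0 < w)

/-- a logarithm below `2 h0`, times `w ^ 17`, plus the label range -/
theorem Ok.fl (H : Ok k0 K R w d Sg gg) {h a : ℕ} (hh : h ≤ 1000 * (K * R) * w ^ 10)
    (ha : a ≤ 2 * (1000 * (K * R) * w ^ 10)) {x : ℝ} (hx : 0 < x) (hxa : x ≤ 2 ^ a) :
    Real.log x / ((w : ℝ) ^ 17)⁻¹ + (w : ℝ) ^ 18 * (4 * w * h : ℕ) + 3 ≤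
      5000 * K * R * (w : ℝ) ^ 29 := by
  have h1 : a * w ^ 17 + w ^ 18 * (4 * w * h) + 3 ≤ 5000 * K * R * w ^ 29 := by
    have e1 : a * w ^ 17 ≤ 2000 * (K * R * w ^ 27) := by
      refine (Nat.mul_le_mul_right _ ha).trans (le_of_eq ?_); ring
    have e2 : w ^ 18 * (4 * w * h) ≤ 4000 * (K * R * w ^ 29) := by
      refine (Nat.mul_le_mul_left _ (Nat.mul_le_mul_left _ hh)).trans (le_of_eq ?_); ring
    have e3 : K * R * (4 * w ^ 27) ≤ K * R * w ^ 29 :=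
      Nat.mul_le_mul_left _ (H.up 4 27 29 (by norm_num) (by norm_num))
    have e4 : 1 ≤ K * R * w ^ 29 := by
      have := H.hK
      have := H.hR
      have := H.p1 29
      exact Nat.mul_pos (Nat.mul_pos (by omega) (by omega)) (by omega)
    have e5 : K * R * (4 * w ^ 27) = 4 * (K * R * w ^ 27) := by ring
    have e6 : 5000 * K * R * w ^ 29 = 5000 * (K * R * w ^ 29) := by ring
    omega
  have h2 : (a : ℝ) * (w : ℝ) ^ 17 + (w : ℝ) ^ 18 * (4 * w * h : ℕ) + 3 ≤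
      5000 * K * R * (w : ℝ) ^ 29 := by exact_mod_cast h1
  rw [div_inv_eq_mul]
  have h3 := mul_le_mul_of_nonneg_right (log_le hx hxa) (pow_pos H.w0 17).le
  linarith

theorem Ok.kr (H : Ok k0 K R w d Sg gg) : k0 * R + 1000 * d ≤ 1000 * (K * R) * w ^ 10 := by
  have h1 : k0 * R ≤ K * R * w ^ 10 := by
    refine le_trans (Nat.mul_le_mul_right R (by have := H.hK; omega : k0 ≤ K)) ?_
    exact Nat.le_mul_of_pos_right _ (H.p1 10)
  have h2 : w ^ 1 ≤ K * R * w ^ 10 := by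
    refine (H.pw (by norm_num : 1 ≤ 10)).trans (Nat.le_mul_of_pos_left _ ?_)
    exact Nat.mul_pos (by have := H.hK; omega) H.hR
  have h3 := H.bd
  have e : 1000 * (K * R) * w ^ 10 = 1000 * (K * R * w ^ 10) := by ring
  rw [pow_one] at h2
  omega

theorem Ok.loss (H : Ok k0 K R w d Sg gg) {h : ℕ} (hh : h ≤ 1000 * (K * R) * w ^ 10) (b : ℕ)
    (Φ : ℝ) : (lv w d K Sg gg h b Φ).loss k0 R ≤ 5000 * K * R * (w : ℝ) ^ 29 := by
  have h1 := H.kr
  have h2 := H.hd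
  have h3 := H.hK
  have := H.fl hh (a := k0 * R + 3) (by omega) (x := 6 * 2 ^ (k0 * R)) (by positivity)
    (by rw [pow_add]; have : (0 : ℝ) < 2 ^ (k0 * R) := by positivity
        linarith)
  simp only [Lev.loss, lv]
  linarith

theorem Ok.small (H : Ok k0 K R w d Sg gg) :
    5000 * K * R * (w : ℝ) ^ 29 ≤ R * (w : ℝ) ^ 30 / 100 := by
  have h1 : (10 : ℝ) ^ 8 * K ≤ w := by exact_mod_cast H.bK
  have h2 : (0 : ℝ) ≤ R * (w : ℝ) ^ 29 := by positivity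
  have h3 := mul_le_mul_of_nonneg_right h1 h2
  have h4 : (0 : ℝ) ≤ K * (R * (w : ℝ) ^ 29) := by positivity
  have e : R * (w : ℝ) ^ 30 = w * (R * (w : ℝ) ^ 29) := by ring
  rw [e]
  nlinarith

theorem Ok.numW (H : Ok k0 K R w d Sg gg) {h : ℕ} (hh : h ≤ 1000 * (K * R) * w ^ 10) (b : ℕ)
    {Φ : ℝ} (hΦ : Φ ≤ R / 30) : NumW k0 R (lv w d K Sg gg h b Φ) where
  hR := H.hR
  hβ := inv_pos.2 (pow_pos H.w0 _)
  hu := (pow_pos H.w0 _).le
  hρ := one_pos
  hg := H.hg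
  hT := H.hS'
  hT' := H.hS
  hg' := by
    have h1 := H.hg'
    have h2 := H.hS
    simp only [lv]
    omega
  hΦ := hΦ
  hl := (H.loss hh b Φ).trans (by simpa [lv] using H.small)

theorem Ok.numC (H : Ok k0 K R w d Sg gg) (b : ℕ) (Φ : ℝ) :
    NumC (lv w d K Sg gg (1000 * (K * R) * w ^ 10) b Φ) where
  hu := pow_pos H.w0 _
  hz := le_trans (by norm_num) H.b9
  hz' := by
    have h1 := H.kr
    exact H.hw.le.trans (Nat.pow_le_pow_right (by norm_num) (by simp only [lv]; omega))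
  hY := le_rfl
  hnt := H.p1 75
  hβu := by
    have h0 := H.w0
    have h1 : (80 * w ^ 75 : ℕ) ≤ 2 ^ (76 * d) := (H.up 80 75 76 (by norm_num) (by norm_num)).trans (H.two 76).le
    have h2 := log_le (x := 80 * ((w ^ 75 : ℕ) : ℝ)) (a := 76 * d) (by push_cast; positivity)
      (by exact_mod_cast h1)
    have h3 : ((76 * d : ℕ) : ℝ) ≤ w := by have := H.bd; exact_mod_cast (by omega)
    have e : ((w : ℝ) ^ 17)⁻¹ * (w : ℝ) ^ 18 = w := by field_simp
    simp only [lv]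
    rw [e]
    exact h2.trans h3
  hρu := by
    have h1 : 1 + 2 * w ^ 17 ≤ w ^ 18 := by
      have := H.up 3 17 18 (by norm_num) (by norm_num)
      have := H.p1 17
      omega
    simp only [lv]
    rw [div_inv_eq_mul]
    exact_mod_cast h1
  hq := H.p1 2
  hF := H.p1 14

theorem Ok.numF (H : Ok k0 K R w d Sg gg) (b : ℕ) (Φ : ℝ) :
    NumF k0 R (lv w d K Sg gg (1000 * (K * R) * w ^ 10) b Φ) := by
  have h0 := H.w0
  have hd : (0 : ℝ) < d := by
    have h1 := H.hd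
    have h2 := H.hK
    exact_mod_cast (by omega : 0 < d)
  have hK : (10 : ℝ) ≤ K := by have := H.hK; exact_mod_cast (by omega)
  have hdw : (d : ℝ) ≤ w := by have := H.bd; exact_mod_cast (by omega)
  have hsg : Sg + gg ≤ 2 * w ^ 30 := by
    have h1 := H.hg'
    have h2 := H.hS'
    omega
  have hsg' : (Sg : ℝ) + gg ≤ 2 * (w : ℝ) ^ 30 := by exact_mod_cast hsg
  have h44 : w ^ 44 ≤ 2 ^ Sg := by
    rw [H.two]
    refine Nat.pow_le_pow_right (by norm_num) ?_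
    have h1 := H.bd
    have h2 := H.hS
    have h3 := H.pw (by norm_num : 1 ≤ 30)
    rw [pow_one] at h3
    omega
  constructor <;> simp only [lv]
  · have h1 : w ^ 1 ≤ Sg := (H.pw (by norm_num)).trans H.hS
    have h2 : (w : ℝ) ≤ Sg := by exact_mod_cast (by simpa using h1)
    have h3 : (0 : ℝ) ≤ gg := Nat.cast_nonneg _
    rw [div_mul_eq_mul_div, le_div_iff₀ hd]
    nlinarith
  · have h1 : 16 * w ^ 2 * (Sg + gg) ≤ w ^ 34 := by
      refine (Nat.mul_le_mul_left _ hsg).trans ?_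
      refine le_trans (le_of_eq ?_) (H.up 32 32 34 (by norm_num) (by norm_num))
      ring
    rw [inv_pow, inv_mul_le_iff₀ (by positivity), mul_one, ← pow_mul]
    exact_mod_cast h1
  · have h1 : 2 * w ^ 16 + 1 ≤ w ^ 17 := by
      have := H.up 3 16 17 (by norm_num) (by norm_num)
      have := H.p1 16
      omega
    have h2 : 2 * (w : ℝ) ^ 16 + 1 ≤ (w : ℝ) ^ 17 := by exact_mod_cast h1
    have h3 : ((Sg : ℝ) + gg) / ((w ^ 14 : ℕ) : ℝ) ≤ 2 * (w : ℝ) ^ 16 := by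
      push_cast
      rw [div_le_iff₀ (by positivity)]
      refine hsg'.trans (le_of_eq ?_); ring
    rw [inv_mul_le_iff₀ (by positivity), mul_one]
    linarith
  · have h1 : w ^ 14 + 1 ≤ w ^ 15 := by
      have := H.up 2 14 15 (by norm_num) (by norm_num)
      have := H.p1 14
      omega
    refine (Nat.mul_le_mul_left _ h1).trans ?_
    rw [← pow_add, H.two]
    refine Nat.pow_le_pow_right (by norm_num) ?_
    have h2 := H.bd
    have h3 := H.pw (by norm_num : 1 ≤ 2)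
    rw [pow_one] at h3
    omega
  · exact (H.pw (by norm_num)).trans H.hS
  · have h1 : 2 * Sg * R * gg ≤ w ^ 17 * w ^ 75 := by
      have a1 : 2 * gg ≤ w ^ 30 := by have := H.hg'; omega
      refine le_trans (le_of_eq (by ring)) ((Nat.mul_le_mul (Nat.mul_le_mul H.s31 H.hR') a1).trans
        (le_of_eq (by ring)))
    have h2 : 2 * (Sg : ℝ) * R * gg ≤ (w : ℝ) ^ 17 * ((w ^ 75 : ℕ) : ℝ) := by exact_mod_cast h1
    rw [← inv_mul_le_iff₀ (by positivity)] at h2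
    refine le_trans (le_of_eq ?_) h2
    ring
  · set h := 1000 * (K * R) * w ^ 10 with hh
    have h1 := H.kr
    have hA : (1 : ℝ) ≤ 2 ^ (k0 * R) := one_le_pow₀ (by norm_num)
    have hH : (1 : ℝ) ≤ 2 ^ h := one_le_pow₀ (by norm_num)
    have hw1 : (1 : ℝ) ≤ w := by have := H.b9; exact_mod_cast (by omega)
    have a1 : (2 : ℝ) ^ h / (8 * K / d) ≤ 2 ^ h * w := by
      rw [div_div_eq_mul_div, mul_div_assoc]
      refine mul_le_mul_of_nonneg_left ?_ (by positivity)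
      rw [div_le_iff₀ (by positivity)]
      nlinarith
    have a2 : (1 : ℝ) ≤ 2 ^ h * w := one_le_mul_of_one_le_of_one_le hH hw1
    have a3 : (Sg : ℝ) ≤ (w : ℝ) ^ 31 := by exact_mod_cast H.s31
    have a4 : 2 * (Sg : ℝ) * (2 ^ h / (8 * K / d) + 1) ≤ 2 * (w : ℝ) ^ 31 * (2 * (2 ^ h * w)) :=
      mul_le_mul (by linarith) (by linarith) (by positivity) (by positivity)
    have a5 : (1 : ℝ) ≤ (w : ℝ) ^ 31 * (2 ^ h * w) :=
      one_le_mul_of_one_le_of_one_le (one_le_pow₀ hw1) a2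
    have a6 : (14 : ℝ) * (w : ℝ) ^ 32 ≤ 2 ^ (33 * d) := by
      exact_mod_cast (H.up 14 32 33 (by norm_num) (by norm_num)).trans (H.two 33).le
    have a7 := mul_le_mul_of_nonneg_right a4 (zero_le_one.trans hA)
    have a8 := mul_le_mul_of_nonneg_right a5 (zero_le_one.trans hA)
    have a9 := mul_le_mul_of_nonneg_right a6 (by positivity : (0 : ℝ) ≤ 2 ^ h * 2 ^ (k0 * R))
    have := H.fl (h := h) le_rfl (a := 33 * d + (h + k0 * R)) (by omega)
      (x := 2 * (2 * 2 ^ (k0 * R) + 1 + 2 * Sg * (2 ^ h / (8 * K / d) + 1) * 2 ^ (k0 * R)))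
      (by positivity) (by
        rw [pow_add, pow_add]
        refine le_trans ?_ a9
        have e : 14 * (w : ℝ) ^ 32 * (2 ^ h * 2 ^ (k0 * R)) =
            14 * ((w : ℝ) ^ 31 * (2 ^ h * w) * 2 ^ (k0 * R)) := by ring
        have e2 : 2 * (w : ℝ) ^ 31 * (2 * (2 ^ h * w)) * 2 ^ (k0 * R) =
            4 * ((w : ℝ) ^ 31 * (2 ^ h * w) * 2 ^ (k0 * R)) := by ring
        rw [e]
        rw [e2] at a7
        linarith)
    have h2 := H.small
    have h3 : (0 : ℝ) ≤ R * (w : ℝ) ^ 30 := by positivity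
    push_cast at this ⊢
    linarith
  · have h1 : 3 * R * w ^ 12 + 2 ≤ 2 ^ Sg := by
      have a1 : R * w ^ 12 ≤ w ^ 43 := (Nat.mul_le_mul_right _ H.hR').trans (le_of_eq (by ring))
      have a2 := H.up 5 43 44 (by norm_num) (by norm_num)
      have a3 := H.p1 43
      have e : 3 * R * w ^ 12 = 3 * (R * w ^ 12) := by ring
      omega
    have e : 3 * (R : ℝ) * ((w ^ 30 : ℕ) : ℝ) / (w : ℝ) ^ 18 = 3 * R * (w : ℝ) ^ 12 := by
      push_cast; field_simp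
    rw [e]
    exact_mod_cast h1
  · have a1 : 1000 * (K * R) * w ^ 10 ≤ w ^ 42 := by
      have a0 : 1000 * K ≤ w := by have := H.bK; omega
      refine le_trans (le_of_eq (by ring))
        ((Nat.mul_le_mul_right (w ^ 10) (Nat.mul_le_mul a0 H.hR')).trans (le_of_eq (by ring)))
    have a2 := H.up 6 42 43 (by norm_num) (by norm_num)
    have a3 := H.p1 42
    have a4 := H.pw (by norm_num : 43 ≤ 44)
    omega
  · have h14 : (14 : ℝ) ≤ d := by
      have h1 := H.hd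
      have h2 := H.hK
      exact_mod_cast (by omega)
    have a1 : (2 : ℝ) ^ ((d : ℝ) / 2) ≤ 1 + w / 128 := by
      have a2 : (2 : ℝ) ^ ((d : ℝ) / 2) ≤ (2 : ℝ) ^ ((d : ℝ) - (7 : ℕ)) :=
        Real.rpow_le_rpow_of_exponent_le (by norm_num) (by push_cast; linarith)
      rw [Real.rpow_sub (by norm_num), Real.rpow_natCast, Real.rpow_natCast] at a2
      have e : (w : ℝ) = 2 ^ d := by rw [H.hw]; push_cast; rfl
      rw [e]
      norm_num at a2 ⊢
      linarith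
    refine le_trans (le_of_eq ?_) (Real.rpow_le_rpow (by positivity) a1 (by positivity))
    rw [← Real.rpow_mul (by norm_num), ← H.hK, ← Real.rpow_natCast]
    congr 1
    field_simp
    norm_num

theorem Ok.numL (H : Ok k0 K R w d Sg (w ^ 29)) (hL : 3 * (K * R) ≤ d) (b : ℕ) (Φ : ℝ) :
    NumL k0 R (2 * w ^ 28) (w ^ 14) (128 * d * w ^ 28)
      (lv w d K Sg (w ^ 29) (1000 * (K * R) * w ^ 10) b Φ) := by
  have h0 := H.w0
  have hbd := H.bd
  have hkK : k0 * R ≤ K * R := Nat.mul_le_mul_right _ (by have := H.hK; omega)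
  have hRK : R ≤ K * R := Nat.le_mul_of_pos_left _ (by have := H.hK; omega)
  have hRw : 2 * R ≤ w := by omega
  have hRw' : 2 * (R : ℝ) ≤ w := by exact_mod_cast hRw
  have hA : 2 ^ (k0 * R) ≤ w := by
    rw [H.hw]; exact Nat.pow_le_pow_right (by norm_num) (by omega)
  have hA2 : 2 ^ (2 * k0 * R) ≤ w := by
    rw [H.hw, mul_assoc]; exact Nat.pow_le_pow_right (by norm_num) (by omega)
  have hh : 1000 * (K * R) * w ^ 10 ≤ w ^ 11 := by
    exact (Nat.mul_le_mul_right _ (by omega : 1000 * (K * R) ≤ w)).trans (le_of_eq (by ring))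
  have hS2 : Sg ^ 2 * 2 ^ (2 * k0 * R) ≤ w ^ 63 :=
    (Nat.mul_le_mul (Nat.pow_le_pow_left H.s31 2) hA2).trans (le_of_eq (by ring))
  constructor <;> simp only [lv]
  · have h1 := H.hg'
    have h2 := H.hS'
    have e : 2 * w ^ 28 * w ^ 2 = 2 * w ^ 30 := by ring
    omega
  · have h1 : 2 * w ^ 28 * (w ^ 2 * R) ^ 2 ≤ w ^ 34 := by
      have a1 : R ≤ w := by omega
      refine le_trans (le_of_eq (by ring))
        ((Nat.mul_le_mul_left (w ^ 32) (Nat.mul_le_mul hRw a1)).trans (le_of_eq (by ring)))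
    rw [inv_pow, inv_mul_le_iff₀ (by positivity), mul_one, ← pow_mul]
    exact_mod_cast h1
  · have h1 : Sg * R ≤ w ^ 17 * w ^ 14 := by
      have a1 : Sg ≤ 2 * w ^ 30 := by have := H.hS'; omega
      refine (Nat.mul_le_mul_right R a1).trans (le_trans (le_of_eq (by ring))
        ((Nat.mul_le_mul_left (w ^ 30) hRw).trans (le_of_eq (by ring))))
    rw [mul_assoc, inv_mul_le_iff₀ (by positivity)]
    exact_mod_cast h1
  · have a1 := H.up 2 43 44 (by norm_num) (by norm_num)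
    have a2 := H.p1 43
    have a3 := H.pw (by norm_num : 44 ≤ 75)
    have e : w ^ 29 * w ^ 14 = w ^ 43 := by ring
    omega
  · have h1 : w ^ 2 * R * (2 * w ^ 28) ≤ w ^ 17 * w ^ 14 :=
      le_trans (le_of_eq (by ring))
        ((Nat.mul_le_mul_left (w ^ 30) hRw).trans (le_of_eq (by ring)))
    rw [mul_assoc, mul_assoc, inv_mul_le_iff₀ (by positivity), ← mul_assoc]
    exact_mod_cast h1
  · have h1 := H.kr
    have a1 : 2 * (2 * 2 ^ (k0 * R) + 1 + 2 * Sg ^ 2 * 2 ^ (2 * k0 * R)) ≤ 2 ^ (64 * d) := by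
      have a2 := H.up 10 63 64 (by norm_num) (by norm_num)
      have a3 := H.pw (by norm_num : 1 ≤ 63)
      have a4 := H.p1 63
      rw [pow_one] at a3
      rw [← H.two, mul_assoc 2 (Sg ^ 2)]
      omega
    have := H.fl (h := 1000 * (K * R) * w ^ 10) le_rfl (a := 64 * d) (by omega)
      (x := 2 * (2 * 2 ^ (k0 * R) + 1 + 2 * Sg ^ 2 * 2 ^ (2 * k0 * R))) (by positivity)
      (by exact_mod_cast a1)
    have h2 := H.small
    have h3 : (0 : ℝ) ≤ R * (w : ℝ) ^ 30 := by positivity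
    push_cast at this ⊢
    linarith
  · exact le_trans (by norm_num) H.b9
  · generalize 1000 * (K * R) * w ^ 10 = h at hh
    have e : 3 * (R : ℝ) * ((w ^ 30 : ℕ) : ℝ) / (w : ℝ) ^ 18 = 3 * R * (w : ℝ) ^ 12 := by
      push_cast; field_simp
    rw [e]
    have a1 : 2 ^ h * Sg ^ 2 * 2 ^ (2 * k0 * R) ≤ 2 ^ (h + 63 * d) := by
      rw [mul_assoc, pow_add, ← H.two]; exact Nat.mul_le_mul_left _ hS2
    have a2 : w ^ 2 * w ^ 14 * (w ^ 14 * Sg * 2 ^ (k0 * R) + 1) ≤ 2 ^ (63 * d) := by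
      have b1 : w ^ 14 * Sg * 2 ^ (k0 * R) ≤ w ^ 46 :=
        (Nat.mul_le_mul (Nat.mul_le_mul_left _ H.s31) hA).trans (le_of_eq (by ring))
      have b2 := H.up 2 46 47 (by norm_num) (by norm_num)
      have b3 := H.p1 46
      have b4 : w ^ 14 * Sg * 2 ^ (k0 * R) + 1 ≤ w ^ 47 := by omega
      rw [← H.two]
      exact (Nat.mul_le_mul_left _ b4).trans (le_of_eq (by ring))
    have a3 : 3 * (h + 1) ≤ 2 ^ (12 * d) := by
      have b2 := H.up 6 11 12 (by norm_num) (by norm_num)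
      have b3 := H.p1 11
      rw [← H.two]
      omega
    have a4 : 3 * R * w ^ 12 + 2 < 2 ^ (14 * d) := by
      have b1 : 2 * R * w ^ 12 ≤ w ^ 13 := (Nat.mul_le_mul_right _ hRw).trans (le_of_eq (by ring))
      have b2 := H.up 6 13 14 (by norm_num) (by norm_num)
      have b3 := H.p1 13
      rw [← H.two]
      rw [mul_assoc] at b1 ⊢
      omega
    have a5 : h + (h + 63 * d) * w ^ 14 + 63 * d * (2 * w ^ 28) + 12 * d + 14 * d ≤
        128 * d * w ^ 28 := by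
      have b0 := H.pw (by norm_num : 1 ≤ 11)
      rw [pow_one] at b0
      have b1 : (h + 63 * d) * w ^ 14 ≤ 2 * w ^ 25 :=
        (Nat.mul_le_mul_right _ (by omega : h + 63 * d ≤ 2 * w ^ 11)).trans (le_of_eq (by ring))
      have b2 := H.pw (by norm_num : 11 ≤ 25)
      have b3 := H.up 4 25 26 (by norm_num) (by norm_num)
      have b4 := H.pw (by norm_num : 26 ≤ 28)
      have b5 : w ^ 28 ≤ d * w ^ 28 := Nat.le_mul_of_pos_left _ (by have := H.hR; omega)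
      have e1 : 63 * d * (2 * w ^ 28) = 126 * (d * w ^ 28) := by ring
      have e2 : 128 * d * w ^ 28 = 128 * (d * w ^ 28) := by ring
      omega
    have a6 : 2 ^ h * (2 ^ h * Sg ^ 2 * 2 ^ (2 * k0 * R)) ^ w ^ 14 *
        (w ^ 2 * w ^ 14 * (w ^ 14 * Sg * 2 ^ (k0 * R) + 1)) ^ (2 * w ^ 28) * (3 * (h + 1)) *
        (3 * R * w ^ 12 + 2) < 2 ^ (128 * d * w ^ 28) := by
      refine lt_of_lt_of_le ?_ (Nat.pow_le_pow_right (by norm_num) a5)
      rw [pow_add, pow_add, pow_add, pow_add, pow_mul 2 (h + 63 * d), pow_mul 2 (63 * d)]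
      exact Nat.mul_lt_mul_of_le_of_lt (Nat.mul_le_mul (Nat.mul_le_mul (Nat.mul_le_mul_left _
        (Nat.pow_le_pow_left a1 _)) (Nat.pow_le_pow_left a2 _)) a3) a4 (by positivity)
    exact_mod_cast a6

/-- The exponents of the levels. -/
def ex (d0 : ℕ) : ℕ → ℕ
  | 0 => d0
  | i + 1 => ex d0 i + ex d0 i / 2

/-- The gaps. -/
def gp (d0 i : ℕ) : ℕ := 3 ^ i * 2 ^ (30 * ex d0 i - (2 * i + 7))

/-- The spans. -/
def sp (d0 : ℕ) : ℕ → ℕ
  | 0 => (2 ^ d0) ^ 30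
  | i + 1 => 2 ^ (30 * (ex d0 i / 2)) * (sp d0 i + 2 * gp d0 i)

variable {d0 : ℕ}

theorem ex_ge (h : 10 ≤ d0) (i : ℕ) : d0 + i ≤ ex d0 i := by
  induction i with
  | zero => exact le_rfl
  | succ i ih => simp only [ex]; omega

theorem ex_grow (h : 10 ≤ d0) (i : ℕ) : 7 ^ i * d0 ≤ 5 ^ i * ex d0 i := by
  induction i with
  | zero => simp [ex]
  | succ i ih =>
    have h1 : 7 * ex d0 i ≤ 5 * ex d0 (i + 1) := by
      have := ex_ge h i
      simp only [ex]; omega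
    calc 7 ^ (i + 1) * d0 = 7 * (7 ^ i * d0) := by ring
      _ ≤ 7 * (5 ^ i * ex d0 i) := Nat.mul_le_mul_left _ ih
      _ = 5 ^ i * (7 * ex d0 i) := by ring
      _ ≤ 5 ^ i * (5 * ex d0 (i + 1)) := Nat.mul_le_mul_left _ h1
      _ = _ := by ring

theorem ex_two (h : 10 ≤ d0) (j : ℕ) : 2 ^ j ≤ ex d0 (2 * j) := by
  induction j with
  | zero => simp only [ex]; omega
  | succ j ih =>
    have := ex_ge h (2 * j)
    rw [pow_succ, show 2 * (j + 1) = 2 * j + 1 + 1 by ring]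
    simp only [ex]; omega

theorem t_succ (i : ℕ) :
    (2 ^ ex d0 (i + 1)) ^ 30 = 2 ^ (30 * (ex d0 i / 2)) * (2 ^ ex d0 i) ^ 30 := by
  rw [← pow_mul, ← pow_mul, ← pow_add]
  congr 1
  simp only [ex]; ring

theorem gp_eq (h : 10 ≤ d0) (i : ℕ) : 128 * 4 ^ i * gp d0 i = 3 ^ i * (2 ^ ex d0 i) ^ 30 := by
  have h1 := ex_ge h i
  have e : ex d0 i * 30 = 7 + 2 * i + (30 * ex d0 i - (2 * i + 7)) := by omega
  rw [← pow_mul, e, pow_add, pow_add, pow_mul 2 2 i, gp]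
  norm_num
  ring

theorem gp_le (h : 10 ≤ d0) (i : ℕ) : 128 * gp d0 i ≤ (2 ^ ex d0 i) ^ 30 := by
  refine Nat.le_of_mul_le_mul_left (c := 4 ^ i) ?_ (by positivity)
  calc 4 ^ i * (128 * gp d0 i) = 128 * 4 ^ i * gp d0 i := by ring
    _ = _ := gp_eq h i
    _ ≤ _ := Nat.mul_le_mul_right _ (Nat.pow_le_pow_left (by norm_num) i)

theorem sp_bd (h : 10 ≤ d0) (i : ℕ) : (2 ^ ex d0 i) ^ 30 ≤ sp d0 i ∧
    16 * 4 ^ i * sp d0 i + 3 ^ i * (2 ^ ex d0 i) ^ 30 ≤ 17 * 4 ^ i * (2 ^ ex d0 i) ^ 30 := by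
  induction i with
  | zero => simp only [sp, ex]; omega
  | succ i ih =>
    rw [t_succ, sp]
    refine ⟨Nat.mul_le_mul_left _ (by omega), ?_⟩
    have h1 := gp_eq h i
    generalize 2 ^ (30 * (ex d0 i / 2)) = n
    generalize (2 ^ ex d0 i) ^ 30 = T at *
    calc 16 * 4 ^ (i + 1) * (n * (sp d0 i + 2 * gp d0 i)) + 3 ^ (i + 1) * (n * T)
        = n * (4 * (16 * 4 ^ i * sp d0 i) + 128 * 4 ^ i * gp d0 i + 3 * (3 ^ i * T)) := by ring
      _ ≤ n * (4 * (17 * 4 ^ i * T)) := Nat.mul_le_mul_left _ (by omega)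
      _ = _ := by ring

theorem sp_le (h : 10 ≤ d0) (i : ℕ) : 9 * sp d0 i ≤ 10 * (2 ^ ex d0 i) ^ 30 := by
  have h1 : 4 ^ i * (16 * sp d0 i) ≤ 4 ^ i * (17 * (2 ^ ex d0 i) ^ 30) :=
    le_trans (le_of_eq (by ring)) ((le_self_add.trans (sp_bd h i).2).trans (le_of_eq (by ring)))
  have := Nat.le_of_mul_le_mul_left h1 (by positivity)
  omega

theorem cost (h : 10 ≤ d0) (K i : ℕ) :
    6 * (8 * (K : ℝ) / ex d0 i) * ((sp d0 i : ℝ) + gp d0 i) / gp d0 i ≤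
      12288 * K / d0 * (20 / 21) ^ i := by
  have h0 : (0 : ℝ) < d0 := by exact_mod_cast (by omega : 0 < d0)
  have h1 : (0 : ℝ) < ex d0 i := by
    have := ex_ge h i
    exact_mod_cast (by omega : 0 < ex d0 i)
  have h2 : (0 : ℝ) < gp d0 i := by unfold gp; positivity
  have a1 : 3 ^ i * (sp d0 i + gp d0 i) ≤ 256 * 4 ^ i * gp d0 i := by
    have b1 := sp_le h i
    have b2 := gp_le h i
    calc 3 ^ i * (sp d0 i + gp d0 i) ≤ 3 ^ i * (2 * (2 ^ ex d0 i) ^ 30) :=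
          Nat.mul_le_mul_left _ (by omega)
      _ = 2 * (3 ^ i * (2 ^ ex d0 i) ^ 30) := by ring
      _ = _ := by rw [← gp_eq h i]; ring
  have a2 : ((sp d0 i : ℝ) + gp d0 i) / gp d0 i ≤ 256 * (4 / 3) ^ i := by
    rw [div_pow, ← mul_div_assoc, div_le_div_iff₀ h2 (by positivity), mul_comm]
    exact_mod_cast a1
  have a3 : 8 * (K : ℝ) / ex d0 i ≤ 8 * K / d0 * (5 / 7) ^ i := by
    rw [div_pow, div_mul_div_comm, div_le_div_iff₀ h1 (by positivity), mul_assoc (8 * (K : ℝ))]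
    refine mul_le_mul_of_nonneg_left ?_ (by positivity)
    rw [mul_comm]
    exact_mod_cast ex_grow h i
  rw [mul_div_assoc, mul_assoc]
  refine (mul_le_mul_of_nonneg_left (mul_le_mul a3 a2 (by positivity) (by positivity))
    (by norm_num)).trans (le_of_eq ?_)
  rw [show (20 / 21 : ℝ) = 5 / 7 * (4 / 3) by norm_num, mul_pow]
  ring

theorem geo (m : ℕ) : ∑ i ∈ Ioo 0 m, (20 / 21 : ℝ) ^ i ≤ 21 := by
  have h1 : ∀ m : ℕ, ∑ i ∈ range m, (20 / 21 : ℝ) ^ i ≤ 21 - 21 * (20 / 21) ^ m := by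
    intro m
    induction m with
    | zero => simp
    | succ m ih => rw [sum_range_succ, pow_succ]; linarith
  refine (sum_le_sum_of_subset_of_nonneg (t := range m) (fun i hi => ?_)
    fun _ _ _ => by positivity).trans ((h1 m).trans (sub_le_self _ (by positivity)))
  exact mem_range.2 (mem_Ioo.1 hi).2

theorem Ok.numS (H : Ok k0 K R w d Sg gg) (hd : d < 3 * (K * R)) {h n w' : ℕ}
    (hh : h ≤ 1000 * (K * R) * w ^ 10) (hw : 2 * w ≤ w') (hn : n ≤ w' ^ 10) :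
    2 ^ h * (Sg ^ 4 * 2 ^ (4 * k0 * R) * (2 * gg + 1)) ^ n ≤ 2 ^ (1000 * (K * R) * w' ^ 10) := by
  have hkK : k0 * R ≤ K * R := Nat.mul_le_mul_right _ (by have := H.hK; omega)
  have a1 : 2 * gg + 1 ≤ w ^ 31 := by
    have := H.hg
    have := H.hg'
    have := H.pw (by norm_num : 30 ≤ 31)
    omega
  have a2 : Sg ^ 4 * 2 ^ (4 * k0 * R) * (2 * gg + 1) ≤ 2 ^ (500 * (K * R)) := by
    refine (Nat.mul_le_mul (Nat.mul_le_mul_right _ (Nat.pow_le_pow_left H.s31 4)) a1).trans ?_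
    rw [← pow_mul, H.two, H.two, ← pow_add, ← pow_add, mul_assoc 4]
    exact Nat.pow_le_pow_right (by norm_num) (by omega)
  refine (Nat.mul_le_mul_left _ (Nat.pow_le_pow_left a2 n)).trans ?_
  rw [← pow_mul, ← pow_add]
  refine Nat.pow_le_pow_right (by norm_num) ?_
  have a3 : 2 * w ^ 10 ≤ w' ^ 10 :=
    le_trans (by rw [mul_pow]; exact Nat.mul_le_mul_right _ (by norm_num))
      (Nat.pow_le_pow_left hw 10)
  have a4 := Nat.mul_le_mul_left (500 * (K * R)) a3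
  have a5 := Nat.mul_le_mul_left (500 * (K * R)) hn
  have e1 : 500 * (K * R) * (2 * w ^ 10) = 1000 * (K * R) * w ^ 10 := by ring
  have e2 : 1000 * (K * R) * w' ^ 10 = 2 * (500 * (K * R) * w' ^ 10) := by ring
  omega

end Sch

open Sch in
theorem sched (k0 : ℕ) (θ : ℝ) (hθ : 0 < θ) :
    ∃ (R m ns nr s : ℕ) (l : ℕ → Lev) (n : ℕ → ℕ), 0 < m ∧ (∀ i ≤ m, NumW k0 R (l i)) ∧
      (∀ i < m, NumS k0 R (n i) (l i) (l (i + 1))) ∧ (∀ i, 0 < i → i ≤ m → NumC (l i)) ∧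
      (∀ i, 0 < i → i < m → NumF k0 R (l i)) ∧ NumL k0 R ns nr s (l m) ∧
      (l 0).Sg = (l 0).T ∧ (l 0).b = 1 ∧ (l 0).h = 0 ∧ ((l 0).T : ℝ) ≤ (l 0).Φ ∧
      2 / ((l 0).gg : ℝ) + ∑ i ∈ Ioo 0 m, 6 * (l i).θ * ((l i).Sg + (l i).gg) / (l i).gg +
        2 * s / ((l m).gg : ℝ) ≤ θ ∧
      (2496 * (6 * (l m).gg + 3) * 2 ^ (k0 * (2 * R)) : ℝ) ≤ θ * (l m).Sg := by
  obtain ⟨K, hK⟩ : ∃ K, K = k0 + 10 := ⟨_, rfl⟩
  obtain ⟨d0, hd0, hd1⟩ : ∃ d0 : ℕ, 10 ^ 8 * K ≤ d0 ∧ 10 ^ 6 * (K : ℝ) ≤ θ * d0 := by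
    refine ⟨10 ^ 8 * K + ⌈10 ^ 6 * (K : ℝ) / θ⌉₊, Nat.le_add_right _ _, ?_⟩
    rw [← div_le_iff₀' hθ]
    refine (Nat.le_ceil _).trans ?_
    exact_mod_cast Nat.le_add_left _ _
  have h10 : 10 ≤ d0 := by omega
  obtain ⟨R, hR⟩ : ∃ R, R = 64 * (2 ^ d0) ^ 30 := ⟨_, rfl⟩
  have hR0 : 0 < R := by rw [hR]; positivity
  have hok : ∀ i g, 0 < g → 128 * g ≤ (2 ^ ex d0 i) ^ 30 →
      Ok k0 K R (2 ^ ex d0 i) (ex d0 i) (sp d0 i) g := by
    intro i g h1 h2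
    have h3 := ex_ge h10 i
    refine ⟨hK, rfl, by omega, hR0, ?_, (sp_bd h10 i).1, sp_le h10 i, h1, h2⟩
    rw [hR, ← pow_mul, ← pow_mul, show 64 = 2 ^ 6 by norm_num, ← pow_add]
    exact Nat.pow_le_pow_right (by norm_num) (by omega)
  have hok1 : ∀ i, Ok k0 K R (2 ^ ex d0 i) (ex d0 i) (sp d0 i) (gp d0 i) := fun i =>
    hok i _ (by unfold gp; positivity) (gp_le h10 i)
  have hok2 : ∀ i, Ok k0 K R (2 ^ ex d0 i) (ex d0 i) (sp d0 i) ((2 ^ ex d0 i) ^ 29) := fun i =>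
    hok i _ (by positivity) ((hok1 i).up 128 29 30 (by norm_num) (by norm_num))
  have H0 : Ok k0 K R (2 ^ d0) d0 (sp d0 0) (gp d0 0) := hok1 0
  have hex : 3 * (K * R) ≤ ex d0 (2 * (31 * d0)) := by
    refine le_trans ?_ (ex_two h10 _)
    have h1 : 192 * K ≤ 2 ^ d0 := by have := H0.bK; omega
    rw [← H0.two, hR]
    exact le_trans (le_of_eq (by ring))
      ((Nat.mul_le_mul_right ((2 ^ d0) ^ 30) h1).trans (le_of_eq (by ring)))
  have hE : ∃ i, 3 * (K * R) ≤ ex d0 i := ⟨_, hex⟩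
  obtain ⟨m, hm1, hm2, hm3⟩ : ∃ m, 3 * (K * R) ≤ ex d0 m ∧ (∀ i < m, ex d0 i < 3 * (K * R)) ∧
      m ≤ 2 * (31 * d0) :=
    ⟨Nat.find hE, Nat.find_spec hE, fun i hi => not_le.1 (Nat.find_min hE hi), Nat.find_min' hE hex⟩
  have hdR : d0 ≤ R := by
    have h1 := H0.bd
    have h2 := H0.pw (by norm_num : 1 ≤ 30)
    rw [pow_one] at h2
    omega
  have hRK : R ≤ K * R := Nat.le_mul_of_pos_left _ (by omega)
  have hm0 : 0 < m := by
    rcases Nat.eq_zero_or_pos m with h | h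
    · rw [h, ex] at hm1; omega
    · exact h
  obtain ⟨g, hg1, hg2⟩ : ∃ g : ℕ → ℕ, (∀ i < m, g i = gp d0 i) ∧ g m = (2 ^ ex d0 m) ^ 29 :=
    ⟨fun i => if i < m then gp d0 i else (2 ^ ex d0 i) ^ 29, fun i hi => if_pos hi,
      if_neg (lt_irrefl m)⟩
  obtain ⟨h, hh0, hh1⟩ : ∃ h : ℕ → ℕ, h 0 = 0 ∧
      ∀ i, 0 < i → h i = 1000 * (K * R) * (2 ^ ex d0 i) ^ 10 :=
    ⟨fun i => if 0 < i then 1000 * (K * R) * (2 ^ ex d0 i) ^ 10 else 0, if_neg (lt_irrefl 0),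
      fun i hi => if_pos hi⟩
  have hh2 : ∀ i, h i ≤ 1000 * (K * R) * (2 ^ ex d0 i) ^ 10 := by
    intro i
    rcases Nat.eq_zero_or_pos i with rfl | hi
    · rw [hh0]; exact Nat.zero_le _
    · exact (hh1 i hi).le
  have hok3 : ∀ i ≤ m, Ok k0 K R (2 ^ ex d0 i) (ex d0 i) (sp d0 i) (g i) := by
    intro i hi
    rcases hi.lt_or_eq with hi | rfl
    · rw [hg1 i hi]; exact hok1 i
    · rw [hg2]; exact hok2 i
  have hw0 := H0.w0
  have hd0' : (0 : ℝ) < d0 := by exact_mod_cast (by omega : 0 < d0)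
  have hK' : (10 : ℝ) ≤ K := by exact_mod_cast (by omega)
  obtain ⟨ε, hε⟩ : ∃ ε : ℝ, ε = 5000 * K * R / ((2 ^ d0 : ℕ) : ℝ) + 64 := ⟨_, rfl⟩
  have hRr : (R : ℝ) = 64 * ((2 ^ d0 : ℕ) : ℝ) ^ 30 := by rw [hR]; push_cast; rfl
  have hΦ : ∀ i ≤ m, ((2 ^ d0 : ℕ) : ℝ) ^ 30 + i * ε ≤ R / 30 := by
    intro i hi
    have a1 : (i : ℝ) * (5000 * K * R / ((2 ^ d0 : ℕ) : ℝ)) ≤ R / 120 := by
      have b1 : i * (5000 * K) * 120 ≤ 2 ^ d0 := by
        refine le_trans ?_ H0.big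
        have := Nat.mul_le_mul_right (5000 * K) (hi.trans hm3)
        nlinarith
      have b2 : (i : ℝ) * (5000 * K) * 120 ≤ ((2 ^ d0 : ℕ) : ℝ) := by exact_mod_cast b1
      rw [← mul_div_assoc, div_le_div_iff₀ hw0 (by norm_num)]
      have := mul_le_mul_of_nonneg_left b2 (Nat.cast_nonneg (α := ℝ) R)
      nlinarith
    have a2 : (i : ℝ) * 120 ≤ ((2 ^ d0 : ℕ) : ℝ) ^ 30 := by
      have b1 := H0.bd
      have b2 := H0.pw (by norm_num : 1 ≤ 30)
      rw [pow_one] at b2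
      exact_mod_cast (by omega : i * 120 ≤ (2 ^ d0) ^ 30)
    have a3 : (0 : ℝ) ≤ ((2 ^ d0 : ℕ) : ℝ) ^ 30 := by positivity
    rw [hε, mul_add]
    linarith
  refine ⟨R, m, 2 * (2 ^ ex d0 m) ^ 28, (2 ^ ex d0 m) ^ 14, 128 * ex d0 m * (2 ^ ex d0 m) ^ 28,
    fun i => lv (2 ^ ex d0 i) (ex d0 i) K (sp d0 i) (g i) (h i) (2 ^ (30 * (ex d0 i - d0)))
      (((2 ^ d0 : ℕ) : ℝ) ^ 30 + i * ε), fun i => 2 ^ (30 * (ex d0 i / 2)), hm0,
    fun i hi => (hok3 i hi).numW (hh2 i) _ (hΦ i hi), fun i hi => ?_, fun i h1 h2 => ?_,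
    fun i h1 h2 => ?_, ?_, rfl, by simp [lv, ex], hh0, by simp [lv, ex], ?_, ?_⟩
  · have H := hok3 i hi.le
    have h3 := ex_ge h10 i
    refine ⟨by positivity, by simp only [lv, sp, hg1 i hi], t_succ i, ?_, ?_, ?_⟩
    · simp only [lv]
      rw [← pow_add]
      congr 1
      simp only [ex]; omega
    · simp only [lv]
      rw [hh1 (i + 1) (by omega)]
      refine H.numS (hm2 i hi) (hh2 i) ?_ ?_
      · rw [← pow_succ']
        exact Nat.pow_le_pow_right (by norm_num) (by simp only [ex]; omega)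
      · rw [← pow_mul]
        exact Nat.pow_le_pow_right (by norm_num) (by simp only [ex]; omega)
    · have a1 := H.loss (hh2 i) (2 ^ (30 * (ex d0 i - d0))) (((2 ^ d0 : ℕ) : ℝ) ^ 30 + i * ε)
      have a2 : 2 ^ (30 * (ex d0 i - d0)) * R = 64 * (2 ^ ex d0 i) ^ 30 := by
        rw [hR, ← pow_mul, ← pow_mul, mul_left_comm, ← pow_add]
        congr 2
        omega
      have a3 : ((2 ^ (30 * (ex d0 i - d0)) : ℕ) : ℝ) * R = 64 * ((2 ^ ex d0 i : ℕ) : ℝ) ^ 30 := by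
        exact_mod_cast a2
      have a4 : ((2 ^ d0 : ℕ) : ℝ) ≤ ((2 ^ ex d0 i : ℕ) : ℝ) := by
        exact_mod_cast Nat.pow_le_pow_right (by norm_num) (by omega)
      have a5 : 5000 * K * R * ((2 ^ ex d0 i : ℕ) : ℝ) ^ 29 ≤
          5000 * K * R / ((2 ^ d0 : ℕ) : ℝ) * ((2 ^ ex d0 i : ℕ) : ℝ) ^ 30 := by
        rw [div_mul_eq_mul_div, le_div_iff₀ hw0, mul_assoc _ _ ((2 ^ d0 : ℕ) : ℝ), pow_succ _ 29]
        exact mul_le_mul_of_nonneg_left (mul_le_mul_of_nonneg_left a4 (by positivity))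
          (by positivity)
      generalize Lev.loss _ k0 R = x at a1 ⊢
      simp only [lv]
      rw [a3, Nat.cast_pow _ 30, Nat.cast_succ i]
      have e : ε * ((2 ^ ex d0 i : ℕ) : ℝ) ^ 30 = 5000 * K * R / ((2 ^ d0 : ℕ) : ℝ) *
          ((2 ^ ex d0 i : ℕ) : ℝ) ^ 30 + 64 * ((2 ^ ex d0 i : ℕ) : ℝ) ^ 30 := by rw [hε]; ring
      linarith
  · simp only [hh1 i h1]
    exact (hok3 i h2).numC _ _
  · simp only [hh1 i h1]
    exact (hok3 i h2.le).numF _ _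
  · simp only [hh1 m hm0, hg2]
    exact (hok2 m).numL hm1 _ _
  · simp only [lv]
    have a0 : 10 ^ 6 * (K : ℝ) / d0 ≤ θ := (div_le_iff₀ hd0').2 hd1
    have a1 : 2 / (g 0 : ℝ) ≤ K / d0 := by
      have b1 := gp_eq h10 0
      have b2 := H0.bd
      have b3 := H0.pw (by norm_num : 1 ≤ 30)
      simp only [pow_one, pow_zero, ex] at b1 b3
      have b4 : (d0 : ℝ) ≤ gp d0 0 := by exact_mod_cast (by omega)
      rw [hg1 0 hm0]
      exact div_le_div₀ (by linarith) (by linarith) hd0' b4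
    have a2 : ∑ i ∈ Ioo 0 m, 6 * (8 * (K : ℝ) / ex d0 i) * ((sp d0 i : ℝ) + g i) / g i ≤
        12288 * K / d0 * 21 := by
      refine le_trans (sum_le_sum fun i hi => ?_)
        (le_trans (mul_sum _ _ _).ge (mul_le_mul_of_nonneg_left (geo m) (by positivity)))
      rw [hg1 i (mem_Ioo.1 hi).2]
      exact cost h10 K i
    have a3 : 2 * ((128 * ex d0 m * (2 ^ ex d0 m) ^ 28 : ℕ) : ℝ) / (g m : ℝ) ≤ 256 * K / d0 := by
      have H := hok2 m
      have b1 : d0 * ex d0 m ≤ K * 2 ^ ex d0 m := by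
        have c1 := ex_ge h10 m
        refine (Nat.mul_le_mul_right _ (by omega : d0 ≤ ex d0 m)).trans
          ((sq2 (by omega)).trans (Nat.le_mul_of_pos_left _ (by omega)))
      have b2 : 2 * (128 * ex d0 m * (2 ^ ex d0 m) ^ 28) * d0 ≤ 256 * K * (2 ^ ex d0 m) ^ 29 :=
        le_trans (le_of_eq (by ring))
          ((Nat.mul_le_mul_left (256 * (2 ^ ex d0 m) ^ 28) b1).trans (le_of_eq (by ring)))
      rw [hg2, div_le_div_iff₀ (by positivity) hd0']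
      exact_mod_cast b2
    have a4 : (0 : ℝ) ≤ K / d0 := by positivity
    simp only [mul_div_assoc] at a0 a2 a3 ⊢
    linarith
  · simp only [lv, hg2]
    have H := hok2 m
    have a1 : d0 * 2 ^ (k0 * (2 * R)) ≤ 2 ^ ex d0 m := by
      have b1 : k0 * R ≤ K * R := Nat.mul_le_mul_right _ (by omega)
      refine (Nat.mul_le_mul_right _ (hdR.trans Nat.lt_two_pow_self.le)).trans ?_
      rw [← pow_add, mul_left_comm]
      exact Nat.pow_le_pow_right (by norm_num) (by omega)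
    have a2 : d0 * ((2 ^ ex d0 m) ^ 29 * 2 ^ (k0 * (2 * R))) ≤ sp d0 m :=
      le_trans (le_of_eq (by ring)) ((Nat.mul_le_mul_left ((2 ^ ex d0 m) ^ 29) a1).trans
        ((le_of_eq (by ring)).trans H.hS))
    have a3 : (d0 : ℝ) * ((((2 ^ ex d0 m) ^ 29 : ℕ) : ℝ) * 2 ^ (k0 * (2 * R))) ≤ sp d0 m := by
      exact_mod_cast a2
    have a4 : (1 : ℝ) ≤ (((2 ^ ex d0 m) ^ 29 : ℕ) : ℝ) := by exact_mod_cast H.p1 29
    generalize (((2 ^ ex d0 m) ^ 29 : ℕ) : ℝ) = x at a3 a4 ⊢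
    have a5 : (0 : ℝ) < 2 ^ (k0 * (2 * R)) := by positivity
    generalize (2 : ℝ) ^ (k0 * (2 * R)) = y at a3 a5 ⊢
    have a6 := mul_le_mul_of_nonneg_left a3 hθ.le
    have a7 : y ≤ x * y := le_mul_of_one_le_left a5.le a4
    have a8 : 10 ^ 7 * (x * y) ≤ θ * d0 * (x * y) :=
      mul_le_mul_of_nonneg_right (by linarith) (by linarith)
    nlinarith

end Pool.Agent.Lib.MP_7903c7_al.PT
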