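import Pool.Agent.Lib.MP_7903c7_al.PT.Score
import Pool.Agent.Lib.MP_7903c7_al.F.SysS

set_option autoImplicit false

/-!
The system of circle valued functions of one level of the pattern tower.
-/

namespace Pool.Agent.Lib.MP_7903c7_al.PT

open Finset Pool.Agent.Lib.MP_7903c7_al.RF
open scoped Classical Pointwise

variable {G : Type} [Group G]

theorem SysS.sum_val {p : ℕ} [Fact p.Prime] (M : ℕ) :
    ∑ j ∈ Icc (1 : ℤ) M, padicValNat p j.natAbs ≤ M := by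
  suffices h : ∑ j ∈ Icc (1 : ℤ) M, padicValNat p j.natAbs = padicValNat p M.factorial from
    h ▸ padicValNat_factorial_le (p := p) M
  induction M with
  | zero => simp
  | succ M ih =>
    have : Icc (1 : ℤ) (M + 1 : ℕ) = insert ((M + 1 : ℕ) : ℤ) (Icc (1 : ℤ) M) := by
      ext j
      simp only [mem_Icc, mem_insert]
      omega
    rw [this, sum_insert (by simp only [mem_Icc]; omega), ih, Int.natAbs_natCast,
      Nat.factorial_succ, padicValNat.mul (by omega) (Nat.factorial_ne_zero M)]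

theorem SysS.not_dvd {p : ℕ} [Fact p.Prime] {j : ℤ} (hj : j ≠ 0) :
    ¬ (p : ℤ) ^ (padicValNat p j.natAbs + 1) ∣ j := fun h =>
  pow_succ_padicValNat_not_dvd (p := p) (Int.natAbs_ne_zero.2 hj) (by
    simpa using Int.natAbs_dvd_natAbs.2 h)

theorem le_tp {S : Finset G} (h1 : (1 : G) ∈ S) (R n0 Sg : ℕ) {β : ℝ} (hβ : 0 < β)
    (Q : Finset (ℕ → Option G)) (δ : (ℕ → Option G) → ℝ) (γ : ℤ → G) {π : ℕ → Option G}
    (hπ : π ∈ Q) (σ : ℤ) : sc S R n0 Sg β π γ σ + δ π ≤ tp S R n0 Sg β Q δ γ := by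
  obtain ⟨c, -, hc⟩ := sc_const h1 R Sg hβ
  exact Nu.le_top (F := fun q : Q => sc S R n0 Sg β q.1 γ) (δ := fun q => δ q.1)
    (B := c + ∑ q ∈ Q, |δ q|)
    (fun q s => add_le_add (hc n0 q.1 γ s).2.1 ((le_abs_self _).trans
      (single_le_sum (f := fun q => |δ q|) (fun _ _ => abs_nonneg _) q.2))) ⟨π, hπ⟩ σ

theorem sysS {p : ℕ} (hp : p.Prime) (g : G) {S : Finset G} (h1 : (1 : G) ∈ S) (R Sg gg : ℕ)
    (hgg : 0 < gg) {β ρ : ℝ} (hβ : 0 < β) (hρ : 0 < ρ) (Q : Finset (ℕ → Option G))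
    (hQ : Q.Nonempty) (L n1 : ℕ) (hL : Sg + gg ≤ L) (hn1 : 0 < n1) :
    ∃ n00 : ℕ, ∀ n0 ≥ n00, ∀ δ : (ℕ → Option G) → ℝ, Sys p g S (L * n0) L (2 * n1) (2 * n1)
      {γ | (∀ π ∈ Q, ∃ σ : ℤ, ∀ σ' : ℤ, |σ' - σ| ≤ gg * n0 →
          sc S R n0 Sg β π γ σ' + δ π ≤ tp S R n0 Sg β Q δ γ - 3 * ρ) ∧
        ∑ k ∈ range (L / gg + 1),
          cnt S R n0 Sg β Q δ γ gg ρ (tp S R n0 Sg β Q δ γ) (k * (gg * n0)) ≤ n1} := by
  have := Fact.mk hp
  have hL0 : 0 < L := by omega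
  have hL1 : (1 : ℝ) ≤ L := by exact_mod_cast hL0
  obtain ⟨c, hc0, hc⟩ := sc_const h1 R Sg hβ
  obtain ⟨n00, h⟩ := F.sysS g (Subgroup.centralizer {g}) S L n1 L gg Q.card hL0 hn1 hgg hρ
    (lam := c * L) (by positivity)
  refine ⟨n00, fun n0 hn0 δ => ?_⟩
  have : Nonempty Q := hQ.to_subtype
  obtain ⟨Fn, hF, hfine⟩ := h n0 hn0 Q (Fintype.card_coe Q).le
    (fun q γ => sc S R n0 Sg β q.1 γ) (fun q => δ q.1)
    (fun q γ _ a _ s => sc_mul S R n0 Sg β q.1 γ a s)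
    (fun q γ _ s => sc_shift S R n0 Sg β q.1 γ s (-1))
    (fun q γ hγ s => by
      rw [← sc_shift, show (fun t => γ (t + (L * n0 : ℕ))) = fun t => g * γ t from funext hγ,
        sc_mul])
    (fun q γ _ s => (hc n0 q.1 γ s).2.2.1.trans
      (div_le_div_of_nonneg_right (le_mul_of_one_le_right hc0.le hL1) (Nat.cast_nonneg _)))
    (fun q γ γ' hγ hγ' hn s => (hc n0 q.1 γ s).2.2.2 g _ L γ' hγ.1 hγ'.1 hn
      (Nat.mul_le_mul_right _ (by omega)))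
  refine ⟨ℤ, Icc (1 : ℤ) (2 * n1 - 1), fun j => padicValNat p j.natAbs, fun j _ => j, Fn, ?_, ?_,
    fun j hj _ => SysS.not_dvd (by have := (mem_Icc.1 hj).1; omega), fun j _ => hF j, ?_⟩
  · rw [Int.card_Icc]
    omega
  · exact (sum_le_sum_of_subset (Icc_subset_Icc le_rfl (by push_cast; omega))).trans
      (SysS.sum_val (2 * n1))
  rintro γ hγ ⟨hw, hs⟩
  refine (hfine γ hγ (fun k => (cnt S R n0 Sg β Q δ γ gg ρ (tp S R n0 Sg β Q δ γ)
    (k * (gg * n0)) : ℕ)) (by exact_mod_cast hs) fun k _ => ?_).resolve_right ?_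
  · refine Nat.cast_le.2 (card_le_card_of_injOn (fun q => q.1) ?_ Subtype.val_injective.injOn)
    intro q hq
    simp only [coe_filter, mem_univ, true_and, Set.mem_ofPred_eq] at hq ⊢
    obtain ⟨s, hs, h2⟩ := hq
    refine ⟨q.2, s, ?_, h2⟩
    rw [mem_Ico] at hs ⊢
    push_cast at hs
    constructor <;> linarith [hs.1, hs.2]
  · rintro ⟨q, hq⟩
    obtain ⟨σ, hσ⟩ := hw q.1 q.2
    obtain ⟨d, hd, h2⟩ := hq σ
    exact absurd (hσ (σ + d) (by rw [add_sub_cancel_left]; exact_mod_cast hd)) (not_le.2 h2)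

end Pool.Agent.Lib.MP_7903c7_al.PT
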