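import Pool.Agent.Lib.MP_7903c7_al.PT.Sched
import Pool.Agent.Lib.MP_7903c7_al.PT.Step
import Pool.Agent.Lib.MP_7903c7_al.PT.Full
import Pool.Agent.Lib.MP_7903c7_al.PT.Low
import Pool.Agent.Lib.MP_7903c7_al.PT.Sys
import Pool.Agent.Lib.MP_7903c7_al.RF.Win

set_option autoImplicit false

/-!
The tower of levels.
-/

namespace Pool.Agent.Lib.MP_7903c7_al.PT

open Finset Pool.Agent.Lib.MP_7903c7_al.RF
open scoped Classical Pointwise

namespace Tower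

theorem windows (ℓ : ℤ → ℕ) (N L g W K : ℕ) (hg : 0 < g) (hp : ∀ t, ℓ (t + N) = ℓ t)
    (hL : ∑ t ∈ range N, ℓ t ≤ L) (hK : K * g ≤ N) (hW : W ≤ N) :
    ∑ k ∈ range (K + 1), ∑ t ∈ Ico ((k : ℤ) * g) (k * g + W), ℓ t ≤ (W / g + 1) * (2 * L) := by
  have h1 : ∀ k ∈ range (K + 1), ∑ t ∈ Ico ((k : ℤ) * g) (k * g + W), ℓ t =
      ∑ t ∈ Ico (0 : ℤ) (N + N), if (k : ℤ) * g ≤ t ∧ t < k * g + W then ℓ t else 0 := by
    intro k hk
    rw [← sum_filter]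
    refine sum_congr ?_ fun _ _ => rfl
    have hk' : k * g ≤ N := (Nat.mul_le_mul_right g (by simp at hk; omega)).trans hK
    have hk2 : (k : ℤ) * g ≤ N := by exact_mod_cast hk'
    have hk3 : (0 : ℤ) ≤ (k : ℤ) * g := by positivity
    have hW' : (W : ℤ) ≤ N := by exact_mod_cast hW
    ext t
    simp only [mem_Ico, mem_filter]
    omega
  rw [sum_congr rfl h1, sum_comm]
  have h2 : ∀ t ∈ Ico (0 : ℤ) (N + N), (∑ k ∈ range (K + 1),
      if (k : ℤ) * g ≤ t ∧ t < k * g + W then ℓ t else 0) ≤ (W / g + 1) * ℓ t := by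
    intro t _
    rw [← sum_filter, sum_const, smul_eq_mul]
    refine Nat.mul_le_mul_right _ ?_
    set A := (range (K + 1)).filter fun k : ℕ => (k : ℤ) * g ≤ t ∧ t < k * g + W
    rcases A.eq_empty_or_nonempty with h | h
    · simp [h]
    have hm := (mem_filter.1 (A.min'_mem h)).2
    set a := A.min' h
    refine (card_le_card (t := Icc a (a + W / g)) fun k hk => ?_).trans
      (by rw [Nat.card_Icc]; generalize W / g = d; omega)
    have hk' := (mem_filter.1 hk).2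
    have hak : a ≤ k := A.min'_le k hk
    obtain ⟨d, rfl⟩ := Nat.exists_eq_add_of_le hak
    have : d * g ≤ W := by
      have : ((a + d : ℕ) : ℤ) * g < a * g + W := hk'.1.trans_lt hm.2
      push_cast at this
      have h3 : (d : ℤ) * g ≤ W := by linarith
      exact_mod_cast h3
    have := (Nat.le_div_iff_mul_le hg).2 this
    simp only [mem_Icc]
    omega
  refine (sum_le_sum h2).trans ?_
  rw [← mul_sum]
  refine Nat.mul_le_mul_left _ ?_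
  have e : Ico (0 : ℤ) (N + N) = Ico (0 : ℤ) (0 + N) ∪ Ico (N : ℤ) (N + N) := by
    ext t
    simp only [mem_Ico, mem_union]
    omega
  rw [e]
  refine (sum_union_inter.le.trans' (Nat.le_add_right _ _)).trans ?_
  have a1 := sum_window_le N N le_rfl ℓ hp 0
  have a2 := sum_window_le N N le_rfl ℓ hp N
  omega

variable {G : Type} [Group G]

theorem wrap_mono {S : Finset G} {R n0 Sg gg : ℕ} {π : ℕ → Option G} {γ : ℤ → G} {x x' : ℝ}
    (h : Wrap S R n0 Sg gg π γ x) (hx : x' ≤ x) : Wrap S R n0 Sg gg π γ x' := fun σ =>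
  let ⟨σ', c, h1, h2⟩ := h σ
  ⟨σ', c, h1, hx.trans h2⟩

theorem low {k0 R : ℕ} {l : Lev} (hW : NumW k0 R l) :
    29 * (R : ℝ) * l.T / 30 ≤ (R - l.Φ) * l.T := by
  have := mul_le_mul_of_nonneg_right hW.hΦ (Nat.cast_nonneg (α := ℝ) l.T)
  nlinarith

theorem level {p : ℕ} (hp : p.Prime) (g : G) {S : Finset G} (h1 : (1 : G) ∈ S) {k0 R : ℕ}
    (hK : S.card ≤ 2 ^ k0) (l : Lev) (hW : NumW k0 R l) (Q : Finset (ℕ → Option G))
    (hQ : Q.Nonempty) (hP : ∀ π ∈ Q, Pat l.Sg l.T l.b π) (L n1 : ℕ) (hL : l.Sg + l.gg ≤ L)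
    (hn1 : 0 < n1) : ∃ n00 : ℕ, ∀ n0 ≥ n00, ∀ δ : (ℕ → Option G) → ℝ,
      (∀ π, 0 ≤ δ π ∧ δ π ≤ l.u * l.Y) →
      (∀ γ, Good g S (L * n0) L γ → ∀ a : ℝ, 29 * R * l.T / 30 ≤ a →
        (∀ π ∈ Q, ∀ σ, sc S R n0 l.Sg l.β π γ σ + δ π ≤ a) →
        ∑ k ∈ range (L / l.gg + 1),
          cnt S R n0 l.Sg l.β Q δ γ l.gg l.ρ a (k * (l.gg * n0)) ≤ n1) →
      ∃ U : Set (ℤ → G), Sys p g S (L * n0) L (2 * n1) (2 * n1) U ∧
        ∀ γ, Good g S (L * n0) L γ →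
          (∃ π ∈ Q, ∃ c σ, (R - l.Φ) * l.T ≤ fit S R n0 l.Sg π γ c σ) →
          γ ∈ U ∨ ∃ π ∈ Q, Wrap S R n0 l.Sg l.gg π γ ((R - l.Φ) * l.T - l.loss k0 R) := by
  obtain ⟨n00, h⟩ := sysS hp g h1 R l.Sg l.gg hW.hg hW.hβ hW.hρ Q hQ L n1 hL hn1
  refine ⟨n00, fun n0 hn0 δ hδ hc => ⟨_, h n0 hn0 δ, fun γ hγ ⟨π0, hπ0, c0, σ0, ha⟩ => ?_⟩⟩
  have t1 := fun π (hπ : π ∈ Q) σ => le_tp h1 R n0 l.Sg hW.hβ Q δ γ hπ σ
  have t2 : (R - l.Φ) * l.T ≤ tp S R n0 l.Sg l.β Q δ γ := by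
    have := fit_le_sc h1 R n0 l.Sg hW.hβ π0 γ c0 σ0
    linarith [t1 π0 hπ0 σ0, (hδ π0).1]
  by_cases hw : ∀ π ∈ Q, ∃ σ : ℤ, ∀ σ' : ℤ, |σ' - σ| ≤ l.gg * n0 →
      sc S R n0 l.Sg l.β π γ σ' + δ π ≤ tp S R n0 l.Sg l.β Q δ γ - 3 * l.ρ
  · exact Or.inl ⟨hw, hc γ hγ _ ((low hW).trans t2) t1⟩
  push Not at hw
  obtain ⟨π, hπ, hw⟩ := hw
  refine Or.inr ⟨π, hπ, fun σ => ?_⟩
  obtain ⟨σ', hσ, hs⟩ := hw σ
  have hl := hW.hl
  have hlow := low hW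
  have h0 : (0 : ℝ) ≤ R * l.T := by positivity
  unfold Lev.loss at hl ⊢
  obtain ⟨c, hc⟩ := exists_fit h1 n0 hK hW.hβ (hP π hπ) γ σ'
    (x := (R - l.Φ) * l.T - l.u * l.Y - 3 * l.ρ) (by linarith [(hδ π).2]) (by linarith)
  exact ⟨σ', c, hσ, by linarith⟩

/-- The conclusion at one level. -/
def Out (p : ℕ) (g : G) (S : Finset G) (k0 R L n0 : ℕ) (l : Lev) (Q : Finset (ℕ → Option G))
    (x : ℝ) : Prop :=
  ∃ (k : ℕ) (U : Set (ℤ → G)), (k : ℝ) ≤ 2 * x * L + 4 ∧ Sys p g S (L * n0) L k k U ∧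
    ∀ γ, Good g S (L * n0) L γ →
      (∃ π ∈ Q, ∃ c σ, (R - l.Φ) * l.T ≤ fit S R n0 l.Sg π γ c σ) →
      γ ∈ U ∨ ∃ π ∈ Q, Wrap S R n0 l.Sg l.gg π γ ((R - l.Φ) * l.T - l.loss k0 R)

theorem blocks {L gg : ℕ} (hg : 0 < gg) (hL : gg ≤ L) :
    ((L / gg + 1 : ℕ) : ℝ) ≤ 2 * L / gg := by
  have g0 : (0 : ℝ) < gg := by exact_mod_cast hg
  have h1 : ((L / gg : ℕ) : ℝ) ≤ L / gg := Nat.cast_div_le
  have h2 : (1 : ℝ) ≤ L / gg := (one_le_div g0).2 (by exact_mod_cast hL)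
  push_cast
  rw [mul_div_assoc]
  linarith

theorem out_const {p : ℕ} (hp : p.Prime) (g : G) {S : Finset G} (h1 : (1 : G) ∈ S) {k0 R : ℕ}
    (hK : S.card ≤ 2 ^ k0) (l : Lev) (hW : NumW k0 R l) (Q : Finset (ℕ → Option G))
    (hQ : Q.Nonempty) (hP : ∀ π ∈ Q, Pat l.Sg l.T l.b π) (L s : ℕ) (hL : l.Sg + l.gg ≤ L) :
    ∃ n00 : ℕ, ∀ n0 ≥ n00, ∀ δ : (ℕ → Option G) → ℝ, (∀ π, 0 ≤ δ π ∧ δ π ≤ l.u * l.Y) →
      (∀ (γ : ℤ → G) (t0 : ℤ) (a : ℝ), 29 * R * l.T / 30 ≤ a →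
        (∀ π ∈ Q, ∀ σ, sc S R n0 l.Sg l.β π γ σ + δ π ≤ a) →
        cnt S R n0 l.Sg l.β Q δ γ l.gg l.ρ a t0 ≤ s) →
      Out p g S k0 R L n0 l Q (2 * s / l.gg) := by
  obtain ⟨n00, h⟩ := level hp g h1 hK l hW Q hQ hP L ((L / l.gg + 1) * s + 1) hL (by omega)
  refine ⟨n00, fun n0 hn0 δ hδ hc => ?_⟩
  obtain ⟨U, hU, hU'⟩ := h n0 hn0 δ hδ fun γ _ a ha ht =>
    (sum_le_card_nsmul _ _ s fun k _ => hc γ _ a ha ht).trans (by simp)
  refine ⟨_, U, ?_, hU, hU'⟩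
  have b := mul_le_mul_of_nonneg_right (blocks hW.hg (L := L) (by omega)) (Nat.cast_nonneg s)
  have e : 2 * (2 * (s : ℝ) / l.gg) * L = 2 * (2 * L / l.gg * s) := by ring
  rw [e, Nat.cast_mul, Nat.cast_add, Nat.cast_mul]
  push_cast at b ⊢
  linarith

theorem out_full {p : ℕ} (hp : p.Prime) (g : G) {S : Finset G} (h1 : (1 : G) ∈ S)
    (hS : ∀ s ∈ S, s⁻¹ ∈ S) {k0 R : ℕ} (hK : S.card ≤ 2 ^ k0) (l : Lev) (hW : NumW k0 R l)
    (hC : NumC l) (hF : NumF k0 R l) (Q : Finset (ℕ → Option G)) (hQ : Q.Nonempty)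
    (hQ' : Q.card ≤ 2 ^ l.h) (hP : ∀ π ∈ Q, Pat l.Sg l.T l.b π) (L : ℕ)
    (hL : l.Sg + l.gg ≤ L) :
    ∃ n00 : ℕ, ∀ n0 ≥ n00, Out p g S k0 R L n0 l Q (6 * l.θ * (l.Sg + l.gg) / l.gg) := by
  set x : ℝ := 6 * l.θ * (l.Sg + l.gg) / l.gg with hx
  obtain ⟨n00, h⟩ := level hp g h1 hK l hW Q hQ hP L (⌈x * L⌉₊ + 1) hL (by omega)
  obtain ⟨n01, h'⟩ := count_full h1 hS hK l hW hC hF Q hQ' hP L
  have g0 : (0 : ℝ) < l.gg := by exact_mod_cast hW.hg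
  have w0 : (0 : ℝ) < l.Sg + l.gg := by positivity
  have θ0 : 0 < l.θ := (mul_pos_iff_of_pos_right w0).1 (zero_lt_one.trans_le hF.hθ)
  have x0 : 0 ≤ x * L := by positivity
  refine ⟨max (max n00 n01) 1, fun n0 hn0 => ?_⟩
  have n0p : 0 < n0 := (le_max_right _ _).trans hn0
  obtain ⟨δ, hδ, hc⟩ := h' n0 (((le_max_right _ _).trans (le_max_left _ _)).trans hn0)
  obtain ⟨U, hU, hU'⟩ := h n0 (((le_max_left _ _).trans (le_max_left _ _)).trans hn0) δ hδ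
    fun γ ⟨_, ℓ, hper, hst, hsum⟩ a ha ht => by
      have hWN : (l.Sg + l.gg) * n0 ≤ L * n0 := Nat.mul_le_mul_right _ hL
      have w := windows ℓ (L * n0) L (l.gg * n0) ((l.Sg + l.gg) * n0) (L / l.gg)
        (Nat.mul_pos hW.hg n0p) hper hsum
        (by rw [← mul_assoc]; exact Nat.mul_le_mul_right _ (Nat.div_mul_le_self _ _)) hWN
      rw [Nat.mul_div_mul_right _ _ n0p] at w
      have c1 : ∀ k ∈ range (L / l.gg + 1),
          (cnt S R n0 l.Sg l.β Q δ γ l.gg l.ρ a (k * (l.gg * n0)) : ℝ) ≤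
            l.θ * ((∑ t ∈ Ico ((k : ℤ) * (l.gg * n0 : ℕ))
              (k * (l.gg * n0 : ℕ) + ((l.Sg + l.gg) * n0 : ℕ)), ℓ t : ℕ) + (l.Sg + l.gg)) := by
        intro k _
        have := hc γ ℓ hst (k * (l.gg * n0)) a (by
          have := (sum_window_le (L * n0) _ hWN ℓ hper (k * (l.gg * n0))).trans hsum
          push_cast at this
          exact this) ha ht
        push_cast at this ⊢
        exact this
      have c2 := sum_le_sum c1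
      rw [← mul_sum, sum_add_distrib, ← Nat.cast_sum, ← Nat.cast_sum, sum_const, card_range,
        nsmul_eq_mul] at c2
      have b1 := blocks hW.hg (L := L) (by omega)
      have b2 := blocks hW.hg (L := l.Sg + l.gg) (by omega)
      have w' : ((∑ k ∈ range (L / l.gg + 1), ∑ t ∈ Ico ((k : ℤ) * (l.gg * n0 : ℕ))
          (k * (l.gg * n0 : ℕ) + ((l.Sg + l.gg) * n0 : ℕ)), ℓ t : ℕ) : ℝ) ≤
            (((l.Sg + l.gg) / l.gg + 1 : ℕ) : ℝ) * (2 * L) := by exact_mod_cast w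
      have b3 := mul_le_mul_of_nonneg_right b1 w0.le
      have b4 := mul_le_mul_of_nonneg_right b2 (show (0 : ℝ) ≤ 2 * L by positivity)
      have b5 := mul_le_mul_of_nonneg_left (add_le_add (w'.trans b4) b3) θ0.le
      have e : l.θ * (2 * ((l.Sg + l.gg : ℕ) : ℝ) / l.gg * (2 * L) +
          2 * L / l.gg * (l.Sg + l.gg)) = x * L := by
        rw [hx]; push_cast; ring
      have := ((c2.trans b5).trans e.le).trans (Nat.le_ceil _)
      exact (Nat.cast_le.1 this).trans (Nat.le_succ _)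
  refine ⟨_, U, ?_, hU, hU'⟩
  have := (Nat.ceil_lt_add_one x0).le
  push_cast
  linarith

end Tower

open Tower

theorem tower {p : ℕ} (hp : p.Prime) (k0 : ℕ) (θ : ℝ) (hθ : 0 < θ) :
    ∃ R Sg T b gg F c0 L0 : ℕ, 0 < R ∧ 0 < gg ∧ 0 < F ∧ 9 * Sg ≤ 10 * T ∧ 30 * gg ≤ Sg ∧
      (2496 * (6 * gg + 3) * 2 ^ (k0 * (2 * R)) : ℝ) ≤ θ * Sg ∧
      ∀ (G : Type) [Group G] (g : G) (S : Finset G), (1 : G) ∈ S → (∀ s ∈ S, s⁻¹ ∈ S) →
        S.card ≤ 2 ^ k0 → ∃ Q : Finset (ℕ → Option G), (∀ π ∈ Q, Pat Sg T b π) ∧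
          (∀ π ∈ Q, ∀ x, (π x).getD 1 ∈ Subgroup.closure (S : Set G)) ∧
          ∀ L ≥ L0, ∃ n00 : ℕ, ∀ n0 ≥ n00, F ∣ n0 → ∃ k : ℕ,
            (k : ℝ) ≤ 2 * θ * L + c0 ∧ Sys p g S (L * n0) L k k
              {γ | ¬ ∃ π ∈ Q, Wrap S R n0 Sg gg π γ (19 * R * T / 20)} := by
  obtain ⟨R, m, ns, nr, s, l, n, hm, hW, hN, hC, hF, hLo, e1, e2, e3, e4, hb, hb'⟩ :=
    sched k0 θ hθ
  have hWm := hW m le_rfl
  refine ⟨R, (l m).Sg, (l m).T, (l m).b, (l m).gg, (l m).F, 4 * (m + 1),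
    ∑ i ∈ range (m + 1), ((l i).Sg + (l i).gg), hWm.hR, hWm.hg, (hC m hm le_rfl).hF, hWm.hT,
    hWm.hg', hb', fun G _ g S h1 hS hK => ?_⟩
  have hx : ∀ i ≤ m, 19 * (R : ℝ) * (l i).T / 20 ≤ (R - (l i).Φ) * (l i).T - (l i).loss k0 R := by
    intro i hi
    have h0 : (0 : ℝ) ≤ R * (l i).T := by positivity
    linarith [low (hW i hi), (hW i hi).hl]
  let Ok : ℕ → Finset (ℕ → Option G) → Prop := fun i Q => Q.Nonempty ∧
    (∀ π ∈ Q, Pat (l i).Sg (l i).T (l i).b π) ∧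
    (∀ π ∈ Q, ∀ x, (π x).getD 1 ∈ Subgroup.closure (S : Set G)) ∧ Q.card ≤ 2 ^ (l i).h
  let Act : ℕ → Finset (ℕ → Option G) → ℕ → (ℤ → G) → Prop := fun i Q n0 γ =>
    ∃ π ∈ Q, ∃ c σ, (R - (l i).Φ) * (l i).T ≤ fit S R n0 (l i).Sg π γ c σ
  have st : ∀ i Q, ∃ Q', i < m → Ok i Q → Ok (i + 1) Q' ∧ ∀ n0, 0 < n0 → ∀ γ, ∀ π ∈ Q,
      Wrap S R n0 (l i).Sg (l i).gg π γ ((R - (l i).Φ) * (l i).T - (l i).loss k0 R) →
      Act (i + 1) Q' n0 γ := by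
    intro i Q
    by_cases h : i < m ∧ Ok i Q
    swap
    · exact ⟨∅, fun a b => (h ⟨a, b⟩).elim⟩
    obtain ⟨hi, q1, q2, q3, q4⟩ := h
    have w := hW i hi.le
    have v := hN i hi
    obtain ⟨Q', r1, r2, r3, r4, r5⟩ := step h1 hS R _ _ _ _ (n i) w.hR w.hg w.hT w.hg' Q q1 q2 q3
    refine ⟨Q', fun _ _ => ⟨⟨r1, ?_, r3, ?_⟩, fun n0 hn0 γ π hπ hw => ?_⟩⟩
    · rw [v.hSg, v.hT, v.hb]; exact r2
    · refine r4.trans (le_trans ?_ v.hh)
      have : S.card ^ (4 * R) ≤ 2 ^ (4 * k0 * R) := by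
        rw [show 4 * k0 * R = k0 * (4 * R) by ring, pow_mul 2]
        exact Nat.pow_le_pow_left hK _
      gcongr
    · obtain ⟨π', hπ', c, σ, hf⟩ := r5 n0 hn0 γ _ (hx i hi.le) π hπ hw
      refine ⟨π', hπ', c, σ, ?_⟩
      rw [v.hSg, v.hT]
      refine le_trans ?_ hf
      have := mul_le_mul_of_nonneg_left v.hΦ (Nat.cast_nonneg (α := ℝ) (n i))
      push_cast
      nlinarith
  choose f hf using st
  let Q : ℕ → Finset (ℕ → Option G) := fun i => Nat.rec {fun _ => some 1} f i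
  have Q0 : Q 0 = {fun _ => some 1} := rfl
  have Qs : ∀ i, Q (i + 1) = f i (Q i) := fun _ => rfl
  have ok : ∀ i ≤ m, Ok i (Q i) := by
    intro i
    induction i with
    | zero =>
      intro _
      rw [Q0]
      refine ⟨singleton_nonempty _, fun π hπ => ?_, fun π hπ x => ?_, by simp [e3]⟩
      · rw [mem_singleton.1 hπ, e1, e2]; exact pat_const _
      · rw [mem_singleton.1 hπ]; exact Subgroup.one_mem _
    | succ i ih => exact fun hi => (hf i (Q i) hi (ih (by omega))).1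
  refine ⟨Q m, (ok m le_rfl).2.1, (ok m le_rfl).2.2.1, fun L hL => ?_⟩
  have hLi : ∀ i ≤ m, (l i).Sg + (l i).gg ≤ L := fun i hi =>
    (single_le_sum (f := fun i => (l i).Sg + (l i).gg) (fun _ _ => Nat.zero_le _)
      (mem_range.2 (by omega))).trans hL
  have L0 : 0 < L := by have := hLi m le_rfl; have := hWm.hg; omega
  let x : ℕ → ℝ := fun i => if i = 0 then 2 / ((l 0).gg : ℝ) else
    if i < m then 6 * (l i).θ * ((l i).Sg + (l i).gg) / (l i).gg else 2 * s / ((l m).gg : ℝ)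
  have key : ∀ i, ∃ n00 : ℕ, i ≤ m → ∀ n0 ≥ n00, (l m).F ∣ n0 →
      Out p g S k0 R L n0 (l i) (Q i) (x i) := by
    intro i
    by_cases hi : i ≤ m
    swap
    · exact ⟨0, fun h => (hi h).elim⟩
    obtain ⟨q1, q2, q3, q4⟩ := ok i hi
    rcases Nat.eq_zero_or_pos i with rfl | h0
    · obtain ⟨n00, h⟩ := out_const hp g h1 hK _ (hW 0 hi) _ q1 q2 L 1 (hLi 0 hi)
      refine ⟨n00, fun _ n0 hn0 _ => ?_⟩
      have := h n0 hn0 (fun _ => 0)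
        (fun _ => ⟨le_rfl, mul_nonneg (hW 0 hi).hu (Nat.cast_nonneg _)⟩)
        fun γ t0 a _ _ => (card_filter_le _ _).trans (by rw [Q0, card_singleton])
      simpa [x] using this
    rcases hi.lt_or_eq with h | rfl
    · obtain ⟨n00, h'⟩ := out_full hp g h1 hS hK _ (hW i hi) (hC i h0 hi) (hF i h0 h) _ q1 q4 q2
        L (hLi i hi)
      refine ⟨n00, fun _ n0 hn0 _ => ?_⟩
      simpa only [x, if_neg h0.ne', if_pos h] using h' n0 hn0
    · obtain ⟨n00, h⟩ := out_const hp g h1 hK _ (hW i hi) _ q1 q2 L s (hLi i hi)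
      refine ⟨max n00 1, fun _ n0 hn0 hd => ?_⟩
      obtain ⟨δ, hδ, hc⟩ := count_low h1 hS hK _ (hW i hi) (hC i h0 hi) hLo _ q4 q2 n0
        ((le_max_right _ _).trans hn0) hd
      simpa only [x, if_neg h0.ne', if_neg (lt_irrefl i)] using
        h n0 ((le_max_left _ _).trans hn0) δ hδ hc
  choose n00 key using key
  refine ⟨∑ i ∈ range (m + 1), n00 i + 1, fun n0 hn0 hd => ?_⟩
  have n0p : 0 < n0 := by omega
  have key' : ∀ i, ∃ (k : ℕ) (U : Set (ℤ → G)), i ≤ m → (k : ℝ) ≤ 2 * x i * L + 4 ∧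
      Sys p g S (L * n0) L k k U ∧ ∀ γ, Good g S (L * n0) L γ → Act i (Q i) n0 γ →
        γ ∈ U ∨ ∃ π ∈ Q i, Wrap S R n0 (l i).Sg (l i).gg π γ
          ((R - (l i).Φ) * (l i).T - (l i).loss k0 R) := by
    intro i
    by_cases hi : i ≤ m
    swap
    · exact ⟨0, ∅, fun h => (hi h).elim⟩
    have := single_le_sum (f := n00) (fun _ _ => Nat.zero_le _)
      (mem_range.2 (show i < m + 1 by omega))
    obtain ⟨k, U, h⟩ := key i hi n0 (by omega) hd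
    exact ⟨k, U, fun _ => h⟩
  choose k U key' using key'
  refine ⟨∑ i ∈ range (m + 1), k i, ?_, (Sys.biUnion (m + 1) k k U fun i hi =>
    (key' i (by omega)).2.1).mono le_rfl le_rfl fun γ hγ hw => ?_⟩
  · have s1 : ∑ i ∈ range (m + 1), (k i : ℝ) ≤ ∑ i ∈ range (m + 1), (2 * x i * L + 4) :=
      sum_le_sum fun i hi => (key' i (by simp at hi; omega)).1
    have s2 : ∑ i ∈ range (m + 1), x i ≤ θ := by
      have e : range (m + 1) = insert 0 (insert m (Ioo 0 m)) := by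
        ext i
        simp only [mem_range, mem_insert, mem_Ioo]
        omega
      rw [e, sum_insert (by simp; omega), sum_insert (by simp)]
      rw [sum_congr rfl (g := fun i => 6 * (l i).θ * ((l i).Sg + (l i).gg) / (l i).gg)
        fun i hi => by simp only [x, if_neg (mem_Ioo.1 hi).1.ne', if_pos (mem_Ioo.1 hi).2]]
      simp only [x, if_pos, if_neg hm.ne', if_neg (lt_irrefl m)]
      linarith
    rw [sum_add_distrib, ← sum_mul, ← mul_sum, sum_const, card_range, nsmul_eq_mul] at s1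
    have := mul_le_mul_of_nonneg_right s2 (Nat.cast_nonneg (α := ℝ) L)
    push_cast at s1 ⊢
    linarith
  by_contra hU
  have act : ∀ i ≤ m, Act i (Q i) n0 γ := by
    intro i
    induction i with
    | zero =>
      intro _
      obtain ⟨c, σ, h⟩ := start h1 hS R (l 0).T L0 n0p hγ
      refine ⟨_, mem_singleton_self _, c, σ, ?_⟩
      rw [e1]
      have := mul_le_mul_of_nonneg_right e4 (Nat.cast_nonneg (α := ℝ) (l 0).T)
      linarith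
    | succ i ih =>
      intro hi
      rcases (key' i (by omega)).2.2 γ hγ (ih (by omega)) with h | ⟨π, hπ, h⟩
      · exact (hU ⟨i, by omega, h⟩).elim
      · exact (hf i (Q i) hi (ok i (by omega))).2 n0 n0p γ π hπ h
  rcases (key' m le_rfl).2.2 γ hγ (act m le_rfl) with h | ⟨π, hπ, h⟩
  · exact hU ⟨m, by omega, h⟩
  · exact hw ⟨π, hπ, wrap_mono h (hx m le_rfl)⟩

end Pool.Agent.Lib.MP_7903c7_al.PT
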